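import Pool.Agent.H66B.Lex

/-!
# H66B/LexTop: topological facts about `T` (imports Lex)

`Lev ρ`: all sets `{x | ρ n x ≤ ξ}` are open.

* `near_le`: for every `x` and `n`, `∀ᶠ x' in 𝓝 x, ∀ i < n, ρ i x' ≤ ρ i x` (finite
  intersection of open sets; `Filter.eventually_all_finite` / `Finset` or induction on `n`).
* `isClosed_T`: the complement `{y | ¬ lt n x y}` is open: for `y` in it and `y'` near `y`
  with `ρ i y' ≤ ρ i y` for `i < n` we have `¬ lt n x y'`: a witness `k` of `lt n x y'` would give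
  `ρ i x = ρ i y' ≤ ρ i y` for `i < k` and `ρ k x < ρ k y' ≤ ρ k y`, hence `lt n x y` by `pt_lt`.
* `good_T`: `isClosed_T` and `lt_trans'`.
* `near`: take `x'` with `ρ i x' ≤ ρ i x` for `i < n`.  If `y ∈ T n x` with witness `k` then
  `ρ i x' ≤ ρ i x = ρ i y` for `i < k` and `ρ k x' ≤ ρ k x < ρ k y`: `pt_lt`.  If not all
  coordinates below `n` agree, then `ρ i x' < ρ i x` for some `i < n` and `pt_lt` gives
  `lt n x' x`.
* `exists_last`: the open sets `U y = {y' | ¬ lt n y y'}` (`y ∈ A`) cover `A` (`lt_irrefl`) and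
  are directed: for `y, z ∈ A` either `¬ lt n y z`... more precisely if `lt n y z` then
  `U y ⊆ U z` (if `lt n z y'` then `lt n y y'` by `lt_trans'`), and if `¬ lt n y z` then
  `U z ⊆ U y` (if `lt n y y'` then `lt n y z ∨ lt n z y'` by `lt_cases`).  So by
  `IsCompact.elim_directed_cover` (index type the subtype `A`, nonempty) `A ⊆ U z` for some
  `z ∈ A`.
-/

set_option autoImplicit false

namespace Pool.Agent.H66B

open Set Filter Topology

variable {K : Type} [TopologicalSpace K] {ρ : ℕ → K → Ordinal.{0}}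

theorem near_le (hρ : Lev ρ) (n : ℕ) (x : K) : ∀ᶠ x' in 𝓝 x, ∀ i < n, ρ i x' ≤ ρ i x := by
  have h1 : ∀ i : ℕ, ∀ᶠ x' in 𝓝 x, ρ i x' ≤ ρ i x := fun i =>
    (hρ i (ρ i x)).mem_nhds (le_refl (ρ i x))
  have h2 : ∀ᶠ x' in 𝓝 x, ∀ i ∈ Set.Iio n, ρ i x' ≤ ρ i x :=
    (Filter.eventually_all_finite (Set.finite_Iio n)).2 fun i _ => h1 i
  exact h2

theorem isClosed_T (hρ : Lev ρ) (n : ℕ) (x : K) : IsClosed (T ρ n x) := by
  rw [← isOpen_compl_iff, isOpen_iff_mem_nhds]
  intro y hy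
  filter_upwards [near_le hρ n y] with y' hy'
  intro hlt
  obtain ⟨k, hk, h1, h2⟩ := (show lt ρ n x y' from hlt)
  refine hy (pt_lt hk (fun i hi => ?_) (h2.trans_le (hy' k hk)))
  rcases lt_or_eq_of_le hi with h3 | h3
  · rw [h1 i h3]
    exact hy' i (h3.trans hk)
  · rw [h3]
    exact h2.le.trans (hy' k hk)

theorem good_T (hρ : Lev ρ) (n : ℕ) (x : K) : Good ρ (T ρ n x) :=
  ⟨isClosed_T hρ n x, fun y hy m z hz =>
    lt_trans' (show lt ρ n x y from hy) (show lt ρ m y z from hz)⟩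

theorem good_univ : Good ρ (Set.univ : Set K) :=
  ⟨isClosed_univ, fun _ _ _ => Set.subset_univ _⟩

theorem near (hρ : Lev ρ) (n : ℕ) (x : K) :
    ∀ᶠ x' in 𝓝 x, T ρ n x ⊆ T ρ n x' ∧ ((∀ i < n, ρ i x' = ρ i x) ∨ x ∈ T ρ n x') := by
  filter_upwards [near_le hρ n x] with x' hx'
  constructor
  · intro y hy
    obtain ⟨k, hk, h1, h2⟩ := (show lt ρ n x y from hy)
    refine pt_lt hk (fun i hi => ?_) ((hx' k hk).trans_lt h2)
    rcases lt_or_eq_of_le hi with h3 | h3
    · rw [← h1 i h3]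
      exact hx' i (h3.trans hk)
    · rw [h3]
      exact ((hx' k hk).trans_lt h2).le
  · by_cases hall : ∀ i < n, ρ i x' = ρ i x
    · exact Or.inl hall
    · push Not at hall
      obtain ⟨k, hk, hne⟩ := hall
      exact Or.inr (pt_lt hk (fun i hi => hx' i (lt_of_le_of_lt hi hk))
        (lt_of_le_of_ne (hx' k hk) hne))

theorem exists_last (hρ : Lev ρ) (n : ℕ) {A : Set K} (hA : IsCompact A) (hne : A.Nonempty) :
    ∃ z ∈ A, ∀ y ∈ A, ¬ lt ρ n z y := by
  have : Nonempty A := hne.to_subtype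
  obtain ⟨z, hz⟩ := hA.elim_directed_cover (fun y : A => (T ρ n y.1)ᶜ)
    (fun y => (isClosed_T hρ n y.1).isOpen_compl)
    (fun y hy => Set.mem_iUnion.2 ⟨⟨y, hy⟩, lt_irrefl n y⟩)
    (by
      intro y z
      by_cases hyz : lt ρ n y.1 z.1
      · refine ⟨z, ?_, subset_rfl⟩
        intro u hu hzu
        exact hu (lt_trans' hyz (show lt ρ n z.1 u from hzu))
      · refine ⟨y, subset_rfl, ?_⟩
        intro u hu hyu
        rcases lt_cases (show lt ρ n y.1 u from hyu) z.1 with h1 | h1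
        · exact hyz h1
        · exact hu h1)
  exact ⟨z.1, z.2, fun y hy h => hz hy h⟩

end Pool.Agent.H66B
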