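import Pool.Agent.H66B.VProp
import Pool.Agent.H66B.LexTop

/-!
# H66B/Usc: upper semicontinuity and maximizers (imports VProp, LexTop)

`K` carries a topology, `Lev ρ`, `f` continuous.

* `term_usc`: by `near` (with `n = nu i`), near `x` we have `T ρ (nu i) x ⊆ T ρ (nu i) x'`, so
  `V ρ f i (T ρ (nu i) x) ≤ V ρ f i (T ρ (nu i) x')` (`V_mono`) and by monotonicity of `th`
  `term x' ≤ th (ph (f x') - V ρ f i (T ρ (nu i) x))`; the right-hand side is continuous in `x'`
  with value `term x` at `x' = x`.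
* `tendsto_excess`: for `xs → x0` along `F`, `max (term (xs k) - term x0) 0 → 0` (from `term_usc`).
* `P_excess`: `P (xs k) - P x0 = ∑' w i (term (xs k) - term x0) ≤ ∑' w i max (term (xs k) - term x0) 0`,
  and the last sum tends to `0` by `tendsto_tsum_of_dominated_convergence` (bound `w i`), so
  `∀ η > 0, ∀ᶠ k, P (xs k) ≤ P x0 + η`.  `P_usc` is the case `F = 𝓝 x0`, `xs = id`.
* `val_usc`: `ph ∘ f` is continuous and `s ≥ 0`.
* `exists_max`: `UpperSemicontinuousOn.exists_isMaxOn` on the compact set `C`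
  (`UpperSemicontinuousAt`: for every `y > val x` eventually `val x' < y`; take
  `η = (y - val x)/2`).
-/

set_option autoImplicit false

namespace Pool.Agent.H66B

open Set Filter Topology

variable {K : Type} [TopologicalSpace K] {ρ : ℕ → K → Ordinal.{0}} {f : K → ℝ}

theorem term_usc (hρ : Lev ρ) (hf : Continuous f) (i : ℕ) (x : K) {η : ℝ} (hη : 0 < η) :
    ∀ᶠ x' in 𝓝 x, term ρ f (V ρ f) i x' ≤ term ρ f (V ρ f) i x + η := by
  have h1 := near hρ (nu i) x
  have hc : Continuous (fun x' => th (ph (f x') - V ρ f i (T ρ (nu i) x))) :=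
    continuous_th.comp ((continuous_ph.comp hf).sub continuous_const)
  have h2 : ∀ᶠ x' in 𝓝 x, th (ph (f x') - V ρ f i (T ρ (nu i) x))
      < th (ph (f x) - V ρ f i (T ρ (nu i) x)) + η :=
    (hc.tendsto x).eventually (eventually_lt_nhds (by linarith))
  filter_upwards [h1, h2] with x' h1 h2
  have h3 := V_mono ρ f h1.1 i
  have h4 : th (ph (f x') - V ρ f i (T ρ (nu i) x')) ≤ th (ph (f x') - V ρ f i (T ρ (nu i) x)) :=
    th_mono (by linarith)
  unfold term
  linarith

theorem tendsto_excess (hρ : Lev ρ) (hf : Continuous f) {ι : Type} {F : Filter ι} {xs : ι → K}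
    {x0 : K} (hx : Tendsto xs F (𝓝 x0)) (i : ℕ) :
    Tendsto (fun k => max (term ρ f (V ρ f) i (xs k) - term ρ f (V ρ f) i x0) 0) F (𝓝 0) := by
  refine tendsto_order.2 ⟨fun a ha => ?_, fun a ha => ?_⟩
  · exact Eventually.of_forall (fun k => lt_of_lt_of_le ha (le_max_right _ _))
  · filter_upwards [hx.eventually (term_usc hρ hf i x0 (half_pos ha))] with k hk
    exact max_lt (by linarith) ha

theorem excess_nonneg (i : ℕ) (a b : K) :
    0 ≤ w i * max (term ρ f (V ρ f) i a - term ρ f (V ρ f) i b) 0 :=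
  mul_nonneg (w_pos i).le (le_max_right _ _)

theorem excess_le (i : ℕ) (a b : K) :
    w i * max (term ρ f (V ρ f) i a - term ρ f (V ρ f) i b) 0 ≤ w i := by
  have h1 := term_le_one ρ f (V ρ f) i a
  have h2 := term_nonneg ρ f (V ρ f) i b
  have h3 : max (term ρ f (V ρ f) i a - term ρ f (V ρ f) i b) 0 ≤ 1 := max_le (by linarith) zero_le_one
  calc w i * max (term ρ f (V ρ f) i a - term ρ f (V ρ f) i b) 0 ≤ w i * 1 :=
        mul_le_mul_of_nonneg_left h3 (w_pos i).le
    _ = w i := mul_one _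

theorem summable_excess (a b : K) :
    Summable (fun i => w i * max (term ρ f (V ρ f) i a - term ρ f (V ρ f) i b) 0) :=
  Summable.of_nonneg_of_le (fun i => excess_nonneg i a b) (fun i => excess_le i a b) summable_w

theorem tendsto_sum_excess (hρ : Lev ρ) (hf : Continuous f) {ι : Type} {F : Filter ι}
    {xs : ι → K} {x0 : K} (hx : Tendsto xs F (𝓝 x0)) :
    Tendsto (fun k => ∑' i, w i * max (term ρ f (V ρ f) i (xs k) - term ρ f (V ρ f) i x0) 0)
      F (𝓝 0) := by
  have h := tendsto_tsum_of_dominated_convergence (𝓕 := F)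
    (f := fun k i => w i * max (term ρ f (V ρ f) i (xs k) - term ρ f (V ρ f) i x0) 0)
    (g := fun _ => (0 : ℝ)) summable_w
    (fun i => by
      have := (tendsto_excess hρ hf hx i).const_mul (w i)
      rw [mul_zero] at this
      exact this)
    (Eventually.of_forall (fun k i => by
      rw [Real.norm_of_nonneg (excess_nonneg i (xs k) x0)]
      exact excess_le i (xs k) x0))
  rw [tsum_zero] at h
  exact h

theorem P_le_add (a b : K) : P ρ f (V ρ f) a ≤ P ρ f (V ρ f) b
    + ∑' i, w i * max (term ρ f (V ρ f) i a - term ρ f (V ρ f) i b) 0 := by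
  unfold P
  rw [← (summable_term ρ f (V ρ f) b).tsum_add (summable_excess a b)]
  refine (summable_term ρ f (V ρ f) a).tsum_le_tsum ?_ ((summable_term ρ f (V ρ f) b).add (summable_excess a b))
  intro i
  have h := mul_le_mul_of_nonneg_left
    (le_max_left (term ρ f (V ρ f) i a - term ρ f (V ρ f) i b) 0) (w_pos i).le
  linarith

theorem P_usc (hρ : Lev ρ) (hf : Continuous f) (x : K) {η : ℝ} (hη : 0 < η) :
    ∀ᶠ x' in 𝓝 x, P ρ f (V ρ f) x' ≤ P ρ f (V ρ f) x + η := by
  have h := tendsto_sum_excess (xs := fun x' => x') hρ hf (tendsto_id : Tendsto id (𝓝 x) (𝓝 x))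
  filter_upwards [(tendsto_order.1 h).2 η hη] with x' hx'
  have := P_le_add (ρ := ρ) (f := f) x' x
  linarith

theorem val_usc (hρ : Lev ρ) (hf : Continuous f) {s : ℝ} (hs : 0 ≤ s) (x : K) {η : ℝ}
    (hη : 0 < η) :
    ∀ᶠ x' in 𝓝 x, val ρ f (V ρ f) s x' ≤ val ρ f (V ρ f) s x + η := by
  have h1 : ∀ᶠ x' in 𝓝 x, ph (f x') < ph (f x) + η / 2 :=
    ((continuous_ph.comp hf).tendsto x).eventually (eventually_lt_nhds (by
      show ph (f x) < ph (f x) + η / 2
      linarith))
  have hs1 : 0 < s + 1 := by linarith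
  have h2 := P_usc hρ hf x (η := η / 2 / (s + 1)) (by positivity)
  filter_upwards [h1, h2] with x' h1 h2
  unfold val
  have h3 := mul_le_mul_of_nonneg_left h2 hs
  have h4 : s * (η / 2 / (s + 1)) ≤ η / 2 := by
    rw [mul_div_assoc', div_le_iff₀ hs1]
    nlinarith
  nlinarith

theorem exists_max [CompactSpace K] (hρ : Lev ρ) (hf : Continuous f) {C : Set K}
    (hC : IsClosed C) (hne : C.Nonempty) {s : ℝ} (hs : 0 ≤ s) :
    ∃ x ∈ C, ∀ y ∈ C, val ρ f (V ρ f) s y ≤ val ρ f (V ρ f) s x := by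
  have husc : UpperSemicontinuousOn (val ρ f (V ρ f) s) C := by
    intro x _ y hy
    have h := val_usc hρ hf hs x (η := (y - val ρ f (V ρ f) s x) / 2) (by linarith)
    have h' : ∀ᶠ x' in 𝓝[C] x, val ρ f (V ρ f) s x' ≤ val ρ f (V ρ f) s x
        + (y - val ρ f (V ρ f) s x) / 2 := nhdsWithin_le_nhds h
    filter_upwards [h'] with x' hx'
    linarith
  obtain ⟨x, hx, hmax⟩ := husc.exists_isMaxOn hne hC.isCompact
  exact ⟨x, hx, fun y hy => hmax hy⟩

end Pool.Agent.H66B
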