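import Pool.Agent.H66B.Uniq
import Pool.Agent.H66B.Usc

/-!
# H66B/AeUniq: for almost every `t` the maximizer is unique (imports Uniq, Usc)

`S ρ f (V ρ f) C` is Lipschitz (`S_lip`), so `t ↦ S ρ f (V ρ f) C (w m * t)` is Lipschitz and
differentiable at almost every `t` (`LipschitzWith.ae_differentiableAt`); since `w m > 0`,
differentiability of the composition at `t` gives differentiability of `S ..` at `w m * t`
(compose with `s ↦ s / w m`).  At such `t ∈ (0,1]` a maximizer `x` exists by `exists_max`
(`C` is closed and nonempty by `hpos`), and `uniq_of_diff` gives uniqueness: if `y ∈ C` and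
`val y = val x` then `y` is also a maximizer.
-/

set_option autoImplicit false

namespace Pool.Agent.H66B

open Set Filter Topology

theorem ae_uniq {K : Type} [TopologicalSpace K] [CompactSpace K]
    {ρ : ℕ → K → Ordinal.{0}} {f : K → ℝ} (hρ : Lev ρ) (hsep : Sep ρ) (hf : Continuous f)
    {C : Set K} (hC : Good ρ C) (hpos : ∃ y ∈ C, 0 < ph (f y)) (m : ℕ) :
    ∀ᵐ t ∂(MeasureTheory.volume : MeasureTheory.Measure ℝ), t ∈ Set.Ioc (0 : ℝ) 1 →
      ∃ x, UniqMax ρ f C (w m * t) x := by
  have hw : 0 < w m := w_pos m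
  have hlip : LipschitzWith (1 * (w m).toNNReal)
      (fun t : ℝ => S ρ f (V ρ f) C (w m * t)) := by
    have h1 : LipschitzWith (w m).toNNReal (fun t : ℝ => w m * t) := by
      refine LipschitzWith.of_dist_le_mul fun a b => ?_
      rw [Real.dist_eq, Real.dist_eq, ← mul_sub, abs_mul, abs_of_pos hw,
        Real.coe_toNNReal _ hw.le]
    exact (S_lip ρ f (V ρ f) C).comp h1
  filter_upwards [hlip.ae_differentiableAt] with t ht hmem
  have hs : 0 < w m * t := mul_pos hw hmem.1
  have hd : DifferentiableAt ℝ (S ρ f (V ρ f) C) (w m * t) := by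
    have h2 : DifferentiableAt ℝ (fun s : ℝ => s / w m) (w m * t) := by fun_prop
    have h3 : (w m * t) / w m = t := by field_simp
    have ht' : DifferentiableAt ℝ (fun t : ℝ => S ρ f (V ρ f) C (w m * t))
        ((fun s : ℝ => s / w m) (w m * t)) := by
      simp only [h3]; exact ht
    have h4 := ht'.comp (w m * t) h2
    refine h4.congr_of_eventuallyEq (Filter.Eventually.of_forall fun s => ?_)
    simp only [Function.comp]
    congr 1
    field_simp
  have hne : C.Nonempty := by obtain ⟨u, huC, -⟩ := hpos; exact ⟨u, huC⟩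
  obtain ⟨x, hxC, hx⟩ := exists_max hρ hf hC.1 hne hs.le
  refine ⟨x, hxC, hx, fun y hy hyx => ?_⟩
  exact uniq_of_diff hρ hsep hf hC hpos hs hd hy hxC (fun u hu => (hx u hu).trans hyx.ge) hx

end Pool.Agent.H66B
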