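import Mathlib

/-!
# H66B/DualK: the dual unit ball as a compact space (Mathlib only)

`DBall X` = the closed unit ball of `X →L[ℝ] ℝ` with the topology induced by `f ↦ (x ↦ f x)` into
`X → ℝ`.

* `CompactSpace`: Banach-Alaoglu.  Either through `WeakDual.isCompact_closedBall` (the topology of
  `WeakDual ℝ X` is induced by the same map), or directly: the image of `DBall X` in `X → ℝ` is the
  closed subset of `Set.pi univ (fun x => Icc (-‖x‖) ‖x‖)` of all linear functions.
* `ev x` is the evaluation at `x`, continuous by definition of the topology.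
* `exists_norming`: `exists_dual_vector''` gives `‖g‖ ≤ 1`, `g x = ‖x‖`.
-/

set_option autoImplicit false

namespace Pool.Agent.H66B

open Set Filter Topology

variable (X : Type) [NormedAddCommGroup X] [NormedSpace ℝ X]

/-- the closed unit ball of the dual -/
def DBall : Type := {f : X →L[ℝ] ℝ // ‖f‖ ≤ 1}

/-- the topology of pointwise convergence -/
instance : TopologicalSpace (DBall X) :=
  TopologicalSpace.induced (fun (f : DBall X) (x : X) => f.1 x) Pi.topologicalSpace

instance instCompactDBall : CompactSpace (DBall X) := by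
  have hind : Topology.IsInducing (fun (f : DBall X) (x : X) => f.1 x) := ⟨rfl⟩
  rw [← isCompact_univ_iff, hind.isCompact_iff, Set.image_univ]
  have hrange : Set.range (fun (f : DBall X) (x : X) => f.1 x) =
      (Set.pi Set.univ (fun x : X => Set.Icc (-‖x‖) ‖x‖)) ∩
        ({φ : X → ℝ | ∀ x y, φ (x + y) = φ x + φ y} ∩
          {φ : X → ℝ | ∀ (c : ℝ) x, φ (c • x) = c * φ x}) := by
    ext φ
    constructor
    · rintro ⟨f, rfl⟩
      refine ⟨fun x _ => ?_, fun x y => ?_, fun c x => ?_⟩
      · have h1 : ‖f.1 x‖ ≤ ‖x‖ := by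
          calc ‖f.1 x‖ ≤ ‖f.1‖ * ‖x‖ := f.1.le_opNorm x
            _ ≤ 1 * ‖x‖ := mul_le_mul_of_nonneg_right f.2 (norm_nonneg x)
            _ = ‖x‖ := one_mul _
        rw [Real.norm_eq_abs] at h1
        exact abs_le.1 h1
      · exact map_add f.1 x y
      · have h2 := map_smul f.1 c x
        exact h2
    · rintro ⟨h1, h2, h3⟩
      have h2' : ∀ x y, φ (x + y) = φ x + φ y := h2
      have h3' : ∀ (c : ℝ) x, φ (c • x) = c * φ x := h3
      let L : X →ₗ[ℝ] ℝ :=
        { toFun := φ
          map_add' := h2'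
          map_smul' := fun c x => h3' c x }
      have hL : ∀ x, ‖L x‖ ≤ 1 * ‖x‖ := fun x => by
        rw [one_mul, Real.norm_eq_abs]
        exact abs_le.2 (h1 x (Set.mem_univ x))
      exact ⟨⟨L.mkContinuous 1 hL, L.mkContinuous_norm_le zero_le_one hL⟩, rfl⟩
  rw [hrange]
  refine (isCompact_univ_pi fun x => isCompact_Icc).inter_right (IsClosed.inter ?_ ?_)
  · simp only [Set.ofPred_forall]
    refine isClosed_iInter fun x => isClosed_iInter fun y => ?_
    exact isClosed_eq (continuous_apply (x + y))
      ((continuous_apply (A := fun _ : X => ℝ) x).add (continuous_apply (A := fun _ : X => ℝ) y))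
  · simp only [Set.ofPred_forall]
    refine isClosed_iInter fun c => isClosed_iInter fun x => ?_
    exact isClosed_eq (continuous_apply _) (continuous_const.mul (continuous_apply _))

theorem continuous_ev (x : X) : Continuous (fun f : DBall X => f.1 x) := by
  have hind : Topology.IsInducing (fun (f : DBall X) (x : X) => f.1 x) := ⟨rfl⟩
  exact (continuous_apply x).comp hind.continuous

/-- evaluation at `x` -/
def ev (x : X) : C(DBall X, ℝ) := ⟨fun f => f.1 x, continuous_ev X x⟩

theorem ev_apply (x : X) (k : DBall X) : ev X x k = k.1 x := rfl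

theorem abs_ev_le (x : X) (k : DBall X) : |ev X x k| ≤ ‖x‖ := by
  rw [ev_apply, ← Real.norm_eq_abs]
  calc ‖k.1 x‖ ≤ ‖k.1‖ * ‖x‖ := k.1.le_opNorm x
    _ ≤ 1 * ‖x‖ := mul_le_mul_of_nonneg_right k.2 (norm_nonneg x)
    _ = ‖x‖ := one_mul _

theorem exists_norming (x : X) : ∃ k : DBall X, ev X x k = ‖x‖ := by
  obtain ⟨g, hg, hgx⟩ := exists_dual_vector'' ℝ x
  refine ⟨(⟨g, hg⟩ : {f : X →L[ℝ] ℝ // ‖f‖ ≤ 1}), ?_⟩
  have h2 : g x = ‖x‖ := by simpa using hgx
  exact h2

/-- `ev` as a bounded linear map -/
noncomputable def evL : X →L[ℝ] C(DBall X, ℝ) :=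
  LinearMap.mkContinuous
    { toFun := ev X
      map_add' := fun x y => by ext k; simp [ev]
      map_smul' := fun c x => by ext k; simp [ev] } 1
    (fun x => by
      rw [one_mul]
      exact (ContinuousMap.norm_le _ (norm_nonneg x)).2 (fun k => abs_ev_le X x k))

theorem evL_apply (x : X) (k : DBall X) : evL X x k = k.1 x := rfl

end Pool.Agent.H66B
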