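import Pool.Agent.H66B.Gat
import Pool.Agent.H66B.DualK

/-!
# H66B/Bump: the bump function (imports Gat, DualK)

`K = DBall X`, `N x = V ρ (ev x) 0 univ`, `b x = (max (1/2 - N x) 0)^2`.

* `|N x - N y| ≤ 2 ‖x - y‖` (`V_lip`, `|ev x k - ev y k| = |k (x - y)| ≤ ‖x - y‖`), `N ≥ 0`
  (`V_nonneg`); for `N, N' ≥ 0`: `|max (1/2-N) 0 ^2 - max (1/2-N') 0 ^2| ≤ |N - N'|` (both maxima are
  in `[0,1/2]`).  So `b` is `2`-Lipschitz.
* `b 0 = 1/4`: `ev 0 = 0`, so `N 0 = V ρ 0 0 univ`; all `ph (0) = 0`.  `N 0 ≤ 0 + w 0 = 1/2` is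
  not enough; use `N 0 = 0`: `val ρ 0 (V ρ 0) s x = 0 + s P x` and `P x ≤ ph 0 = 0` by `PV_le`, so
  `S = 0` and the integral is `0` (`V_fix`, `Phi`).
* support: `b x ≠ 0 → N x < 1/2`; with `k` norming `x` (`exists_norming`)
  `ph ‖x‖ ≤ V ρ (ev x) 0 univ = N x < 1/2` (`le_V`), so `‖x‖² < 1` and `‖x‖ ≤ 1`: the support is
  contained in the closed unit ball.
* Gateaux differentiability: `gateaux hρ hsep (evL X x) 0 good_univ` gives `D`, and
  `L = D.comp (evL X)`; `evL (x + t • h) = evL x + t • evL h`, so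
  `HasDerivAt (fun t => N (x + t • h)) (D (evL h)) 0`; the outer function
  `u s = (max (1/2 - s) 0)^2` is differentiable with some derivative `u' (N x)` at `N x`
  (`HasDerivAt u (-2 * max (1/2 - s) 0) s`; it is `C¹`), so the chain rule
  (`HasDerivAt.comp`) gives the derivative `u' (N x) * D (evL h)`, i.e. `(u' (N x) • L) h`.
-/

set_option autoImplicit false

namespace Pool.Agent.H66B

open Set Filter Topology

/-- the outer function -/
private noncomputable def uu (s : ℝ) : ℝ := (max (1 / 2 - s) 0) ^ 2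

private theorem uu_deriv (s : ℝ) : HasDerivAt uu (-(2 * max (1 / 2 - s) 0)) s := by
  rcases lt_trichotomy s (1 / 2) with h | h | h
  · have h1 : HasDerivAt (fun s : ℝ => (1 / 2 - s) ^ 2) (2 * (1 / 2 - s) ^ 1 * (-1)) s := by
      have h2 : HasDerivAt (fun s : ℝ => 1 / 2 - s) (-1) s := by
        simpa using (hasDerivAt_id s).const_sub (1 / 2 : ℝ)
      exact h2.pow 2
    have h3 : -(2 * max (1 / 2 - s) 0) = 2 * (1 / 2 - s) ^ 1 * (-1) := by
      rw [max_eq_left (by linarith)]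
      ring
    rw [h3]
    refine h1.congr_of_eventuallyEq ?_
    filter_upwards [Iio_mem_nhds h] with y hy
    have hy' : y < 1 / 2 := hy
    unfold uu
    rw [max_eq_left (by linarith)]
  · have h3 : -(2 * max (1 / 2 - s) 0) = 0 := by
      rw [h]
      simp
    rw [h3, hasDerivAt_iff_isLittleO]
    refine Asymptotics.IsLittleO.of_bound fun c hc => ?_
    have h4 : ∀ᶠ y in 𝓝 s, |y - s| < c := by
      have := Metric.ball_mem_nhds s hc
      filter_upwards [this] with y hy
      rwa [Metric.mem_ball, Real.dist_eq] at hy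
    filter_upwards [h4] with y hy
    have h5 : uu s = 0 := by
      unfold uu
      rw [h]
      simp
    have h6 : |uu y| ≤ |y - s| ^ 2 := by
      unfold uu
      rw [abs_pow]
      refine pow_le_pow_left₀ (abs_nonneg _) ?_ 2
      rw [abs_of_nonneg (le_max_right _ _)]
      refine max_le ?_ (abs_nonneg _)
      rw [← h]
      have := neg_le_abs (y - s)
      linarith
    rw [h5, Real.norm_eq_abs, Real.norm_eq_abs, smul_zero, sub_zero, sub_zero]
    refine h6.trans ?_
    rw [pow_two]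
    exact mul_le_mul_of_nonneg_right hy.le (abs_nonneg _)
  · have h3 : -(2 * max (1 / 2 - s) 0) = 0 := by
      rw [max_eq_right (by linarith)]
      simp
    rw [h3]
    refine (hasDerivAt_const s (0 : ℝ)).congr_of_eventuallyEq ?_
    filter_upwards [Ioi_mem_nhds h] with y hy
    have hy' : 1 / 2 < y := hy
    unfold uu
    rw [max_eq_right (by linarith)]
    norm_num

private theorem uu_lip {a b : ℝ} (ha : 0 ≤ a) (hb : 0 ≤ b) : |uu a - uu b| ≤ |a - b| := by
  obtain ⟨p, hp⟩ : ∃ p, p = max (1 / 2 - a) 0 := ⟨_, rfl⟩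
  obtain ⟨q, hq⟩ : ∃ q, q = max (1 / 2 - b) 0 := ⟨_, rfl⟩
  have hp0 : 0 ≤ p := by rw [hp]; exact le_max_right _ _
  have hq0 : 0 ≤ q := by rw [hq]; exact le_max_right _ _
  have hp1 : p ≤ 1 / 2 := by rw [hp]; exact max_le (by linarith) (by norm_num)
  have hq1 : q ≤ 1 / 2 := by rw [hq]; exact max_le (by linarith) (by norm_num)
  have hpq : |p - q| ≤ |a - b| := by
    rw [hp, hq]
    refine (abs_max_sub_max_le_abs _ _ _).trans (le_of_eq ?_)
    rw [abs_sub_comm a b]
    congr 1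
    ring
  unfold uu
  rw [← hp, ← hq]
  have h1 : p ^ 2 - q ^ 2 = (p - q) * (p + q) := by ring
  rw [h1, abs_mul, abs_of_nonneg (show 0 ≤ p + q by linarith)]
  calc |p - q| * (p + q) ≤ |p - q| * 1 :=
        mul_le_mul_of_nonneg_left (by linarith) (abs_nonneg _)
    _ = |p - q| := mul_one _
    _ ≤ |a - b| := hpq

private theorem V_zero {K : Type} (ρ : ℕ → K → Ordinal.{0}) (f : K → ℝ) (hf : ∀ x, f x = 0)
    (m : ℕ) (C : Set K) : V ρ f m C = 0 := by
  have hval : ∀ s x, 0 ≤ s → val ρ f (V ρ f) s x ≤ 0 := by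
    intro s x hs
    unfold val
    have h1 := PV_le ρ f x
    rw [hf x, ph_zero] at h1
    rw [hf x, ph_zero, zero_add]
    exact mul_nonpos_of_nonneg_of_nonpos hs h1
  rw [V_fix]
  unfold Phi
  have h2 : ∀ t ∈ Set.uIcc (0 : ℝ) 1, S ρ f (V ρ f) C (w m * t) = 0 := by
    intro t ht
    rw [Set.uIcc_of_le zero_le_one] at ht
    have hs : 0 ≤ w m * t := mul_nonneg (w_pos m).le ht.1
    refine le_antisymm ?_ (S_nonneg ρ f (V ρ f) hs C)
    exact S_le ρ f (V ρ f) le_rfl fun x _ => hval _ x hs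
  rw [intervalIntegral.integral_congr (g := fun _ => (0 : ℝ)) h2]
  simp

theorem bump (X : Type) [NormedAddCommGroup X] [NormedSpace ℝ X]
    (ρ : ℕ → DBall X → Ordinal.{0}) (hρ : Lev ρ) (hsep : Sep ρ) :
    ∃ b : X → ℝ, (∃ K : NNReal, LipschitzWith K b) ∧
      Bornology.IsBounded (Function.support b) ∧ (∃ x : X, b x ≠ 0) ∧
      ∀ x : X, ∃ L : X →L[ℝ] ℝ, ∀ h : X,
        HasDerivAt (fun t : ℝ => b (x + t • h)) (L h) 0 := by
  obtain ⟨N, hN⟩ : ∃ N : X → ℝ, N = fun x => V ρ (⇑(evL X x)) 0 Set.univ := ⟨_, rfl⟩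
  have hN0 : ∀ x, 0 ≤ N x := by
    intro x
    rw [hN]
    exact V_nonneg _ _ _ _
  have hNlip : ∀ x y, |N x - N y| ≤ 2 * ‖x - y‖ := by
    intro x y
    rw [hN]
    refine V_lip ρ _ _ (norm_nonneg _) (fun k => ?_) 0 Set.univ
    have h1 := abs_ev_le X (x - y) k
    rw [ev_apply] at h1
    rw [evL_apply, evL_apply, ← map_sub]
    exact h1
  refine ⟨fun x => uu (N x), ⟨2, ?_⟩, ?_, ⟨0, ?_⟩, ?_⟩
  · refine LipschitzWith.of_dist_le_mul fun x y => ?_
    rw [Real.dist_eq, dist_eq_norm]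
    exact (uu_lip (hN0 x) (hN0 y)).trans (hNlip x y)
  · refine (Metric.isBounded_closedBall (x := (0 : X)) (r := 1)).subset ?_
    intro x hx
    rw [Function.mem_support] at hx
    rw [mem_closedBall_zero_iff]
    by_contra hcon
    push Not at hcon
    apply hx
    have h1 : 1 / 2 ≤ N x := by
      obtain ⟨k, hk⟩ := exists_norming X x
      have h2 := le_V ρ (⇑(evL X x)) (Set.mem_univ k) 0
      have h3 : evL X x k = ‖x‖ := hk
      rw [h3] at h2
      rw [hN]
      refine le_trans ?_ h2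
      unfold ph
      rw [le_div_iff₀ (by positivity)]
      nlinarith
    show (max (1 / 2 - N x) 0) ^ 2 = 0
    rw [max_eq_right (by linarith)]
    norm_num
  · have h1 : N 0 = 0 := by
      rw [hN]
      refine V_zero ρ _ (fun k => ?_) 0 Set.univ
      rw [map_zero]
      rfl
    show uu (N 0) ≠ 0
    rw [h1]
    unfold uu
    norm_num
  · intro x
    obtain ⟨D, hD⟩ := gateaux hρ hsep (evL X x) 0 (good_univ (ρ := ρ))
    refine ⟨(-(2 * max (1 / 2 - N x) 0)) • D.comp (evL X), fun h => ?_⟩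
    have h1 : HasDerivAt (fun t : ℝ => N (x + t • h)) (D (evL X h)) 0 := by
      have h2 := hD (evL X h)
      have h3 : (fun t : ℝ => V ρ (⇑(evL X x + t • evL X h)) 0 Set.univ) =
          fun t : ℝ => N (x + t • h) := by
        funext t
        rw [hN]
        show _ = V ρ (⇑(evL X (x + t • h))) 0 Set.univ
        rw [map_add, map_smul]
      rw [h3] at h2
      exact h2
    have h4 : HasDerivAt uu (-(2 * max (1 / 2 - N x) 0)) (N (x + (0 : ℝ) • h)) := by
      rw [zero_smul, add_zero]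
      exact uu_deriv _
    have h5 := HasDerivAt.comp (0 : ℝ) h4 h1
    exact h5

end Pool.Agent.H66B
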