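import Pool.Agent.H66B.Index

/-!
# H66B/ClaimA: a maximizer of `val` beats everything after it (imports Index)

Write `a = ph ∘ f`, `v = V ρ f`, `term i x = th (a x - v i (T (nu i) x))`.
Let `x` maximize `val s = a + s P` over the good set `C`, `s > 0`, and `a > 0` somewhere on `C`.

* `a x > 0`: otherwise `a x = 0` and `P x ≤ a x = 0` (`PV_le`), so `val s x ≤ 0`; but
  `val s y ≥ a y > 0` for some `y ∈ C`.
* Suppose some `n` is *bad*: there is `y ∈ T n x` with `a x ≤ a y`.  Take the least bad `n`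
  (`Nat.find`).  `T n x` is compact and nonempty; let `α = max a` on it, so `α ≥ a x > 0`, and
  `A = {y ∈ T n x | a y = α}` (compact, nonempty).  By `exists_last` there is `z ∈ A` such that no
  `y ∈ A` satisfies `lt n z y`.  `z ∈ C` since `C` is good.  Claim `val s z > val s x`:
  - `a z = α ≥ a x`.
  - if `nu i < n`: `z ∈ T (nu i) x` is impossible (`nu i` is not bad and `a z ≥ a x`), so
    `T (nu i) z = T (nu i) x` by `mem_T_cases`, and `term i z ≥ term i x` (`th_mono`).
  - if `nu i ≥ n`: `z ∈ T n x ⊆ T (nu i) x` (`T_mono`), so `v i (T (nu i) x) ≥ a z ≥ a x` (`le_V`)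
    and `term i x = 0 ≤ term i z`.
  - for `y ∈ T n z`: `y ∈ T n x` (`lt_trans'`), so `a y ≤ α`, and `a y ≠ α` by the choice of `z`;
    hence `a y < a z`.  By `exists_index` there is `i` with `nu i = n` and
    `v i (T n z) < a z`, so `term i z > 0 = term i x`.
  Hence `P z > P x` (`Summable.tsum_lt_tsum`), and `val s z > val s x`, contradiction.
-/

set_option autoImplicit false

namespace Pool.Agent.H66B

open Set Filter Topology

theorem claimA {K : Type} [TopologicalSpace K] [CompactSpace K] {ρ : ℕ → K → Ordinal.{0}}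
    {f : K → ℝ} (hρ : Lev ρ) (hf : Continuous f) {C : Set K} (hC : Good ρ C) {s : ℝ}
    (hs : 0 < s) {x : K} (hx : x ∈ C)
    (hmax : ∀ y ∈ C, val ρ f (V ρ f) s y ≤ val ρ f (V ρ f) s x)
    (hpos : ∃ y ∈ C, 0 < ph (f y)) :
    0 < ph (f x) ∧ ∀ n, ∀ y ∈ T ρ n x, ph (f y) < ph (f x) := by
  classical
  have hx0 : 0 < ph (f x) := by
    obtain ⟨y, hyC, hy⟩ := hpos
    by_contra hcon
    have h0 : ph (f x) = 0 := le_antisymm (not_lt.1 hcon) (ph_nonneg _)
    have h1 := hmax y hyC
    unfold val at h1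
    have h2 := PV_le ρ f x
    have h3 := P_nonneg ρ f (V ρ f) y
    have h4 := P_nonneg ρ f (V ρ f) x
    nlinarith [mul_nonneg hs.le h3]
  refine ⟨hx0, ?_⟩
  by_contra hcon
  push Not at hcon
  have hmin : ∀ k < Nat.find hcon, ∀ y ∈ T ρ k x, ph (f y) < ph (f x) := by
    intro k hk
    have := Nat.find_min hcon hk
    push Not at this
    exact this
  obtain ⟨y0, hy0, hay0⟩ := Nat.find_spec hcon
  set n := Nat.find hcon with hn
  have hTc : IsCompact (T ρ n x) := (isClosed_T hρ n x).isCompact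
  have hac : Continuous (fun x => ph (f x)) := continuous_ph.comp hf
  obtain ⟨y1, hy1, hy1max⟩ := hTc.exists_isMaxOn ⟨y0, hy0⟩ hac.continuousOn
  have hy1max' : ∀ y ∈ T ρ n x, ph (f y) ≤ ph (f y1) := fun y hy => hy1max hy
  have hAc : IsCompact (T ρ n x ∩ {y | ph (f y) = ph (f y1)}) :=
    hTc.inter_right (isClosed_eq hac continuous_const)
  obtain ⟨z, ⟨hzT, hza⟩, hzlast⟩ := exists_last hρ n hAc ⟨y1, hy1, rfl⟩
  have hza : ph (f z) = ph (f y1) := hza
  have hzx : ph (f x) ≤ ph (f z) := by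
    rw [hza]
    exact hay0.trans (hy1max' y0 hy0)
  have hzC : z ∈ C := hC.2 x hx n hzT
  have hbig : ∀ i, n ≤ nu i → term ρ f (V ρ f) i x = 0 := by
    intro i hi
    have h1 : z ∈ T ρ (nu i) x := T_mono hi x hzT
    have h2 := le_V ρ f h1 i
    exact th_zero (by linarith)
  have hterm : ∀ i, term ρ f (V ρ f) i x ≤ term ρ f (V ρ f) i z := by
    intro i
    rcases lt_or_ge (nu i) n with hi | hi
    · rcases mem_T_cases hzT (nu i) with h1 | h1
      · exact absurd (hmin (nu i) hi z h1) (not_lt.2 hzx)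
      · unfold term
        rw [h1]
        exact th_mono (by linarith)
    · rw [hbig i hi]
      exact term_nonneg ρ f (V ρ f) i z
  have hlow : ∀ y ∈ T ρ n z, ph (f y) < ph (f z) := by
    intro y hy
    have h1 : y ∈ T ρ n x := lt_trans' (show lt ρ n x z from hzT) (show lt ρ n z y from hy)
    refine lt_of_le_of_ne ?_ fun h2 => ?_
    · rw [hza]
      exact hy1max' y h1
    · exact hzlast y ⟨h1, h2.trans hza⟩ hy
  obtain ⟨i0, hi0, hV⟩ := exists_index hρ hf n (hx0.trans_le hzx) hlow
  have hstrict : term ρ f (V ρ f) i0 x < term ρ f (V ρ f) i0 z := by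
    rw [hbig i0 hi0.ge]
    unfold term
    rw [hi0]
    exact th_pos (by linarith)
  have hP : P ρ f (V ρ f) x < P ρ f (V ρ f) z := by
    unfold P
    refine Summable.tsum_lt_tsum (i := i0) (fun i => ?_) ?_ (summable_term ρ f _ x)
      (summable_term ρ f _ z)
    · exact mul_le_mul_of_nonneg_left (hterm i) (w_pos i).le
    · exact mul_lt_mul_of_pos_left hstrict (w_pos i0)
  have h1 := hmax z hzC
  unfold val at h1
  nlinarith [mul_lt_mul_of_pos_left hP hs]

end Pool.Agent.H66B
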