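import Mathlib

/-!
# H66B: Lipschitz Gateaux smooth bumps from fragmentability (MP_539630_an): definitions

`K` is a compact space (later: the dual unit ball with the topology of pointwise convergence)
with ordinal valued functions `ρ n : K → Ordinal` (`n : ℕ`) such that all sets
`{x | ρ n x ≤ ξ}` are open (`Lev`) and the sequence `(ρ n x)_n` determines `x` (`Sep`).

* `lt ρ n x y`: the first `n` coordinates of `x` are lexicographically strictly before those of
  `y`; `T ρ n x` is the set of all `y` with `lt ρ n x y`.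
* `Good ρ C`: `C` is closed and `T ρ n x ⊆ C` for all `x ∈ C` and all `n`.
* `ph y = y²/(1+y²)`, `th s = ph (max s 0)`.
* for a function `f : K → ℝ` (not necessarily continuous) and weights `w i = 2^-(i+1)`, the
  function `V ρ f : ℕ → Set K → ℝ` is a solution (it exists and is unique, module `Fix`) of the
  self-referential equation
  `V m C = ∫ t in 0..1, ⨆ x : C, (ph (f x) + (w m * t) * PV x)`,
  `PV x = ∑' i, w i * th (ph (f x) - V i (T ρ (nu i) x))`,
  where `nu : ℕ → ℕ` takes every value infinitely often.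
-/

set_option autoImplicit false

namespace Pool.Agent.H66B

open Set Filter Topology

/-- lexicographic comparison of the first `n` coordinates -/
def lt {K : Type} (ρ : ℕ → K → Ordinal.{0}) (n : ℕ) (x y : K) : Prop :=
  ∃ k < n, (∀ i < k, ρ i x = ρ i y) ∧ ρ k x < ρ k y

/-- the set of points after `x` -/
def T {K : Type} (ρ : ℕ → K → Ordinal.{0}) (n : ℕ) (x : K) : Set K := {y | lt ρ n x y}

/-- closed sets that are closed upwards -/
def Good {K : Type} [TopologicalSpace K] (ρ : ℕ → K → Ordinal.{0}) (C : Set K) : Prop :=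
  IsClosed C ∧ ∀ x ∈ C, ∀ n, T ρ n x ⊆ C

/-- all level sets `{x | ρ n x ≤ ξ}` are open -/
def Lev {K : Type} [TopologicalSpace K] (ρ : ℕ → K → Ordinal.{0}) : Prop :=
  ∀ n ξ, IsOpen {x | ρ n x ≤ ξ}

/-- the functions `ρ n` separate points -/
def Sep {K : Type} (ρ : ℕ → K → Ordinal.{0}) : Prop :=
  ∀ x y, (∀ n, ρ n x = ρ n y) → x = y

/-- the weights `2^-(i+1)` -/
noncomputable def w (i : ℕ) : ℝ := (1 / 2 : ℝ) ^ (i + 1)

/-- a function that takes every value infinitely often -/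
def nu (i : ℕ) : ℕ := (Nat.unpair i).1

/-- `y²/(1+y²)` -/
noncomputable def ph (y : ℝ) : ℝ := y ^ 2 / (1 + y ^ 2)

/-- `ph` of the positive part -/
noncomputable def th (s : ℝ) : ℝ := ph (max s 0)

/-- the derivative of `ph` -/
noncomputable def dph (y : ℝ) : ℝ := 2 * y / (1 + y ^ 2) ^ 2

/-- the derivative of `th` -/
noncomputable def dth (s : ℝ) : ℝ := dph (max s 0)

/-- the terms of `P` -/
noncomputable def term {K : Type} (ρ : ℕ → K → Ordinal.{0}) (f : K → ℝ) (v : ℕ → Set K → ℝ)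
    (i : ℕ) (x : K) : ℝ :=
  th (ph (f x) - v i (T ρ (nu i) x))

/-- the penalty function -/
noncomputable def P {K : Type} (ρ : ℕ → K → Ordinal.{0}) (f : K → ℝ) (v : ℕ → Set K → ℝ)
    (x : K) : ℝ :=
  ∑' i, w i * term ρ f v i x

/-- the function that is maximized -/
noncomputable def val {K : Type} (ρ : ℕ → K → Ordinal.{0}) (f : K → ℝ) (v : ℕ → Set K → ℝ)
    (s : ℝ) (x : K) : ℝ :=
  ph (f x) + s * P ρ f v x

/-- the supremum over `C` -/
noncomputable def S {K : Type} (ρ : ℕ → K → Ordinal.{0}) (f : K → ℝ) (v : ℕ → Set K → ℝ)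
    (C : Set K) (s : ℝ) : ℝ :=
  ⨆ x : C, val ρ f v s x

/-- the operator whose fixed point is `V` -/
noncomputable def Phi {K : Type} (ρ : ℕ → K → Ordinal.{0}) (f : K → ℝ) (v : ℕ → Set K → ℝ)
    (m : ℕ) (C : Set K) : ℝ :=
  ∫ t in (0 : ℝ)..1, S ρ f v C (w m * t)

open Classical in
/-- the fixed point -/
noncomputable def V {K : Type} (ρ : ℕ → K → Ordinal.{0}) (f : K → ℝ) : ℕ → Set K → ℝ :=
  if h : ∃ v : ℕ → Set K → ℝ, ∀ m C, v m C = Phi ρ f v m C then Classical.choose h
  else fun _ _ => 0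

/-- `x` is the unique maximizer over `C` of `val` (for the fixed point `V ρ f`) -/
def UniqMax {K : Type} (ρ : ℕ → K → Ordinal.{0}) (f : K → ℝ) (C : Set K) (s : ℝ) (x : K) : Prop :=
  x ∈ C ∧ (∀ y ∈ C, val ρ f (V ρ f) s y ≤ val ρ f (V ρ f) s x) ∧
    ∀ y ∈ C, val ρ f (V ρ f) s y = val ρ f (V ρ f) s x → y = x

/-- a two-sided perturbation of `f` along a filter: `y k - z k = h k * g k` with bounded `g k`,
`y k → f` and `z k → f` uniformly, and `g k` is asymptotically continuous along sequences that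
converge in `K` and in all coordinates `ρ i` -/
structure Pert {K ι : Type} [TopologicalSpace K] (ρ : ℕ → K → Ordinal.{0}) (f : K → ℝ)
    (F : Filter ι) (y z g : ι → K → ℝ) (h δ : ι → ℝ) (B : ℝ) : Prop where
  cy : ∀ k, Continuous (y k)
  cz : ∀ k, Continuous (z k)
  hne : ∀ k, h k ≠ 0
  sub : ∀ k x, y k x - z k x = h k * g k x
  gB : ∀ k x, |g k x| ≤ B
  dpos : ∀ k, 0 ≤ δ k
  dy : ∀ k x, |y k x - f x| ≤ δ k
  dz : ∀ k x, |z k x - f x| ≤ δ k
  d0 : Tendsto δ F (𝓝 0)
  stab : ∀ (x0 : K) (xs : ι → K), Tendsto xs F (𝓝 x0) →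
    (∀ i, ∀ᶠ k in F, ρ i (xs k) = ρ i x0) → Tendsto (fun k => g k (xs k) - g k x0) F (𝓝 0)

/-- the first order expansion of the difference quotient of `val` (and of `S`) at `x0` -/
noncomputable def Lin {K : Type} (ρ : ℕ → K → Ordinal.{0}) (f : K → ℝ) (s : ℝ) (x0 : K)
    (g y z : K → ℝ) (h : ℝ) : ℝ :=
  dph (f x0) * g x0 + s * ∑' i, w i * (dth (ph (f x0) - V ρ f i (T ρ (nu i) x0)) *
    (dph (f x0) * g x0 - (V ρ y i (T ρ (nu i) x0) - V ρ z i (T ρ (nu i) x0)) / h))

/-- a linear combination of difference quotients of `V` -/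
noncomputable def EE {K ι L : Type} [Fintype L] (ρ : ℕ → K → Ordinal.{0}) (c : L → ℝ)
    (y z : L → ι → K → ℝ) (h : L → ι → ℝ) (m : ℕ) (C : Set K) (k : ι) : ℝ :=
  ∑ l, c l * ((V ρ (y l k) m C - V ρ (z l k) m C) / h l k)

/-- all `EE m C k` are asymptotically at most `R` -/
def Bd {K ι L : Type} [TopologicalSpace K] [Fintype L] (ρ : ℕ → K → Ordinal.{0}) (F : Filter ι)
    (c : L → ℝ) (y z : L → ι → K → ℝ) (h : L → ι → ℝ) (R : ℝ) : Prop :=
  ∀ m, ∀ C, Good ρ C → ∀ η > 0, ∀ᶠ k in F, |EE ρ c y z h m C k| ≤ R + η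

end Pool.Agent.H66B
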