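import Pool.Agent.H66B.Fun

/-!
# H66B/Quot: difference quotients of strictly differentiable functions (imports Fun)

`HasStrictDerivAt φ d y0` means `φ a - φ b - d (a - b) = o(a - b)` as `(a, b) → (y0, y0)`
(`HasStrictDerivAt`, `hasStrictDerivAt_iff_isLittleO` / `.isLittleO`).  For `ε > 0` eventually
`|φ (a k) - φ (b k) - d (a k - b k)| ≤ ε |a k - b k| ≤ ε c |h k|`; divide by `|h k| > 0`.
-/

set_option autoImplicit false

namespace Pool.Agent.H66B

open Set Filter Topology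

theorem quot_tendsto {φ : ℝ → ℝ} {d y0 : ℝ} (hφ : HasStrictDerivAt φ d y0) {ι : Type}
    {F : Filter ι} {a b h : ι → ℝ} {c : ℝ} (ha : Tendsto a F (𝓝 y0)) (hb : Tendsto b F (𝓝 y0))
    (hh : ∀ k, h k ≠ 0) (hc : ∀ k, |a k - b k| ≤ c * |h k|) :
    Tendsto (fun k => (φ (a k) - φ (b k)) / h k - d * ((a k - b k) / h k)) F (𝓝 0) := by
  have hO := hasStrictFDerivAt_iff_isLittleO.1 hφ.hasStrictFDerivAt
  have hab : Tendsto (fun k => (a k, b k)) F (𝓝 (y0, y0)) := ha.prodMk_nhds hb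
  rw [Metric.tendsto_nhds]
  intro ε hε
  have hc0 : 0 < |c| + 1 := by positivity
  have h1 := hab.eventually (hO.def (div_pos hε hc0))
  filter_upwards [h1] with k hk
  simp only [Real.norm_eq_abs, ContinuousLinearMap.toSpanSingleton_apply, smul_eq_mul] at hk
  have hhk : 0 < |h k| := abs_pos.2 (hh k)
  rw [Real.dist_eq, sub_zero]
  have h2 : (φ (a k) - φ (b k)) / h k - d * ((a k - b k) / h k) =
      (φ (a k) - φ (b k) - (a k - b k) * d) / h k := by
    have := hh k
    field_simp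
  rw [h2, abs_div, div_lt_iff₀ hhk]
  have h3 : |a k - b k| ≤ |c| * |h k| :=
    (hc k).trans (mul_le_mul_of_nonneg_right (le_abs_self c) hhk.le)
  have h4 : ε / (|c| + 1) * |a k - b k| ≤ ε / (|c| + 1) * (|c| * |h k|) :=
    mul_le_mul_of_nonneg_left h3 (div_pos hε hc0).le
  have h5 : ε / (|c| + 1) * (|c| * |h k|) < ε * |h k| := by
    rw [← mul_assoc]
    refine mul_lt_mul_of_pos_right ?_ hhk
    rw [div_mul_eq_mul_div, div_lt_iff₀ hc0]
    nlinarith [abs_nonneg c]
  linarith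

end Pool.Agent.H66B
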