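import Pool.Agent.H66B.VProp
import Pool.Agent.H66B.Quot

/-!
# H66B/ExpA: expansion of `ph ∘ y k - ph ∘ z k` and of the single terms (imports VProp, Quot)

`hP : Pert ρ f F y z g h δ B`, `xs → x0` and `ρ i (xs k) = ρ i x0` eventually for every `i`.

* `y_tendsto`: `|y k (xs k) - f x0| ≤ δ k + |f (xs k) - f x0| → 0`; the same for `z`.
* `head`: `quot_tendsto` for `ph_strict (f x0)` with `a k = y k (xs k)`, `b k = z k (xs k)`,
  `a k - b k = h k * g k (xs k)`, `c = |B|`; so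
  `(ph (a k) - ph (b k)) / h k - dph (f x0) * g k (xs k) → 0`, and
  `g k (xs k) - g k x0 → 0` by `hP.stab`.
* `V_tendsto`: `|V ρ (y k) m C - V ρ f m C| ≤ 2 δ k` (`V_lip`).
* `V_quot_le`: `|V ρ (y k) m C - V ρ (z k) m C| ≤ 2 (|h k| B)`, so the quotient is `≤ 2 B` in
  absolute value.
* `body`: eventually `T ρ (nu i) (xs k) = T ρ (nu i) x0 =: Ti` (`T_congr`, finitely many
  coordinates).  With `a k = ph (y k (xs k)) - V ρ (y k) i Ti`,
  `b k = ph (z k (xs k)) - V ρ (z k) i Ti`, both tend to `ph (f x0) - V ρ f i Ti`,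
  `|a k - b k| ≤ 3 B |h k|` and `quot_tendsto` with `th_strict` gives the expansion with
  `(a k - b k) / h k = (ph (y k (xs k)) - ph (z k (xs k))) / h k - (V .. - V ..) / h k`; now use
  `head` (multiplied by the constant `dth (..)`).
-/

set_option autoImplicit false

namespace Pool.Agent.H66B

open Set Filter Topology

variable {K : Type} [TopologicalSpace K] {ρ : ℕ → K → Ordinal.{0}} {f : K → ℝ} {ι : Type}
  {F : Filter ι} {y z g : ι → K → ℝ} {h δ : ι → ℝ} {B : ℝ}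

theorem expA_T_congr {K : Type} (ρ : ℕ → K → Ordinal.{0}) (n : ℕ) {x x' : K} (h : ∀ i < n, ρ i x = ρ i x') :
    T ρ n x = T ρ n x' := by
  ext y
  simp only [T, lt, mem_ofPred_eq]
  constructor
  · rintro ⟨k, hk, h1, h2⟩
    refine ⟨k, hk, fun i hi => ?_, ?_⟩
    · rw [← h i (hi.trans hk)]; exact h1 i hi
    · rw [← h k hk]; exact h2
  · rintro ⟨k, hk, h1, h2⟩
    refine ⟨k, hk, fun i hi => ?_, ?_⟩
    · rw [h i (hi.trans hk)]; exact h1 i hi
    · rw [h k hk]; exact h2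

theorem expA_y_tendsto {F : Filter ι} {u : ι → K → ℝ} (hd : ∀ k x, |u k x - f x| ≤ δ k)
    (h0 : Tendsto δ F (𝓝 0)) (hf : Continuous f) {x0 : K} {xs : ι → K}
    (hx : Tendsto xs F (𝓝 x0)) : Tendsto (fun k => u k (xs k)) F (𝓝 (f x0)) := by
  have h1 : Tendsto (fun k => u k (xs k) - f (xs k)) F (𝓝 0) :=
    squeeze_zero_norm (fun k => by rw [Real.norm_eq_abs]; exact hd k (xs k)) h0
  have h2 : Tendsto (fun k => f (xs k)) F (𝓝 (f x0)) := (hf.tendsto x0).comp hx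
  have h3 := h1.add h2
  simpa using h3

theorem y_tendsto (hP : Pert ρ f F y z g h δ B) (hf : Continuous f) {x0 : K} {xs : ι → K}
    (hx : Tendsto xs F (𝓝 x0)) :
    Tendsto (fun k => y k (xs k)) F (𝓝 (f x0)) ∧ Tendsto (fun k => z k (xs k)) F (𝓝 (f x0)) :=
  ⟨expA_y_tendsto hP.dy hP.d0 hf hx, expA_y_tendsto hP.dz hP.d0 hf hx⟩

theorem expA_V_tendsto {F : Filter ι} {u : ι → K → ℝ} (hpos : ∀ k, 0 ≤ δ k) (hd : ∀ k x, |u k x - f x| ≤ δ k)
    (h0 : Tendsto δ F (𝓝 0)) (m : ℕ) (C : Set K) :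
    Tendsto (fun k => V ρ (u k) m C) F (𝓝 (V ρ f m C)) := by
  have h1 : Tendsto (fun k => V ρ (u k) m C - V ρ f m C) F (𝓝 0) := by
    refine squeeze_zero_norm (a := fun k => 2 * δ k) (fun k => ?_) ?_
    · rw [Real.norm_eq_abs]
      exact V_lip ρ (u k) f (hpos k) (hd k) m C
    · simpa using h0.const_mul 2
  have h2 := h1.add_const (V ρ f m C)
  simpa using h2

theorem V_tendsto (hP : Pert ρ f F y z g h δ B) (m : ℕ) (C : Set K) :
    Tendsto (fun k => V ρ (y k) m C) F (𝓝 (V ρ f m C)) ∧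
      Tendsto (fun k => V ρ (z k) m C) F (𝓝 (V ρ f m C)) :=
  ⟨expA_V_tendsto hP.dpos hP.dy hP.d0 m C, expA_V_tendsto hP.dpos hP.dz hP.d0 m C⟩

theorem expA_V_diff (hP : Pert ρ f F y z g h δ B) (hB : 0 ≤ B) (m : ℕ) (C : Set K) (k : ι) :
    |V ρ (y k) m C - V ρ (z k) m C| ≤ 2 * (|h k| * B) := by
  refine V_lip ρ (y k) (z k) (by positivity) (fun x => ?_) m C
  rw [hP.sub k x, abs_mul]
  exact mul_le_mul_of_nonneg_left (hP.gB k x) (abs_nonneg _)

theorem V_quot_le (hP : Pert ρ f F y z g h δ B) (hB : 0 ≤ B) (m : ℕ) (C : Set K) (k : ι) :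
    |(V ρ (y k) m C - V ρ (z k) m C) / h k| ≤ 2 * B := by
  have hh : 0 < |h k| := abs_pos.mpr (hP.hne k)
  rw [abs_div, div_le_iff₀ hh]
  calc _ ≤ 2 * (|h k| * B) := expA_V_diff hP hB m C k
    _ = 2 * B * |h k| := by ring

theorem head (hP : Pert ρ f F y z g h δ B) (hf : Continuous f) {x0 : K} {xs : ι → K}
    (hx : Tendsto xs F (𝓝 x0)) (hρx : ∀ i, ∀ᶠ k in F, ρ i (xs k) = ρ i x0) :
    Tendsto (fun k => (ph (y k (xs k)) - ph (z k (xs k))) / h k - dph (f x0) * g k x0)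
      F (𝓝 0) := by
  obtain ⟨hy, hz⟩ := y_tendsto hP hf hx
  have h1 := quot_tendsto (ph_strict (f x0)) (c := |B|) hy hz hP.hne (fun k => by
    rw [hP.sub k, abs_mul, mul_comm]
    exact mul_le_mul_of_nonneg_right ((hP.gB k _).trans (le_abs_self B)) (abs_nonneg _))
  have h2 : Tendsto (fun k => dph (f x0) * (g k (xs k) - g k x0)) F (𝓝 0) := by
    simpa using (hP.stab x0 xs hx hρx).const_mul (dph (f x0))
  have h3 := h1.add h2
  rw [add_zero] at h3
  refine h3.congr fun k => ?_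
  rw [hP.sub k, mul_div_cancel_left₀ _ (hP.hne k)]
  ring

theorem body (hP : Pert ρ f F y z g h δ B) (hB : 0 ≤ B) (hf : Continuous f) {x0 : K}
    {xs : ι → K} (hx : Tendsto xs F (𝓝 x0)) (hρx : ∀ i, ∀ᶠ k in F, ρ i (xs k) = ρ i x0)
    (i : ℕ) :
    Tendsto (fun k => (term ρ (y k) (V ρ (y k)) i (xs k) - term ρ (z k) (V ρ (z k)) i (xs k))
        / h k - dth (ph (f x0) - V ρ f i (T ρ (nu i) x0)) *
          (dph (f x0) * g k x0
            - (V ρ (y k) i (T ρ (nu i) x0) - V ρ (z k) i (T ρ (nu i) x0)) / h k))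
      F (𝓝 0) := by
  obtain ⟨hy, hz⟩ := y_tendsto hP hf hx
  obtain ⟨hVy, hVz⟩ := V_tendsto hP i (T ρ (nu i) x0)
  have hT : ∀ᶠ k in F, T ρ (nu i) (xs k) = T ρ (nu i) x0 := by
    have : ∀ᶠ k in F, ∀ j ∈ Finset.range (nu i), ρ j (xs k) = ρ j x0 := by
      rw [Filter.eventually_all_finset]
      intro j _
      exact hρx j
    filter_upwards [this] with k hk
    exact expA_T_congr ρ (nu i) (fun j hj => hk j (Finset.mem_range.mpr hj))
  have ha := ((continuous_ph.tendsto (f x0)).comp hy).sub hVy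
  have hb := ((continuous_ph.tendsto (f x0)).comp hz).sub hVz
  have h1 := quot_tendsto (th_strict (ph (f x0) - V ρ f i (T ρ (nu i) x0))) (c := 3 * B) ha hb hP.hne (fun k => by
    have e1 : |ph (y k (xs k)) - ph (z k (xs k))| ≤ |h k| * B := by
      refine (ph_lip _ _).trans ?_
      rw [hP.sub k, abs_mul]
      exact mul_le_mul_of_nonneg_left (hP.gB k _) (abs_nonneg _)
    have e2 := expA_V_diff hP hB i (T ρ (nu i) x0) k
    simp only [Function.comp_apply]
    calc |ph (y k (xs k)) - V ρ (y k) i (T ρ (nu i) x0) - (ph (z k (xs k)) - V ρ (z k) i (T ρ (nu i) x0))|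
        = |(ph (y k (xs k)) - ph (z k (xs k))) - (V ρ (y k) i (T ρ (nu i) x0) - V ρ (z k) i (T ρ (nu i) x0))| := by
          congr 1; ring
      _ ≤ |ph (y k (xs k)) - ph (z k (xs k))| + |V ρ (y k) i (T ρ (nu i) x0) - V ρ (z k) i (T ρ (nu i) x0)| :=
          abs_sub _ _
      _ ≤ |h k| * B + 2 * (|h k| * B) := add_le_add e1 e2
      _ = 3 * B * |h k| := by ring)
  have h2 : Tendsto (fun k => dth (ph (f x0) - V ρ f i (T ρ (nu i) x0)) *
      ((ph (y k (xs k)) - ph (z k (xs k))) / h k - dph (f x0) * g k x0)) F (𝓝 0) := by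
    simpa using (head hP hf hx hρx).const_mul (dth (ph (f x0) - V ρ f i (T ρ (nu i) x0)))
  have h3 := h1.add h2
  rw [add_zero] at h3
  refine h3.congr' ?_
  filter_upwards [hT] with k hk
  simp only [Function.comp_apply, term, hk]
  ring

end Pool.Agent.H66B
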