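import Pool.Agent.H66B.ExpA

/-!
# H66B/ExpB: expansion of `val` along stable sequences (imports ExpA)

`(val (y k) (xs k) - val (z k) (xs k)) / h k - Lin .. =`
`  [(ph .. - ph ..)/h k - dph (f x0) g k x0] + s ∑' w i * r i k`, where `r i k` is the expression
of `body`.  (All series are summable: the terms are bounded times `w i`.)  `r i k → 0` for each `i`
(`body`) and `|r i k| ≤ 6 B`: `|term - term| / |h k| ≤ 3 B` by `term_lip` with
`e = |h k| * B` (here `|y k x - z k x| ≤ |h k| B`), `0 ≤ dth ≤ 1`, `|dph| ≤ 1`, `|g| ≤ B`,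
`V_quot_le`.  So `∑' w i r i k → 0` by `tendsto_tsum_of_dominated_convergence` with the bound
`6 B w i`.
-/

set_option autoImplicit false

namespace Pool.Agent.H66B

open Set Filter Topology

theorem exp_seq {K : Type} [TopologicalSpace K] {ρ : ℕ → K → Ordinal.{0}} {f : K → ℝ} {ι : Type}
    {F : Filter ι} {y z g : ι → K → ℝ} {h δ : ι → ℝ} {B : ℝ} (hP : Pert ρ f F y z g h δ B)
    (hB : 0 ≤ B) (hf : Continuous f) {x0 : K} {xs : ι → K}
    (hx : Tendsto xs F (𝓝 x0)) (hρx : ∀ i, ∀ᶠ k in F, ρ i (xs k) = ρ i x0) (s : ℝ) :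
    Tendsto (fun k => (val ρ (y k) (V ρ (y k)) s (xs k) - val ρ (z k) (V ρ (z k)) s (xs k)) / h k
      - Lin ρ f s x0 (g k) (y k) (z k) (h k)) F (𝓝 0) := by
  set Ti : ℕ → Set K := fun i => T ρ (nu i) x0 with hTi
  set θ : ℕ → ℝ := fun i => dth (ph (f x0) - V ρ f i (Ti i)) with hθ
  set q : ι → ℕ → ℝ := fun k i => (V ρ (y k) i (Ti i) - V ρ (z k) i (Ti i)) / h k with hq
  set A : ι → ℝ := fun k => dph (f x0) * g k x0 with hA
  set ty : ι → ℕ → ℝ := fun k i => term ρ (y k) (V ρ (y k)) i (xs k) with hty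
  set tz : ι → ℕ → ℝ := fun k i => term ρ (z k) (V ρ (z k)) i (xs k) with htz
  set r : ι → ℕ → ℝ := fun k i => (ty k i - tz k i) / h k - θ i * (A k - q k i) with hr
  have hθ0 : ∀ i, 0 ≤ θ i := fun i => dth_nonneg _
  have hθ1 : ∀ i, θ i ≤ 1 := fun i => dth_le_one _
  have hqB : ∀ k i, |q k i| ≤ 2 * B := fun k i => V_quot_le hP hB i (Ti i) k
  have hAB : ∀ k, |A k| ≤ B := by
    intro k
    rw [hA]
    simp only
    rw [abs_mul]
    calc |dph (f x0)| * |g k x0| ≤ 1 * B :=
          mul_le_mul (abs_dph_le _) (hP.gB k x0) (abs_nonneg _) zero_le_one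
      _ = B := one_mul B
  have hc3 : ∀ k i, |θ i * (A k - q k i)| ≤ 3 * B := by
    intro k i
    rw [abs_mul, abs_of_nonneg (hθ0 i)]
    have h1 : |A k - q k i| ≤ 3 * B := by
      refine (abs_sub _ _).trans ?_
      linarith [hAB k, hqB k i]
    calc θ i * |A k - q k i| ≤ 1 * (3 * B) :=
          mul_le_mul (hθ1 i) h1 (abs_nonneg _) zero_le_one
      _ = 3 * B := one_mul _
  have ht3 : ∀ k i, |(ty k i - tz k i) / h k| ≤ 3 * B := by
    intro k i
    have hh : 0 < |h k| := abs_pos.2 (hP.hne k)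
    have h1 : |ty k i - tz k i| ≤ 3 * (|h k| * B) := by
      refine term_lip ρ (y k) (z k) (mul_nonneg hh.le hB) (fun x => ?_) i (xs k)
      rw [hP.sub k x, abs_mul]
      exact mul_le_mul_of_nonneg_left (hP.gB k x) hh.le
    rw [abs_div, div_le_iff₀ hh]
    linarith
  have hrB : ∀ k i, ‖w i * r k i‖ ≤ w i * (6 * B) := by
    intro k i
    rw [Real.norm_eq_abs, abs_mul, abs_of_pos (w_pos i)]
    refine mul_le_mul_of_nonneg_left ?_ (w_pos i).le
    refine (abs_sub _ _).trans ?_
    linarith [hc3 k i, ht3 k i]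
  have hsc : ∀ k, Summable (fun i => w i * (θ i * (A k - q k i))) := by
    intro k
    refine Summable.of_norm_bounded (summable_w.mul_right (3 * B)) (fun i => ?_)
    rw [Real.norm_eq_abs, abs_mul, abs_of_pos (w_pos i)]
    exact mul_le_mul_of_nonneg_left (hc3 k i) (w_pos i).le
  have hsy : ∀ k, Summable (fun i => w i * ty k i) := fun k => summable_term ρ (y k) (V ρ (y k)) (xs k)
  have hsz : ∀ k, Summable (fun i => w i * tz k i) := fun k => summable_term ρ (z k) (V ρ (z k)) (xs k)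
  have hsum : ∀ k, ∑' i, w i * r k i =
      (P ρ (y k) (V ρ (y k)) (xs k) - P ρ (z k) (V ρ (z k)) (xs k)) / h k -
        ∑' i, w i * (θ i * (A k - q k i)) := by
    intro k
    have h1 : (P ρ (y k) (V ρ (y k)) (xs k) - P ρ (z k) (V ρ (z k)) (xs k)) / h k =
        ∑' i, (w i * ty k i - w i * tz k i) / h k := by
      rw [tsum_div_const, (hsy k).tsum_sub (hsz k)]
      rfl
    rw [h1, ← Summable.tsum_sub (((hsy k).sub (hsz k)).div_const (h k)) (hsc k)]
    refine tsum_congr (fun i => ?_)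
    rw [hr]
    ring
  have heq : ∀ k, (val ρ (y k) (V ρ (y k)) s (xs k) - val ρ (z k) (V ρ (z k)) s (xs k)) / h k
      - Lin ρ f s x0 (g k) (y k) (z k) (h k) =
      ((ph (y k (xs k)) - ph (z k (xs k))) / h k - dph (f x0) * g k x0) +
        s * ∑' i, w i * r k i := by
    intro k
    rw [hsum k]
    unfold val Lin
    ring
  have hlim : Tendsto (fun k => ∑' i, w i * r k i) F (𝓝 (∑' _i : ℕ, (0 : ℝ))) := by
    refine tendsto_tsum_of_dominated_convergence (summable_w.mul_right (6 * B)) ?_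
      (Filter.Eventually.of_forall (fun k i => hrB k i))
    intro i
    have h1 := (body hP hB hf hx hρx i).const_mul (w i)
    rw [mul_zero] at h1
    exact h1
  rw [tsum_zero] at hlim
  have h2 := (head hP hf hx hρx).add (hlim.const_mul s)
  rw [mul_zero, add_zero] at h2
  refine h2.congr (fun k => ?_)
  exact (heq k).symm

end Pool.Agent.H66B
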