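import Pool.Agent.H66B.Stab1
import Pool.Agent.H66B.ClaimA

/-!
# H66B/Stab2: stability of all coordinates (imports Stab1, ClaimA)

`xs → x0` by `tendsto_of_uniq`, and all terms converge by `tendsto_term`.  Fix `n = i + 1`.
By `near`, eventually either all coordinates `j < n` of `xs k` and `x0` agree (what we want), or
`x0 ∈ T n (xs k)`.  Exclude the second: by `claimA` for `x0` and `exists_index` there is `j` with
`nu j = n` and `V ρ f j (T n x0) < ph (f x0)`, so `term j x0 > 0`.  If `x0 ∈ T n (xs k)`, then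
`V ρ f j (T n (xs k)) ≥ ph (f x0)` (`le_V`), so `term j (xs k) ≤ th (ph (f (xs k)) - ph (f x0))`,
and the right-hand side tends to `th 0 = 0`, so it is eventually `< term j x0 / 2`, while
`term j (xs k) > term j x0 / 2` eventually.
-/

set_option autoImplicit false

namespace Pool.Agent.H66B

open Set Filter Topology

theorem stab {K : Type} [TopologicalSpace K] [CompactSpace K] {ρ : ℕ → K → Ordinal.{0}}
    {f : K → ℝ} (hρ : Lev ρ) (hf : Continuous f) {C : Set K} (hC : Good ρ C)
    (hpos : ∃ y ∈ C, 0 < ph (f y)) {s : ℝ} (hs : 0 < s) {x0 : K} (hx0 : UniqMax ρ f C s x0)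
    {ι : Type} {F : Filter ι} {xs : ι → K} (hxs : ∀ k, xs k ∈ C)
    (hv : Tendsto (fun k => val ρ f (V ρ f) s (xs k)) F (𝓝 (val ρ f (V ρ f) s x0))) :
    Tendsto xs F (𝓝 x0) ∧ ∀ i, ∀ᶠ k in F, ρ i (xs k) = ρ i x0 := by
  have h1 := tendsto_of_uniq hρ hf hC.1 hs.le hx0 hxs hv
  refine ⟨h1, fun i => ?_⟩
  obtain ⟨hpx, hlt⟩ := claimA hρ hf hC hs hx0.1 hx0.2.1 hpos
  obtain ⟨j, hj, hVj⟩ := exists_index hρ hf (i + 1) hpx (hlt (i + 1))
  have ht0 : 0 < term ρ f (V ρ f) j x0 := by
    unfold term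
    rw [hj]
    exact th_pos (by linarith)
  have hterm := tendsto_term hρ hf hs h1 hv j
  have hnear := h1.eventually (near hρ (i + 1) x0)
  have hcont : Tendsto (fun k => th (ph (f (xs k)) - ph (f x0))) F (𝓝 0) := by
    have h2 : Tendsto (fun k => ph (f (xs k)) - ph (f x0)) F (𝓝 (ph (f x0) - ph (f x0))) :=
      (((continuous_ph.comp hf).tendsto x0).comp h1).sub tendsto_const_nhds
    rw [sub_self] at h2
    have h3 := (continuous_th.tendsto 0).comp h2
    rw [th_zero le_rfl] at h3
    exact h3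
  filter_upwards [hnear, hterm.eventually (lt_mem_nhds (half_lt_self ht0)),
    hcont.eventually (gt_mem_nhds (half_pos ht0))] with k hk1 hk2 hk3
  rcases hk1.2 with h | h
  · exact h i (Nat.lt_succ_self i)
  · exfalso
    have h3 : ph (f x0) ≤ V ρ f j (T ρ (nu j) (xs k)) := le_V ρ f (by rw [hj]; exact h) j
    have h4 : term ρ f (V ρ f) j (xs k) ≤ th (ph (f (xs k)) - ph (f x0)) := by
      unfold term
      exact th_mono (by linarith)
    linarith

end Pool.Agent.H66B
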