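import Pool.Agent.H66B.ExpB
import Pool.Agent.H66B.Stab2

/-!
# H66B/ExpC: expansion of `S` at a unique maximizer (imports ExpB, Stab2)

For every `k` let `p k ∈ C` maximize `val (z k)` and `q k ∈ C` maximize `val (y k)` over `C`
(`exists_max`; `C` is nonempty since `x0 ∈ C`).  By `stab` both `p` and `q` converge to `x0`
together with all coordinates, and the quotient for `S` lies between the quotients at `p`, `q`.
-/

set_option autoImplicit false

namespace Pool.Agent.H66B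

open Set Filter Topology

theorem val_conv_max {K : Type} [TopologicalSpace K] [CompactSpace K] {ρ : ℕ → K → Ordinal.{0}}
    {f : K → ℝ} {ι : Type} {F : Filter ι} {u : ι → K → ℝ} {δ : ι → ℝ}
    (dpos : ∀ k, 0 ≤ δ k) (du : ∀ k x, |u k x - f x| ≤ δ k) (d0 : Tendsto δ F (𝓝 0))
    {C : Set K} {s : ℝ} (hs : 0 < s) (hs1 : s ≤ 1) {x0 : K}
    (hx0 : UniqMax ρ f C s x0) {r : ι → K} (hr : ∀ k, r k ∈ C)
    (hmax : ∀ k, ∀ y ∈ C, val ρ (u k) (V ρ (u k)) s y ≤ val ρ (u k) (V ρ (u k)) s (r k)) :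
    Tendsto (fun k => val ρ f (V ρ f) s (r k)) F (𝓝 (val ρ f (V ρ f) s x0)) := by
  rw [tendsto_iff_norm_sub_tendsto_zero]
  have h8 : Tendsto (fun k => 8 * δ k) F (𝓝 0) := by
    simpa using d0.const_mul 8
  refine squeeze_zero (fun k => norm_nonneg _) (fun k => ?_) h8
  rw [Real.norm_eq_abs, abs_le]
  have h1 := abs_le.1 (val_lip ρ (u k) f (dpos k) (du k) hs.le hs1 (r k))
  have h2 := abs_le.1 (val_lip ρ (u k) f (dpos k) (du k) hs.le hs1 x0)
  have h3 := hmax k x0 hx0.1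
  have h4 := hx0.2.1 (r k) (hr k)
  have h5 := dpos k
  constructor <;> linarith [h1.1, h1.2, h2.1, h2.2]

theorem exp_S {K : Type} [TopologicalSpace K] [CompactSpace K] {ρ : ℕ → K → Ordinal.{0}}
    {f : K → ℝ} {ι : Type}
    {F : Filter ι} {y z g : ι → K → ℝ} {h δ : ι → ℝ} {B : ℝ} (hP : Pert ρ f F y z g h δ B)
    (hB : 0 ≤ B) (hρ : Lev ρ) (hf : Continuous f) {C : Set K} (hC : Good ρ C)
    (hpos : ∃ u ∈ C, 0 < ph (f u)) {s : ℝ} (hs : 0 < s) (hs1 : s ≤ 1) {x0 : K}
    (hx0 : UniqMax ρ f C s x0) :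
    Tendsto (fun k => (S ρ (y k) (V ρ (y k)) C s - S ρ (z k) (V ρ (z k)) C s) / h k
      - Lin ρ f s x0 (g k) (y k) (z k) (h k)) F (𝓝 0) := by
  classical
  have hne : C.Nonempty := ⟨x0, hx0.1⟩
  choose q hqC hqm using fun k => exists_max (ρ := ρ) (f := y k) hρ (hP.cy k) hC.1 hne hs.le
  choose p hpC hpm using fun k => exists_max (ρ := ρ) (f := z k) hρ (hP.cz k) hC.1 hne hs.le
  have hvq := val_conv_max (F := F) hP.dpos hP.dy hP.d0 hs hs1 hx0 hqC hqm
  have hvp := val_conv_max (F := F) hP.dpos hP.dz hP.d0 hs hs1 hx0 hpC hpm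
  obtain ⟨tq, cq⟩ := stab hρ hf hC hpos hs hx0 hqC hvq
  obtain ⟨tp, cp⟩ := stab hρ hf hC hpos hs hx0 hpC hvp
  have eq := exp_seq hP hB hf tq cq s
  have ep := exp_seq hP hB hf tp cp s
  have hsum := (ep.norm).add (eq.norm)
  simp only [norm_zero, add_zero] at hsum
  refine squeeze_zero_norm (fun k => ?_) hsum
  have hSy : S ρ (y k) (V ρ (y k)) C s = val ρ (y k) (V ρ (y k)) s (q k) :=
    S_eq_of_max ρ (y k) (V ρ (y k)) (hqC k) (hqm k)
  have hSz : S ρ (z k) (V ρ (z k)) C s = val ρ (z k) (V ρ (z k)) s (p k) :=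
    S_eq_of_max ρ (z k) (V ρ (z k)) (hpC k) (hpm k)
  rw [hSy, hSz]
  set vyq := val ρ (y k) (V ρ (y k)) s (q k) with hvyq
  set vyp := val ρ (y k) (V ρ (y k)) s (p k) with hvyp
  set vzq := val ρ (z k) (V ρ (z k)) s (q k) with hvzq
  set vzp := val ρ (z k) (V ρ (z k)) s (p k) with hvzp
  set L := Lin ρ f s x0 (g k) (y k) (z k) (h k) with hL
  have i1 : vyp ≤ vyq := hqm k (p k) (hpC k)
  have i2 : vzq ≤ vzp := hpm k (q k) (hqC k)
  have lo : min ((vyp - vzp) / h k) ((vyq - vzq) / h k) ≤ (vyq - vzp) / h k := by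
    rcases lt_or_gt_of_ne (hP.hne k) with hneg | hpos'
    · refine (min_le_right _ _).trans ?_
      exact div_le_div_of_nonpos_of_le hneg.le (by linarith)
    · refine (min_le_left _ _).trans ?_
      exact div_le_div_of_nonneg_right (by linarith) hpos'.le
  have up : (vyq - vzp) / h k ≤ max ((vyp - vzp) / h k) ((vyq - vzq) / h k) := by
    rcases lt_or_gt_of_ne (hP.hne k) with hneg | hpos'
    · refine le_trans ?_ (le_max_left _ _)
      exact div_le_div_of_nonpos_of_le hneg.le (by linarith)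
    · refine le_trans ?_ (le_max_right _ _)
      exact div_le_div_of_nonneg_right (by linarith) hpos'.le
  simp only [Real.norm_eq_abs]
  have a1 := abs_nonneg ((vyp - vzp) / h k - L)
  have a2 := abs_nonneg ((vyq - vzq) / h k - L)
  have b1 := le_abs_self ((vyp - vzp) / h k - L)
  have b2 := le_abs_self ((vyq - vzq) / h k - L)
  have b3 := neg_abs_le ((vyp - vzp) / h k - L)
  have b4 := neg_abs_le ((vyq - vzq) / h k - L)
  rw [abs_le]
  constructor
  · rcases min_le_iff.1 lo with h1 | h1 <;> linarith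
  · rcases le_max_iff.1 up with h1 | h1 <;> linarith

end Pool.Agent.H66B
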