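import Mathlib

/-!
# H66B/OrdP: the ordinal rank of a fragmented space (Mathlib only)

`hfrag`: every nonempty `M ⊆ K` has an open `Ω` with `M ∩ Ω ≠ ∅` and `r f g < ε` on `M ∩ Ω`.

For an open set `G ≠ univ` choose (with `hfrag` for `M = Gᶜ`) an open `Ω G` with `Gᶜ ∩ Ω G ≠ ∅` and
`r < ε` on `Gᶜ ∩ Ω G`; put `nxt G = G ∪ Ω G`; for all other sets put `nxt G = univ` (or for all
sets `G ≠ univ` use `hfrag` with `M = Gᶜ`; openness of `G` is not needed to choose `Ω`).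
By well-founded recursion define `G : Ordinal.{0} → Set K`, `G ξ = ⋃ η < ξ, nxt (G η)`
(`WellFounded.fix`, `Ordinal.limitRecOn` is not needed).  Then every `G ξ` is open (`nxt (G η)` is
open by induction), `η < ξ → nxt (G η) ⊆ G ξ`, and `G η ⊆ nxt (G η)`, strictly if `G η ≠ univ`.

Some `G ξ = univ`: otherwise choose for every `ξ` a point `p ξ ∈ nxt (G ξ) \ G ξ`; it is an
injective map `Ordinal.{0} → K` (for `η < ξ`: `p η ∈ nxt (G η) ⊆ G ξ ∌ p ξ`), contradicting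
`not_injective_of_ordinal` (`K : Type`).

So every `x` lies in some `nxt (G ξ)` (if `G ξ = univ`: `univ = G ξ ⊆ nxt (G ξ)`), and
`o x :=` the least `ξ` with `x ∈ nxt (G ξ)` (`sInf` / `WellFounded.min`).  `{x | o x ≤ ξ} = nxt (G ξ)`
(if `o x = η < ξ` then `x ∈ nxt (G η) ⊆ G ξ ⊆ nxt (G ξ)`) is open.  If `o x = o y = ξ` then
`x, y ∈ nxt (G ξ)` and `x, y ∉ G ξ` (elements of `G ξ` lie in some `nxt (G η)`, `η < ξ`, so have
`o < ξ`), so `G ξ ≠ univ` and both lie in `(G ξ)ᶜ ∩ Ω (G ξ)`, hence `r x y < ε`.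
-/

set_option autoImplicit false

namespace Pool.Agent.H66B

open Set Filter Topology

theorem exists_rank {K : Type} [TopologicalSpace K] (r : K → K → ℝ) {ε : ℝ}
    (hfrag : ∀ M : Set K, M.Nonempty → ∃ Ω : Set K, IsOpen Ω ∧ (M ∩ Ω).Nonempty ∧
      ∀ f ∈ M ∩ Ω, ∀ g ∈ M ∩ Ω, r f g < ε) :
    ∃ o : K → Ordinal.{0}, (∀ ξ, IsOpen {x | o x ≤ ξ}) ∧ ∀ x y, o x = o y → r x y < ε := by
  classical
  have hΩ : ∀ G : Set K, ∃ Ω : Set K, IsOpen Ω ∧ (G ≠ univ → (Gᶜ ∩ Ω).Nonempty) ∧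
      (∀ f ∈ Gᶜ ∩ Ω, ∀ g ∈ Gᶜ ∩ Ω, r f g < ε) := by
    intro G
    by_cases hG : G = univ
    · exact ⟨∅, isOpen_empty, fun h => absurd hG h, by simp⟩
    · obtain ⟨Ω, h1, h2, h3⟩ := hfrag Gᶜ (nonempty_compl.2 hG)
      exact ⟨Ω, h1, fun _ => h2, h3⟩
  choose Ω hΩo hΩn hΩr using hΩ
  let G : Ordinal.{0} → Set K := WellFoundedLT.fix
    (fun ξ ih => ⋃ η : {η // η < ξ}, (ih η.1 η.2 ∪ Ω (ih η.1 η.2)))
  have hG : ∀ ξ, G ξ = ⋃ η : {η // η < ξ}, (G η.1 ∪ Ω (G η.1)) := fun ξ =>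
    WellFoundedLT.fix_eq _ ξ
  have hopen : ∀ ξ, IsOpen (G ξ) := by
    intro ξ
    induction ξ using WellFoundedLT.induction with
    | _ ξ ih =>
      rw [hG ξ]
      exact isOpen_iUnion fun η => (ih η.1 η.2).union (hΩo _)
  have hsub : ∀ η ξ, η < ξ → G η ∪ Ω (G η) ⊆ G ξ := by
    intro η ξ h
    rw [hG ξ]
    exact subset_iUnion (fun η : {η // η < ξ} => G η.1 ∪ Ω (G η.1)) ⟨η, h⟩
  have hcov : ∃ ξ, G ξ = univ := by
    by_contra hcon
    have hcon' : ∀ ξ, G ξ ≠ univ := fun ξ h => hcon ⟨ξ, h⟩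
    have h1 : ∀ ξ, ∃ p, p ∈ (G ξ)ᶜ ∩ Ω (G ξ) := fun ξ => hΩn (G ξ) (hcon' ξ)
    choose p hp using h1
    refine not_injective_of_ordinal p ?_
    have key : ∀ η ξ, η < ξ → p η ≠ p ξ := by
      intro η ξ h heq
      have h2 : p η ∈ G ξ := hsub η ξ h (Or.inr (hp η).2)
      rw [heq] at h2
      exact (hp ξ).1 h2
    intro η ξ heq
    rcases lt_trichotomy η ξ with h | h | h
    · exact absurd heq (key η ξ h)
    · exact h
    · exact absurd heq.symm (key ξ η h)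
  obtain ⟨ξ0, hξ0⟩ := hcov
  have hne : ∀ x, {ξ | x ∈ G ξ ∪ Ω (G ξ)}.Nonempty := fun x =>
    ⟨ξ0, Or.inl (by rw [hξ0]; trivial)⟩
  let o : K → Ordinal.{0} := fun x => sInf {ξ | x ∈ G ξ ∪ Ω (G ξ)}
  have ho : ∀ x, x ∈ G (o x) ∪ Ω (G (o x)) := fun x => csInf_mem (hne x)
  have ho' : ∀ x ξ, x ∈ G ξ ∪ Ω (G ξ) → o x ≤ ξ := fun x ξ h => csInf_le' h
  refine ⟨o, fun ξ => ?_, fun x y hxy => ?_⟩
  · have : {x | o x ≤ ξ} = G ξ ∪ Ω (G ξ) := by
      ext x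
      constructor
      · intro h
        rcases lt_or_eq_of_le (show o x ≤ ξ from h) with h1 | h1
        · exact Or.inl (hsub _ _ h1 (ho x))
        · rw [← h1]
          exact ho x
      · exact ho' x ξ
    rw [this]
    exact (hopen ξ).union (hΩo _)
  · have h1 : ∀ x, x ∈ (G (o x))ᶜ ∩ Ω (G (o x)) := by
      intro x
      have h2 : x ∉ G (o x) := by
        intro h
        rw [hG (o x)] at h
        obtain ⟨η, hη⟩ := mem_iUnion.1 h
        exact absurd (ho' x η.1 hη) (not_le.2 η.2)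
      exact ⟨h2, (ho x).resolve_left h2⟩
    have h2 := h1 y
    rw [← hxy] at h2
    exact hΩr (G (o x)) x (h1 x) y h2

end Pool.Agent.H66B
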