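import Pool.Agent.H66B.Defs
import Pool.Agent.H66B.OrdP

/-!
# H66B/Frag: the sequence `ρ` of a fragmented space (imports Defs, OrdP)

Apply `exists_rank` with `ε = 1/(n+1)` for every `n` and choose `ρ n`.  `Lev ρ` is clear.  `Sep ρ`:
if `ρ n x = ρ n y` for all `n` then `r x y < 1/(n+1)` for all `n`, so `r x y ≤ 0`; and
`0 = r x x ≤ r x y + r y x = 2 r x y`, so `r x y = 0` and `x = y`.
-/

set_option autoImplicit false

namespace Pool.Agent.H66B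

open Set Filter Topology

theorem exists_rho {K : Type} [TopologicalSpace K] (r : K → K → ℝ)
    (h0 : ∀ f g, r f g = 0 ↔ f = g) (hsymm : ∀ f g, r f g = r g f)
    (htri : ∀ f g k, r f k ≤ r f g + r g k)
    (hfrag : ∀ ε : ℝ, 0 < ε → ∀ M : Set K, M.Nonempty → ∃ Ω : Set K, IsOpen Ω ∧
      (M ∩ Ω).Nonempty ∧ ∀ f ∈ M ∩ Ω, ∀ g ∈ M ∩ Ω, r f g < ε) :
    ∃ ρ : ℕ → K → Ordinal.{0}, Lev ρ ∧ Sep ρ := by
  have h1 : ∀ n : ℕ, ∃ o : K → Ordinal.{0}, (∀ ξ, IsOpen {x | o x ≤ ξ}) ∧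
      ∀ x y, o x = o y → r x y < 1 / ((n : ℝ) + 1) := fun n =>
    exists_rank r (hfrag _ (by positivity))
  choose ρ hρ hr using h1
  refine ⟨ρ, hρ, fun x y hxy => ?_⟩
  have h2 : ∀ n : ℕ, r x y < 1 / ((n : ℝ) + 1) := fun n => hr n x y (hxy n)
  have h3 : r x y ≤ 0 := by
    by_contra hcon
    push Not at hcon
    obtain ⟨n, hn⟩ := exists_nat_one_div_lt hcon
    exact absurd (h2 n) (not_lt.2 hn.le)
  have h4 : r x x ≤ r x y + r y x := htri x y x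
  rw [(h0 x x).2 rfl, hsymm y x] at h4
  exact (h0 x y).1 (le_antisymm h3 (by linarith))

end Pool.Agent.H66B
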