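import Pool.Agent.H66B.Bump
import Pool.Agent.H66B.Frag

/-!
# H66B/Final: assembly (imports Bump, Frag): proved in the file from the stubs
-/

set_option autoImplicit false

namespace Pool.Agent.H66B

open Set Filter Topology

theorem main (X : Type) [NormedAddCommGroup X] [NormedSpace ℝ X] 
    (hX : ∃ ρ : (X →L[ℝ] ℝ) → (X →L[ℝ] ℝ) → ℝ,
      (∀ f g : X →L[ℝ] ℝ, ‖f‖ ≤ 1 → ‖g‖ ≤ 1 → (ρ f g = 0 ↔ f = g)) ∧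
      (∀ f g : X →L[ℝ] ℝ, ‖f‖ ≤ 1 → ‖g‖ ≤ 1 → ρ f g = ρ g f) ∧
      (∀ f g k : X →L[ℝ] ℝ, ‖f‖ ≤ 1 → ‖g‖ ≤ 1 → ‖k‖ ≤ 1 →
          ρ f k ≤ ρ f g + ρ g k) ∧
      ∀ ε : ℝ, 0 < ε → ∀ M : Set (X →L[ℝ] ℝ), M.Nonempty →
        M ⊆ {f : X →L[ℝ] ℝ | ‖f‖ ≤ 1} →
        ∃ Ω : Set (X →L[ℝ] ℝ),
          @IsOpen (X →L[ℝ] ℝ)
            (TopologicalSpace.induced (fun f : X →L[ℝ] ℝ => (⇑f : X → ℝ))
              Pi.topologicalSpace) Ω ∧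
          (M ∩ Ω).Nonempty ∧
          ∀ f ∈ M ∩ Ω, ∀ g ∈ M ∩ Ω, ρ f g < ε) :
    ∃ b : X → ℝ, (∃ K : NNReal, LipschitzWith K b) ∧
      Bornology.IsBounded (Function.support b) ∧ (∃ x : X, b x ≠ 0) ∧
      ∀ x : X, ∃ L : X →L[ℝ] ℝ, ∀ h : X,
        HasDerivAt (fun t : ℝ => b (x + t • h)) (L h) 0 := by
  obtain ⟨r, h0, hsymm, htri, hfrag⟩ := hX
  obtain ⟨ρ, hρ, hsep⟩ := exists_rho (K := DBall X) (fun f g => r f.1 g.1)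
    (fun f g => (h0 f.1 g.1 f.2 g.2).trans Subtype.ext_iff.symm)
    (fun f g => hsymm f.1 g.1 f.2 g.2)
    (fun f g k => htri f.1 g.1 k.1 f.2 g.2 k.2)
    (by
      intro ε hε M hM
      obtain ⟨Ω, hΩ, hne, hlt⟩ := hfrag ε hε (Subtype.val '' M) (hM.image _)
        (by rintro _ ⟨f, -, rfl⟩; exact f.2)
      refine ⟨Subtype.val ⁻¹' Ω, ?_, ?_, ?_⟩
      · obtain ⟨U, hU, rfl⟩ := isOpen_induced_iff.1 hΩ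
        exact isOpen_induced_iff.2 ⟨U, hU, rfl⟩
      · obtain ⟨_, ⟨f, hf, rfl⟩, hfΩ⟩ := hne
        exact ⟨f, hf, hfΩ⟩
      · rintro f ⟨hf, hfΩ⟩ g ⟨hg, hgΩ⟩
        exact hlt f.1 ⟨⟨f, hf, rfl⟩, hfΩ⟩ g.1 ⟨⟨g, hg, rfl⟩, hgΩ⟩)
  exact bump X ρ hρ hsep

end Pool.Agent.H66B
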