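import Pool.Agent.H66B.SPhi

/-!
# H66B/Fix: existence of the fixed point (imports SPhi)

`Phi ρ f` maps all functions `v : ℕ → Set K → ℝ` into functions with values in `[0,2]` and by
`Phi_diff` (with `C0 = univ`, `g = f`, `δ = 0`) it contracts the sup distance by `1/4`.

Proof 1: `v 0 = 0`, `v (n+1) = Phi (v n)`; `|v (n+1) m C - v n m C| ≤ 2 / 4^n` by induction, so
`v n m C` is Cauchy (`cauchySeq_of_le_geometric`) with limit `v∞ m C` and
`|v∞ m C - v n m C| ≤ 8/3 / 4^n` uniformly in `m`, `C`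
(`dist_le_of_le_geometric_of_tendsto`); then `|Phi v∞ m C - v (n+1) m C| → 0` by `Phi_diff`, so
`Phi v∞ m C = v∞ m C`.
Proof 2: `ContractingWith` on `BoundedContinuousFunction (ℕ × Set K) ℝ` for the discrete topology.

`V_fix`: unfold `V`, `dif_pos (exists_fix ρ f)`, `Classical.choose_spec`.
-/

set_option autoImplicit false

namespace Pool.Agent.H66B

open Set Filter Topology

/-- `Phi` contracts the sup distance -/
theorem Phi_contr {K : Type} (ρ : ℕ → K → Ordinal.{0}) (f : K → ℝ) (v u : ℕ → Set K → ℝ) {d : ℝ}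
    (hd : 0 ≤ d) (h : ∀ m C, |v m C - u m C| ≤ d) (m : ℕ) (C : Set K) :
    |Phi ρ f v m C - Phi ρ f u m C| ≤ d / 4 := by
  have := Phi_diff ρ f f v u (C0 := Set.univ) (δ := 0) le_rfl hd
    (fun _ _ _ => Set.subset_univ _) (fun x _ => by simp) (fun i C _ => h i C)
    (Set.subset_univ C) m
  linarith

theorem exists_fix {K : Type} (ρ : ℕ → K → Ordinal.{0}) (f : K → ℝ) :
    ∃ v : ℕ → Set K → ℝ, ∀ m C, v m C = Phi ρ f v m C := by
  let v : ℕ → (ℕ → Set K → ℝ) := fun n => Nat.rec (fun _ _ => 0) (fun _ u => Phi ρ f u) n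
  have hv0 : v 0 = fun _ _ => 0 := rfl
  have hv : ∀ n, v (n + 1) = Phi ρ f (v n) := fun n => rfl
  have hstep : ∀ n m C, |v (n + 1) m C - v n m C| ≤ 2 * (1 / 4) ^ n := by
    intro n
    induction n with
    | zero =>
      intro m C
      rw [hv 0, hv0, sub_zero, abs_of_nonneg (Phi_nonneg ρ f _ m C)]
      simpa using Phi_le_two ρ f _ m C
    | succ n ih =>
      intro m C
      have h1 := Phi_contr ρ f (v (n + 1)) (v n) (d := 2 * (1 / 4) ^ n) (by positivity) ih m C
      rw [hv (n + 1), hv n]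
      rw [hv n] at h1
      refine h1.trans (le_of_eq ?_)
      rw [pow_succ]
      ring
  have hstep' : ∀ m C n, dist (v n m C) (v (n + 1) m C) ≤ 2 * (1 / 4) ^ n := by
    intro m C n
    rw [dist_comm, Real.dist_eq]
    exact hstep n m C
  have hex : ∀ m C, ∃ l, Tendsto (fun n => v n m C) atTop (𝓝 l) := fun m C =>
    cauchySeq_tendsto_of_complete
      (cauchySeq_of_le_geometric (1 / 4) 2 (by norm_num) (hstep' m C))
  choose l hl using hex
  have hdist : ∀ m C n, |v n m C - l m C| ≤ 2 * (1 / 4) ^ n / (1 - 1 / 4) := by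
    intro m C n
    have := dist_le_of_le_geometric_of_tendsto (1 / 4) 2 (by norm_num) (hstep' m C) (hl m C) n
    rwa [Real.dist_eq] at this
  refine ⟨l, fun m C => ?_⟩
  have h1 : Tendsto (fun n => v (n + 1) m C) atTop (𝓝 (Phi ρ f l m C)) := by
    rw [tendsto_iff_dist_tendsto_zero]
    refine squeeze_zero (fun _ => dist_nonneg) (fun n => ?_)
      (g := fun n : ℕ => 2 * (1 / 4 : ℝ) ^ n / (1 - 1 / 4) / 4) ?_
    · rw [hv n, Real.dist_eq]
      exact Phi_contr ρ f (v n) l (by positivity) (fun m C => hdist m C n) m C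
    · have h2 : Tendsto (fun n : ℕ => (1 / 4 : ℝ) ^ n) atTop (𝓝 0) :=
        tendsto_pow_atTop_nhds_zero_of_lt_one (by norm_num) (by norm_num)
      have h3 := ((h2.const_mul 2).div_const (1 - 1 / 4)).div_const 4
      simpa using h3
  have h2 : Tendsto (fun n => v (n + 1) m C) atTop (𝓝 (l m C)) :=
    (tendsto_add_atTop_iff_nat 1).2 (hl m C)
  exact tendsto_nhds_unique h2 h1

theorem V_fix {K : Type} (ρ : ℕ → K → Ordinal.{0}) (f : K → ℝ) (m : ℕ) (C : Set K) :
    V ρ f m C = Phi ρ f (V ρ f) m C := by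
  have h : V ρ f = Classical.choose (exists_fix ρ f) := by
    unfold V
    rw [dif_pos (exists_fix ρ f)]
  rw [h]
  exact Classical.choose_spec (exists_fix ρ f) m C

end Pool.Agent.H66B
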