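import Pool.Agent.H66B.Defs

/-!
# H66B/Fun: the real functions `w`, `nu`, `ph`, `th` (Defs only)

`ph y = y²/(1+y²)`, `th s = ph (max s 0)`, `dph y = 2y/(1+y²)²`, `dth s = dph (max s 0)`.

* `exists_nu`: `i = Nat.pair n b` has `nu i = n` and `i ≥ b` (`Nat.right_le_pair`), and `w i → 0`.
* `ph_lip_loc`: `ph x - ph y = (x²-y²)/((1+x²)(1+y²))`, so `|ph x - ph y| ≤ |x-y| |x+y|`.
* `ph_lip`: `|x| ≤ (1+x²)/2`, hence `|x+y| ≤ (2+x²+y²)/2 ≤ (1+x²)(1+y²)`.
* `ph_strict`, `th_strict`: both functions are `C¹`: for `ph` use `HasStrictDerivAt.div` (or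
  `ContDiffAt.hasStrictDerivAt` and compute the derivative).  For `th`: for `s ≠ 0` it is locally
  `ph` or `0`; at `s = 0`: `|th a - th b| ≤ |a - b| (|a| + |b|)` by `ph_lip_loc` (with
  `|max a 0 - max b 0| ≤ |a-b|`, `|max a 0| ≤ |a|`), so the strict derivative is `0 = dph 0`.
  (`hasStrictDerivAt_iff_isLittleO` or `HasStrictDerivAt` unfolded with `isLittleO_iff`.)
  Alternative: `q s = (max s 0)^2` has derivative `2 * max s 0` everywhere, continuous, so strict
  (`hasStrictDerivAt_of_hasDerivAt_of_continuousAt`), and `th s = q s / (1 + q s)`.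
* `abs_dph_le`: `2|y| ≤ 1+y² ≤ (1+y²)²`.
-/

set_option autoImplicit false

namespace Pool.Agent.H66B

open Set Filter Topology

theorem w_pos (i : ℕ) : 0 < w i := by
  unfold w; positivity

theorem w_le (i : ℕ) : w i ≤ 1 / 2 := by
  unfold w
  rw [pow_succ]
  have : (1 / 2 : ℝ) ^ i ≤ 1 := pow_le_one₀ (by norm_num) (by norm_num)
  linarith

theorem hasSum_w : HasSum w 1 := by
  have h := (hasSum_geometric_of_lt_one (r := (1 / 2 : ℝ)) (by norm_num) (by norm_num)).mul_right
    (1 / 2 : ℝ)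
  have h1 : (1 - 1 / 2 : ℝ)⁻¹ * (1 / 2) = 1 := by norm_num
  rw [h1] at h
  exact h

theorem summable_w : Summable w := hasSum_w.summable

theorem tsum_w : ∑' i, w i = 1 := hasSum_w.tsum_eq

theorem exists_nu (n : ℕ) {ε : ℝ} (hε : 0 < ε) : ∃ i, nu i = n ∧ w i < ε := by
  have hlim : Tendsto w atTop (𝓝 0) := summable_w.tendsto_atTop_zero
  obtain ⟨b, hb⟩ := (hlim.eventually (gt_mem_nhds hε)).exists_forall_of_atTop
  refine ⟨Nat.pair n b, by simp [nu], hb _ (Nat.right_le_pair n b)⟩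

theorem ph_nonneg (y : ℝ) : 0 ≤ ph y := by
  unfold ph; positivity

theorem ph_le_one (y : ℝ) : ph y ≤ 1 := by
  unfold ph
  rw [div_le_one (by positivity)]
  linarith

theorem ph_zero : ph 0 = 0 := by
  simp [ph]

theorem ph_eq_zero {y : ℝ} : ph y = 0 ↔ y = 0 := by
  unfold ph
  rw [div_eq_zero_iff]
  constructor
  · rintro (h | h)
    · exact pow_eq_zero_iff (two_ne_zero) |>.1 h
    · nlinarith [sq_nonneg y]
  · intro h
    left; simp [h]

theorem ph_lip_loc (x y : ℝ) : |ph x - ph y| ≤ |x - y| * (|x| + |y|) := by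
  have hx : (0 : ℝ) < 1 + x ^ 2 := by positivity
  have hy : (0 : ℝ) < 1 + y ^ 2 := by positivity
  have h : ph x - ph y = (x - y) * (x + y) / ((1 + x ^ 2) * (1 + y ^ 2)) := by
    unfold ph
    field_simp
    ring
  rw [h, abs_div, abs_mul, abs_of_pos (mul_pos hx hy), div_le_iff₀ (mul_pos hx hy)]
  have h1 : |x + y| ≤ |x| + |y| := abs_add_le x y
  have h2 : (1 : ℝ) ≤ (1 + x ^ 2) * (1 + y ^ 2) := by
    nlinarith [sq_nonneg x, sq_nonneg y, mul_nonneg (sq_nonneg x) (sq_nonneg y)]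
  calc |x - y| * |x + y| ≤ |x - y| * (|x| + |y|) := mul_le_mul_of_nonneg_left h1 (abs_nonneg _)
    _ = |x - y| * (|x| + |y|) * 1 := by ring
    _ ≤ |x - y| * (|x| + |y|) * ((1 + x ^ 2) * (1 + y ^ 2)) :=
      mul_le_mul_of_nonneg_left h2 (by positivity)

theorem ph_lip (x y : ℝ) : |ph x - ph y| ≤ |x - y| := by
  have hx : (0 : ℝ) < 1 + x ^ 2 := by positivity
  have hy : (0 : ℝ) < 1 + y ^ 2 := by positivity
  have h : ph x - ph y = (x - y) * (x + y) / ((1 + x ^ 2) * (1 + y ^ 2)) := by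
    unfold ph
    field_simp
    ring
  rw [h, abs_div, abs_mul, abs_of_pos (mul_pos hx hy), div_le_iff₀ (mul_pos hx hy)]
  refine mul_le_mul_of_nonneg_left ?_ (abs_nonneg _)
  rw [abs_le]
  constructor <;> nlinarith [sq_nonneg (x - 1), sq_nonneg (x + 1), sq_nonneg (y - 1),
    sq_nonneg (y + 1), mul_nonneg (sq_nonneg x) (sq_nonneg y)]

theorem continuous_ph : Continuous ph := by
  unfold ph
  refine Continuous.div (by fun_prop) (by fun_prop) fun y => ?_
  positivity

theorem ph_strict (y : ℝ) : HasStrictDerivAt ph (dph y) y := by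
  have h1 : HasStrictDerivAt (fun y : ℝ => y ^ 2) (2 * y) y := by
    have := hasStrictDerivAt_pow 2 y
    simpa using this
  have h2 : HasStrictDerivAt (fun y : ℝ => 1 + y ^ 2) (2 * y) y := h1.const_add 1
  have h3 := h1.div h2 (by positivity : (1 + y ^ 2 : ℝ) ≠ 0)
  have h4 : dph y = (2 * y * (1 + y ^ 2) - y ^ 2 * (2 * y)) / (1 + y ^ 2) ^ 2 := by
    unfold dph
    congr 1
    ring
  rw [h4]
  exact h3

theorem abs_dph_le (y : ℝ) : |dph y| ≤ 1 := by
  unfold dph
  have h : (0 : ℝ) < (1 + y ^ 2) ^ 2 := by positivity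
  rw [abs_div, abs_of_pos h, div_le_one h, abs_le]
  constructor <;> nlinarith [sq_nonneg (y - 1), sq_nonneg (y + 1), sq_nonneg y,
    mul_nonneg (sq_nonneg y) (sq_nonneg y)]

theorem th_nonneg (s : ℝ) : 0 ≤ th s := ph_nonneg _

theorem th_le_one (s : ℝ) : th s ≤ 1 := ph_le_one _

theorem ph_mono_nonneg {x y : ℝ} (hx : 0 ≤ x) (hxy : x ≤ y) : ph x ≤ ph y := by
  unfold ph
  rw [div_le_div_iff₀ (by positivity) (by positivity)]
  nlinarith [mul_self_le_mul_self hx hxy]

theorem th_mono : Monotone th := fun _ _ h =>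
  ph_mono_nonneg (le_max_right _ _) (max_le_max_right 0 h)

theorem th_zero {s : ℝ} (h : s ≤ 0) : th s = 0 := by
  unfold th
  rw [max_eq_right h, ph_zero]

theorem th_pos {s : ℝ} (h : 0 < s) : 0 < th s := by
  unfold th
  rw [max_eq_left h.le]
  exact lt_of_le_of_ne (ph_nonneg _) fun h0 => h.ne' (ph_eq_zero.1 h0.symm)

theorem ph_le_of_nonneg {x : ℝ} (hx : 0 ≤ x) : ph x ≤ x := by
  have := ph_lip x 0
  rw [ph_zero, sub_zero, sub_zero, abs_of_nonneg (ph_nonneg _), abs_of_nonneg hx] at this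
  exact this

theorem th_le (s : ℝ) : th s ≤ max s 0 := ph_le_of_nonneg (le_max_right _ _)

theorem th_lip (s r : ℝ) : |th s - th r| ≤ |s - r| :=
  (ph_lip _ _).trans (abs_max_sub_max_le_abs s r 0)

theorem continuous_th : Continuous th :=
  continuous_ph.comp (continuous_id.max continuous_const)

theorem th_strict_zero : HasStrictDerivAt th 0 0 := by
  rw [hasStrictDerivAt_iff_hasStrictFDerivAt]
  refine HasStrictFDerivAt.of_isLittleO ?_
  rw [Asymptotics.isLittleO_iff]
  intro c hc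
  have hU : ∀ᶠ p : ℝ × ℝ in 𝓝 ((0 : ℝ), (0 : ℝ)), |p.1| + |p.2| < c := by
    have hcont : Continuous fun p : ℝ × ℝ => |p.1| + |p.2| := by fun_prop
    have := hcont.tendsto ((0 : ℝ), (0 : ℝ))
    simp only [abs_zero, add_zero] at this
    exact this.eventually (gt_mem_nhds hc)
  filter_upwards [hU] with p hp
  simp only [Real.norm_eq_abs, ContinuousLinearMap.toSpanSingleton_apply, smul_zero, sub_zero]
  have h1 : |th p.1 - th p.2| ≤ |max p.1 0 - max p.2 0| * (|max p.1 0| + |max p.2 0|) :=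
    ph_lip_loc _ _
  have h2 : |max p.1 0 - max p.2 0| ≤ |p.1 - p.2| := abs_max_sub_max_le_abs _ _ 0
  have h3 : ∀ a : ℝ, |max a 0| ≤ |a| := by
    intro a
    rw [abs_of_nonneg (le_max_right _ _)]
    exact max_le (le_abs_self a) (abs_nonneg a)
  have h4 : |max p.1 0| + |max p.2 0| ≤ c := by
    have := h3 p.1
    have := h3 p.2
    linarith
  calc |th p.1 - th p.2| ≤ |max p.1 0 - max p.2 0| * (|max p.1 0| + |max p.2 0|) := h1
    _ ≤ |p.1 - p.2| * c := mul_le_mul h2 h4 (by positivity) (abs_nonneg _)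
    _ = c * |p.1 - p.2| := mul_comm _ _

theorem th_strict (s : ℝ) : HasStrictDerivAt th (dth s) s := by
  rcases lt_trichotomy s 0 with hs | hs | hs
  · have h1 : dth s = 0 := by
      unfold dth dph
      rw [max_eq_right hs.le]
      simp
    rw [h1]
    refine (hasStrictDerivAt_const s (0 : ℝ)).congr_of_eventuallyEq ?_
    filter_upwards [gt_mem_nhds hs] with r hr
    exact (th_zero (le_of_lt hr)).symm
  · subst hs
    have h1 : dth 0 = 0 := by
      unfold dth dph
      simp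
    rw [h1]
    exact th_strict_zero
  · have h1 : dth s = dph s := by
      unfold dth
      rw [max_eq_left hs.le]
    rw [h1]
    refine (ph_strict s).congr_of_eventuallyEq ?_
    filter_upwards [lt_mem_nhds hs] with r hr
    unfold th
    rw [max_eq_left (le_of_lt hr)]

theorem dth_nonneg (s : ℝ) : 0 ≤ dth s := by
  unfold dth dph
  have : 0 ≤ max s 0 := le_max_right _ _
  positivity

theorem dth_le_one (s : ℝ) : dth s ≤ 1 :=
  (le_abs_self _).trans (abs_dph_le _)

end Pool.Agent.H66B
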