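import Pool.Agent.H66B.KeyC

/-!
# H66B/Gat: Gateaux differentiability of `f ↦ V ρ f m C` on `C(K, ℝ)` (imports KeyC)

Write `q g t = (V ρ (f + t g) m C - V ρ f m C) / t` for `t ≠ 0`.

* `pert_line`: for `g : C(K,ℝ)`, a filter `F` on `ι`, `τ : ι → ℝ`, `τ k ≠ 0`, `τ → 0` along
  `F`: `Pert ρ f F (fun k x => f x + τ k * g x) (fun _ => f) (fun _ => g) τ (|τ k| * ‖g‖) B` for
  every `B ≥ ‖g‖`.  (`stab`: `g` is continuous.)
* existence of the limit: apply `key` with `L = Bool` (or `Fin 2`), `ι = ` the subtype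
  `{p : ℝ × ℝ // p.1 ≠ 0 ∧ p.2 ≠ 0}`, `F = comap Subtype.val (𝓝 (0,0))` (countably generated),
  `c = 1, -1`, both directions `g`, `h = p.1`, `p.2`: so `q g s - q g t → 0` as
  `(s, t) → (0,0)`, `s, t ≠ 0`; so `q g` is Cauchy along `𝓝[≠] 0`
  (`cauchy_map_iff`, `Metric.cauchy_iff`) and has a limit `D g` (completeness of `ℝ`).
* additivity: `key` with `L = Fin 3`, `ι = {t : ℝ // t ≠ 0}`, `F = comap Subtype.val (𝓝 0)`,
  directions `g + g'`, `g`, `g'`, coefficients `1, -1, -1`, `h = t` for all three: so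
  `D (g + g') - D g - D g' = 0` by uniqueness of limits.
* homogeneity: `c = 0`: `q 0 t = 0`.  `c ≠ 0`: `q (c g) t = c * q g (c t)` and `c t → 0`.
* boundedness: `|q g t| ≤ 2 ‖g‖` by `V_lip`, so `|D g| ≤ 2 ‖g‖`: `LinearMap.mkContinuous`.
* `HasDerivAt (fun t => V ρ (f + t • g) m C) (D g) 0`: `hasDerivAt_iff_tendsto_slope_zero`.
-/

set_option autoImplicit false

namespace Pool.Agent.H66B

open Set Filter Topology

/-- a straight line through `f` -/
theorem pert_line {K ι : Type} [TopologicalSpace K] [CompactSpace K] {ρ : ℕ → K → Ordinal.{0}}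
    (f g : C(K, ℝ)) (F : Filter ι) (τ : ι → ℝ) (hτ : ∀ k, τ k ≠ 0) (hτ0 : Tendsto τ F (𝓝 0))
    {B : ℝ} (hB : ‖g‖ ≤ B) :
    Pert ρ (⇑f) F (fun k x => f x + τ k * g x) (fun _ => ⇑f) (fun _ => ⇑g) τ
      (fun k => |τ k| * B) B where
  cy k := f.continuous.add (continuous_const.mul g.continuous)
  cz _ := f.continuous
  hne := hτ
  sub k x := by ring
  gB _ x := by
    have := g.norm_coe_le_norm x
    rw [Real.norm_eq_abs] at this
    exact this.trans hB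
  dpos k := mul_nonneg (abs_nonneg _) ((norm_nonneg g).trans hB)
  dy k x := by
    have h1 : |g x| ≤ B := by
      have := g.norm_coe_le_norm x
      rw [Real.norm_eq_abs] at this
      exact this.trans hB
    have : f x + τ k * g x - f x = τ k * g x := by ring
    rw [this, abs_mul]
    exact mul_le_mul_of_nonneg_left h1 (abs_nonneg _)
  dz k x := by
    rw [sub_self, abs_zero]
    exact mul_nonneg (abs_nonneg _) ((norm_nonneg g).trans hB)
  d0 := by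
    have := (hτ0.abs).mul_const B
    simpa using this
  stab x0 xs hx _ := by
    have h1 : Tendsto (fun k => g (xs k)) F (𝓝 (g x0)) := (g.continuous.tendsto x0).comp hx
    have := h1.sub_const (g x0)
    simpa using this

/-- the difference quotient -/
noncomputable def qq {K : Type} [TopologicalSpace K] [CompactSpace K] (ρ : ℕ → K → Ordinal.{0})
    (f : C(K, ℝ)) (m : ℕ) (C : Set K) (g : C(K, ℝ)) (t : ℝ) : ℝ :=
  (V ρ (fun x => f x + t * g x) m C - V ρ (⇑f) m C) / t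

theorem of_comap1 {φ : {t : ℝ // t ≠ 0} → ℝ}
    (h : Tendsto φ (comap Subtype.val (𝓝 0)) (𝓝 0)) :
    ∀ ε > 0, ∃ δ > 0, ∀ t (ht : t ≠ 0), |t| < δ → |φ ⟨t, ht⟩| < ε := by
  intro ε hε
  have h1 := Metric.tendsto_nhds.1 h ε hε
  rw [Filter.eventually_comap] at h1
  obtain ⟨δ, hδ, h2⟩ := Metric.eventually_nhds_iff.1 h1
  refine ⟨δ, hδ, fun t ht htδ => ?_⟩
  have := h2 (y := t) (by rwa [Real.dist_eq, sub_zero]) ⟨t, ht⟩ rfl
  rwa [Real.dist_eq, sub_zero] at this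

theorem of_comap2 {φ : {p : ℝ × ℝ // p.1 ≠ 0 ∧ p.2 ≠ 0} → ℝ}
    (h : Tendsto φ (comap Subtype.val (𝓝 (0, 0))) (𝓝 0)) :
    ∀ ε > 0, ∃ δ > 0, ∀ s t (hs : s ≠ 0) (ht : t ≠ 0), |s| < δ → |t| < δ →
      |φ ⟨(s, t), hs, ht⟩| < ε := by
  intro ε hε
  have h1 := Metric.tendsto_nhds.1 h ε hε
  rw [Filter.eventually_comap] at h1
  obtain ⟨δ, hδ, h2⟩ := Metric.eventually_nhds_iff.1 h1
  refine ⟨δ, hδ, fun s t hs ht hsδ htδ => ?_⟩
  have := h2 (y := (s, t)) (by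
    rw [Prod.dist_eq]
    refine max_lt ?_ ?_
    · rwa [Real.dist_eq, sub_zero]
    · rwa [Real.dist_eq, sub_zero]) ⟨(s, t), hs, ht⟩ rfl
  rwa [Real.dist_eq, sub_zero] at this

section

variable {K : Type} [TopologicalSpace K] [CompactSpace K] {ρ : ℕ → K → Ordinal.{0}}

theorem qq_cauchy (hρ : Lev ρ) (hsep : Sep ρ) (f : C(K, ℝ)) (m : ℕ) {C : Set K}
    (hC : Good ρ C) (g : C(K, ℝ)) :
    ∀ ε > 0, ∃ δ > 0, ∀ s t, s ≠ 0 → t ≠ 0 → |s| < δ → |t| < δ →
      |qq ρ f m C g s - qq ρ f m C g t| < ε := by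
  let ι := {p : ℝ × ℝ // p.1 ≠ 0 ∧ p.2 ≠ 0}
  let F : Filter ι := comap Subtype.val (𝓝 ((0 : ℝ), (0 : ℝ)))
  have hF : Tendsto (Subtype.val : ι → ℝ × ℝ) F (𝓝 (0, 0)) := tendsto_comap
  have hF1 : Tendsto (fun p : ι => p.1.1) F (𝓝 0) :=
    (continuous_fst.tendsto ((0 : ℝ), (0 : ℝ))).comp hF
  have hF2 : Tendsto (fun p : ι => p.1.2) F (𝓝 0) :=
    (continuous_snd.tendsto ((0 : ℝ), (0 : ℝ))).comp hF
  let τ : Fin 2 → ι → ℝ := ![fun p => p.1.1, fun p => p.1.2]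
  have hP : ∀ l : Fin 2, Pert ρ (⇑f) F (fun k x => f x + τ l k * g x) (fun _ => ⇑f)
      (fun _ => ⇑g) (τ l) (fun k => |τ l k| * ‖g‖) ‖g‖ := by
    intro l
    refine pert_line f g F (τ l) ?_ ?_ le_rfl
    · fin_cases l
      · exact fun k => k.2.1
      · exact fun k => k.2.2
    · fin_cases l
      · exact hF1
      · exact hF2
  have h1 := key (c := ![(1 : ℝ), -1]) hP (norm_nonneg g)
    (by intro k x; simp [Fin.sum_univ_two]) hρ hsep f.continuous m hC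
  intro ε hε
  obtain ⟨δ, hδ, h2⟩ := of_comap2 h1 ε hε
  refine ⟨δ, hδ, fun s t hs ht hsδ htδ => ?_⟩
  have h3 := h2 s t hs ht hsδ htδ
  have h4 : EE ρ ![(1 : ℝ), -1] (fun (l : Fin 2) (k : ι) x => f x + τ l k * g x)
      (fun (_ : Fin 2) (_ : ι) => ⇑f) τ m C ⟨(s, t), hs, ht⟩
      = qq ρ f m C g s - qq ρ f m C g t := by
    simp only [EE, Fin.sum_univ_two, qq]
    simp [τ]
    ring
  rw [← h4]
  exact h3

theorem qq_lim (hρ : Lev ρ) (hsep : Sep ρ) (f : C(K, ℝ)) (m : ℕ) {C : Set K}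
    (hC : Good ρ C) (g : C(K, ℝ)) :
    ∃ d, Tendsto (qq ρ f m C g) (𝓝[≠] 0) (𝓝 d) := by
  rw [← cauchy_map_iff_exists_tendsto, Metric.cauchy_iff]
  refine ⟨inferInstance, fun ε hε => ?_⟩
  obtain ⟨δ, hδ, h⟩ := qq_cauchy hρ hsep f m hC g ε hε
  refine ⟨qq ρ f m C g '' {t | t ≠ 0 ∧ |t| < δ}, ?_, ?_⟩
  · refine Filter.image_mem_map ?_
    rw [mem_nhdsWithin]
    refine ⟨Metric.ball 0 δ, Metric.isOpen_ball, Metric.mem_ball_self hδ, ?_⟩
    rintro t ⟨ht1, ht2⟩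
    refine ⟨ht2, ?_⟩
    rwa [Metric.mem_ball, Real.dist_eq, sub_zero] at ht1
  · rintro _ ⟨s, ⟨hs, hsδ⟩, rfl⟩ _ ⟨t, ⟨ht, htδ⟩, rfl⟩
    rw [Real.dist_eq]
    exact h s t hs ht hsδ htδ

theorem qq_add (hρ : Lev ρ) (hsep : Sep ρ) (f : C(K, ℝ)) (m : ℕ) {C : Set K}
    (hC : Good ρ C) (g g' : C(K, ℝ)) :
    Tendsto (fun t => qq ρ f m C (g + g') t - qq ρ f m C g t - qq ρ f m C g' t) (𝓝[≠] 0)
      (𝓝 0) := by
  let ι := {t : ℝ // t ≠ 0}
  let F : Filter ι := comap Subtype.val (𝓝 (0 : ℝ))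
  have hF : Tendsto (Subtype.val : ι → ℝ) F (𝓝 0) := tendsto_comap
  let G : Fin 3 → C(K, ℝ) := ![g + g', g, g']
  let B : ℝ := ‖g + g'‖ + ‖g‖ + ‖g'‖
  have hB : 0 ≤ B := by positivity
  have hG : ∀ l, ‖G l‖ ≤ B := by
    intro l
    have h1 := norm_nonneg (g + g')
    have h2 := norm_nonneg g
    have h3 := norm_nonneg g'
    fin_cases l
    · change ‖g + g'‖ ≤ ‖g + g'‖ + ‖g‖ + ‖g'‖; linarith
    · change ‖g‖ ≤ ‖g + g'‖ + ‖g‖ + ‖g'‖; linarith
    · change ‖g'‖ ≤ ‖g + g'‖ + ‖g‖ + ‖g'‖; linarith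
  have hP : ∀ l : Fin 3, Pert ρ (⇑f) F (fun k x => f x + k.1 * G l x) (fun _ => ⇑f)
      (fun _ => ⇑(G l)) (fun k => k.1) (fun k => |k.1| * B) B := fun l =>
    pert_line f (G l) F (fun k => k.1) (fun k => k.2) hF (hG l)
  have h1 := key (c := ![(1 : ℝ), -1, -1]) hP hB
    (by intro k x; simp [Fin.sum_univ_three, G]) hρ hsep f.continuous m hC
  rw [Metric.tendsto_nhdsWithin_nhds]
  intro ε hε
  obtain ⟨δ, hδ, h2⟩ := of_comap1 h1 ε hε
  refine ⟨δ, hδ, fun t ht htδ => ?_⟩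
  rw [Real.dist_eq, sub_zero] at htδ
  have h3 := h2 t ht htδ
  have h4 : EE ρ ![(1 : ℝ), -1, -1] (fun (l : Fin 3) (k : ι) x => f x + k.1 * G l x)
      (fun (_ : Fin 3) (_ : ι) => ⇑f) (fun _ k => k.1) m C ⟨t, ht⟩
      = qq ρ f m C (g + g') t - qq ρ f m C g t - qq ρ f m C g' t := by
    simp only [EE, Fin.sum_univ_three, qq]
    simp [G]
    ring
  rw [Real.dist_eq, sub_zero, ← h4]
  exact h3

theorem qq_smul (f : C(K, ℝ)) (m : ℕ) (C : Set K) (g : C(K, ℝ)) {c : ℝ} (hc : c ≠ 0) (t : ℝ) :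
    qq ρ f m C (c • g) t = c * qq ρ f m C g (c * t) := by
  unfold qq
  have h1 : (fun x => f x + t * (c • g) x) = fun x => f x + c * t * g x := by
    funext x
    simp only [ContinuousMap.coe_smul, Pi.smul_apply, smul_eq_mul]
    ring
  rw [h1]
  rcases eq_or_ne t 0 with rfl | ht
  · simp
  · field_simp

theorem abs_qq_le (f : C(K, ℝ)) (m : ℕ) (C : Set K) (g : C(K, ℝ)) {t : ℝ} (ht : t ≠ 0) :
    |qq ρ f m C g t| ≤ 2 * ‖g‖ := by
  unfold qq
  have h1 := V_lip ρ (fun x => f x + t * g x) (⇑f) (e := |t| * ‖g‖) (by positivity)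
    (fun x => by
      have h2 : f x + t * g x - f x = t * g x := by ring
      rw [h2, abs_mul]
      have := g.norm_coe_le_norm x
      rw [Real.norm_eq_abs] at this
      exact mul_le_mul_of_nonneg_left this (abs_nonneg _)) m C
  rw [abs_div, div_le_iff₀ (abs_pos.2 ht)]
  refine h1.trans (le_of_eq ?_)
  ring

theorem gateaux (hρ : Lev ρ) (hsep : Sep ρ) (f : C(K, ℝ)) (m : ℕ) {C : Set K} (hC : Good ρ C) :
    ∃ D : C(K, ℝ) →L[ℝ] ℝ, ∀ g : C(K, ℝ),
      HasDerivAt (fun t : ℝ => V ρ (⇑(f + t • g)) m C) (D g) 0 := by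
  choose D hD using qq_lim hρ hsep f m hC
  have hadd : ∀ g g', D (g + g') = D g + D g' := by
    intro g g'
    have h1 := ((hD (g + g')).sub (hD g)).sub (hD g')
    have h2 := tendsto_nhds_unique h1 (qq_add hρ hsep f m hC g g')
    linarith
  have hsmul : ∀ (c : ℝ) g, D (c • g) = c * D g := by
    intro c g
    rcases eq_or_ne c 0 with rfl | hc
    · have h1 : Tendsto (qq ρ f m C ((0 : ℝ) • g)) (𝓝[≠] 0) (𝓝 0) := by
        have : qq ρ f m C ((0 : ℝ) • g) = fun _ => 0 := by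
          funext t
          simp [qq]
        rw [this]
        exact tendsto_const_nhds
      rw [tendsto_nhds_unique (hD ((0 : ℝ) • g)) h1, zero_mul]
    · have h1 : Tendsto (fun t : ℝ => c * t) (𝓝[≠] 0) (𝓝[≠] 0) := by
        refine tendsto_nhdsWithin_of_tendsto_nhds_of_eventually_within _ ?_ ?_
        · have : Tendsto (fun t : ℝ => c * t) (𝓝 0) (𝓝 (c * 0)) :=
            (continuous_const.mul continuous_id).tendsto 0
          rw [mul_zero] at this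
          exact this.mono_left nhdsWithin_le_nhds
        · filter_upwards [self_mem_nhdsWithin] with t ht
          exact mul_ne_zero hc ht
      have h2 := ((hD g).comp h1).const_mul c
      refine tendsto_nhds_unique (hD (c • g)) (h2.congr fun t => ?_)
      rw [qq_smul f m C g hc t]
      rfl
  have hbd : ∀ g, ‖D g‖ ≤ 2 * ‖g‖ := by
    intro g
    rw [Real.norm_eq_abs]
    refine le_of_tendsto (hD g).abs ?_
    filter_upwards [self_mem_nhdsWithin] with t ht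
    exact abs_qq_le f m C g ht
  refine ⟨LinearMap.mkContinuous { toFun := D, map_add' := hadd, map_smul' := hsmul } 2 hbd,
    fun g => ?_⟩
  rw [hasDerivAt_iff_tendsto_slope_zero]
  refine (hD g).congr fun t => ?_
  have h1 : (⇑(f + (0 + t) • g) : K → ℝ) = fun x => f x + t * g x := by
    funext x
    simp
  have h2 : (⇑(f + (0 : ℝ) • g) : K → ℝ) = ⇑f := by
    funext x
    simp
  rw [h1, h2, smul_eq_mul, qq]
  ring

end

end Pool.Agent.H66B
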