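import Pool.Agent.H66B.VProp
import Pool.Agent.H66B.LexTop

/-!
# H66B/Index: an index that sees `z` (imports VProp, LexTop)

`T ρ n z` is closed, hence compact.  If it is empty, `V ρ f i ∅ = 0 < ph (f z)` for every `i`; take
`i` from `exists_nu n one_pos`.  If it is nonempty, the continuous function `ph ∘ f` attains its
maximum `c` on it, `0 ≤ c < ph (f z)`; take `i` with `nu i = n` and `w i < ph (f z) - c`
(`exists_nu`); then `V ρ f i (T ρ n z) ≤ c + w i < ph (f z)` by `V_le`.
-/

set_option autoImplicit false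

namespace Pool.Agent.H66B

open Set Filter Topology

theorem exists_index {K : Type} [TopologicalSpace K] [CompactSpace K] {ρ : ℕ → K → Ordinal.{0}}
    {f : K → ℝ} (hρ : Lev ρ) (hf : Continuous f) (n : ℕ) {z : K} (hz : 0 < ph (f z))
    (h : ∀ y ∈ T ρ n z, ph (f y) < ph (f z)) :
    ∃ i, nu i = n ∧ V ρ f i (T ρ n z) < ph (f z) := by
  have hTc : IsCompact (T ρ n z) := (isClosed_T hρ n z).isCompact
  rcases (T ρ n z).eq_empty_or_nonempty with he | hne
  · obtain ⟨i, hi, -⟩ := exists_nu n one_pos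
    exact ⟨i, hi, by rw [he, V_empty]; exact hz⟩
  · have hac : Continuous (fun x => ph (f x)) := continuous_ph.comp hf
    obtain ⟨y, hy, hymax⟩ := hTc.exists_isMaxOn hne hac.continuousOn
    have hymax' : ∀ u ∈ T ρ n z, ph (f u) ≤ ph (f y) := fun u hu => hymax hu
    obtain ⟨i, hi, hw⟩ := exists_nu n (sub_pos.2 (h y hy))
    refine ⟨i, hi, ?_⟩
    have h1 := V_le ρ f (ph_nonneg (f y)) hymax' i
    linarith

end Pool.Agent.H66B
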