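import Pool.Agent.H66B.ExpC

/-!
# H66B/KeyA: the defect at a fixed parameter is halved (imports ExpC)

Let `A k l = dph (f x0) * g l k x0`; `∑ l, c l * A k l = dph (f x0) * ∑ l, c l * g l k x0 = 0`.
Hence, with `θ i = dth (ph (f x0) - V ρ f i (T ρ (nu i) x0)) ∈ [0,1]` and `Ti = T ρ (nu i) x0`,
`∑ l, c l * Lin .. = s * ∑' i, w i * θ i * (∑ l, c l * A k l - EE i Ti k) = - s ∑' w i θ i EE i Ti k`
(finite sum of summable series, `tsum_mul_left`, `Summable.tsum_finsetSum`; everything is bounded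
by a constant times `w i`, see `V_quot_le`).

By `hR` for the good set `Ti` (`good_T`), `max (|EE i Ti k| - R) 0 → 0` along `F` for each `i`, and
it is bounded by `M = ∑ l |c l| * 2 B`; so `∑' w i max (|EE i Ti k| - R) 0 → 0`
(`tendsto_tsum_of_dominated_convergence`).  So eventually
`|∑ l, c l * Lin ..| ≤ s * ∑' w i |EE i Ti k| ≤ s (R + η) ≤ (R + η)/2`.
Together with `exp_S` for each `l` (finite sum of functions tending to `0`), this gives the claim
(use `η` for both parts: `(R+η)/2 + η/2 = R/2 + η`).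
-/

set_option autoImplicit false

namespace Pool.Agent.H66B

open Set Filter Topology

theorem key_fixed {K : Type} [TopologicalSpace K] [CompactSpace K] {ρ : ℕ → K → Ordinal.{0}}
    {f : K → ℝ} {ι : Type} {F : Filter ι} {L : Type} [Fintype L] {c : L → ℝ}
    {y z g : L → ι → K → ℝ} {h δ : L → ι → ℝ} {B : ℝ}
    (hP : ∀ l, Pert ρ f F (y l) (z l) (g l) (h l) (δ l) B)
    (hB : 0 ≤ B) (hsum : ∀ k x, ∑ l, c l * g l k x = 0) (hρ : Lev ρ) (hf : Continuous f)
    {C : Set K} (hC : Good ρ C) (hpos : ∃ u ∈ C, 0 < ph (f u)) {s : ℝ} (hs : 0 < s)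
    (hs1 : s ≤ 1 / 2) {x0 : K} (hx0 : UniqMax ρ f C s x0) {R : ℝ} (hR0 : 0 ≤ R)
    (hR : Bd ρ F c y z h R) {η : ℝ} (hη : 0 < η) :
    ∀ᶠ k in F, |∑ l, c l * ((S ρ (y l k) (V ρ (y l k)) C s - S ρ (z l k) (V ρ (z l k)) C s)
      / h l k)| ≤ R / 2 + η := by
  classical
  -- notation
  set Ti : ℕ → Set K := fun i => T ρ (nu i) x0 with hTi
  set θ : ℕ → ℝ := fun i => dth (ph (f x0) - V ρ f i (Ti i)) with hθ
  set q : L → ι → ℕ → ℝ := fun l k i => (V ρ (y l k) i (Ti i) - V ρ (z l k) i (Ti i)) / h l k with hq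
  set A : L → ι → ℝ := fun l k => dph (f x0) * g l k x0 with hA
  have hθ0 : ∀ i, 0 ≤ θ i := fun i => dth_nonneg _
  have hθ1 : ∀ i, θ i ≤ 1 := fun i => dth_le_one _
  have hqB : ∀ l k i, |q l k i| ≤ 2 * B := fun l k i => V_quot_le (hP l) hB i (Ti i) k
  have hAB : ∀ l k, |A l k| ≤ B := by
    intro l k
    rw [hA]
    simp only
    rw [abs_mul]
    calc |dph (f x0)| * |g l k x0| ≤ 1 * B :=
          mul_le_mul (abs_dph_le _) ((hP l).gB k x0) (abs_nonneg _) zero_le_one
      _ = B := one_mul B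
  have hA0 : ∀ k, ∑ l, c l * A l k = 0 := by
    intro k
    have : ∑ l, c l * A l k = dph (f x0) * ∑ l, c l * g l k x0 := by
      rw [Finset.mul_sum]
      refine Finset.sum_congr rfl (fun l _ => ?_)
      rw [hA]
      ring
    rw [this, hsum, mul_zero]
  -- summability
  have hsm : ∀ l k, Summable (fun i => w i * (θ i * (A l k - q l k i))) := by
    intro l k
    refine Summable.of_norm_bounded (summable_w.mul_right (3 * B)) (fun i => ?_)
    rw [Real.norm_eq_abs, abs_mul, abs_of_pos (w_pos i), abs_mul, abs_of_nonneg (hθ0 i)]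
    refine mul_le_mul_of_nonneg_left ?_ (w_pos i).le
    have h1 : |A l k - q l k i| ≤ 3 * B := by
      refine (abs_sub _ _).trans ?_
      linarith [hAB l k, hqB l k i]
    calc θ i * |A l k - q l k i| ≤ 1 * (3 * B) :=
          mul_le_mul (hθ1 i) h1 (abs_nonneg _) zero_le_one
      _ = 3 * B := one_mul _
  have hLin : ∀ l k, Lin ρ f s x0 (g l k) (y l k) (z l k) (h l k) =
      A l k + s * ∑' i, w i * (θ i * (A l k - q l k i)) := fun l k => rfl
  -- the sum of the expansions
  set E : ℕ → ι → ℝ := fun i k => EE ρ c y z h i (Ti i) k with hE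
  have hEq : ∀ i k, E i k = ∑ l, c l * q l k i := fun i k => rfl
  have hsumLin : ∀ k, ∑ l, c l * Lin ρ f s x0 (g l k) (y l k) (z l k) (h l k) =
      s * ∑' i, -(w i * (θ i * E i k)) := by
    intro k
    have h1 : ∑ l, c l * Lin ρ f s x0 (g l k) (y l k) (z l k) (h l k) =
        ∑ l, c l * A l k + s * ∑ l, ∑' i, c l * (w i * (θ i * (A l k - q l k i))) := by
      rw [Finset.mul_sum, ← Finset.sum_add_distrib]
      refine Finset.sum_congr rfl (fun l _ => ?_)
      rw [hLin, tsum_mul_left]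
      ring
    rw [h1, hA0, zero_add, ← Summable.tsum_finsetSum (fun l _ => (hsm l k).mul_left (c l))]
    congr 1
    refine tsum_congr (fun i => ?_)
    have h2 : ∑ l, c l * (w i * (θ i * (A l k - q l k i))) =
        w i * (θ i * (∑ l, c l * A l k - ∑ l, c l * q l k i)) := by
      rw [← Finset.sum_sub_distrib, Finset.mul_sum, Finset.mul_sum]
      refine Finset.sum_congr rfl (fun l _ => ?_)
      ring
    rw [h2, hA0, hEq]
    ring
  -- bound on E
  set M : ℝ := ∑ l, |c l| * (2 * B) with hM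
  have hEM : ∀ i k, |E i k| ≤ M := by
    intro i k
    rw [hEq]
    refine (Finset.abs_sum_le_sum_abs _ _).trans (Finset.sum_le_sum (fun l _ => ?_))
    rw [abs_mul]
    exact mul_le_mul_of_nonneg_left (hqB l k i) (abs_nonneg _)
  have hM0 : 0 ≤ M := Finset.sum_nonneg (fun l _ => mul_nonneg (abs_nonneg _) (by linarith))
  set D : ι → ℕ → ℝ := fun k i => w i * max (|E i k| - R) 0 with hD
  have hDb : ∀ k i, ‖D k i‖ ≤ w i * M := by
    intro k i
    rw [hD]
    simp only
    rw [Real.norm_eq_abs, abs_of_nonneg (mul_nonneg (w_pos i).le (le_max_right _ _))]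
    refine mul_le_mul_of_nonneg_left ?_ (w_pos i).le
    refine max_le ?_ hM0
    linarith [hEM i k]
  have hDs : ∀ k, Summable (D k) := fun k =>
    Summable.of_norm_bounded (summable_w.mul_right M) (hDb k)
  have hDlim : Tendsto (fun k => ∑' i, D k i) F (𝓝 (∑' _i : ℕ, (0 : ℝ))) := by
    refine tendsto_tsum_of_dominated_convergence (summable_w.mul_right M) ?_
      (Filter.Eventually.of_forall (fun k i => hDb k i))
    intro i
    rw [Metric.tendsto_nhds]
    intro ε hε
    have h1 := hR i (Ti i) (good_T hρ (nu i) x0) (ε / 2) (by linarith)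
    filter_upwards [h1] with k hk
    rw [Real.dist_eq, sub_zero]
    have hw1 : w i ≤ 1 := (w_le i).trans (by norm_num)
    have hm : max (|E i k| - R) 0 ≤ ε / 2 := max_le (by linarith) (by linarith)
    have hm0 : 0 ≤ max (|E i k| - R) 0 := le_max_right _ _
    rw [hD]
    simp only
    rw [abs_of_nonneg (mul_nonneg (w_pos i).le hm0)]
    calc w i * max (|E i k| - R) 0 ≤ 1 * (ε / 2) :=
          mul_le_mul hw1 hm hm0 zero_le_one
      _ < ε := by linarith
  rw [tsum_zero] at hDlim
  -- bound of the linear part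
  have hlinb : ∀ k, |∑ l, c l * Lin ρ f s x0 (g l k) (y l k) (z l k) (h l k)| ≤
      (R + ∑' i, D k i) / 2 := by
    intro k
    rw [hsumLin, abs_mul, abs_of_pos hs]
    have hb : ∀ i, ‖-(w i * (θ i * E i k))‖ ≤ w i * R + D k i := by
      intro i
      rw [norm_neg, Real.norm_eq_abs, abs_mul, abs_of_pos (w_pos i), abs_mul,
        abs_of_nonneg (hθ0 i), hD]
      simp only
      rw [← mul_add]
      refine mul_le_mul_of_nonneg_left ?_ (w_pos i).le
      have h1 : |E i k| ≤ R + max (|E i k| - R) 0 := by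
        have := le_max_left (|E i k| - R) 0
        linarith
      calc θ i * |E i k| ≤ 1 * |E i k| := mul_le_mul_of_nonneg_right (hθ1 i) (abs_nonneg _)
        _ = |E i k| := one_mul _
        _ ≤ _ := h1
    have hsb : Summable (fun i => w i * R + D k i) := (summable_w.mul_right R).add (hDs k)
    have h1 : ‖∑' i, -(w i * (θ i * E i k))‖ ≤ ∑' i, (w i * R + D k i) :=
      tsum_of_norm_bounded hsb.hasSum hb
    rw [Real.norm_eq_abs] at h1
    rw [Summable.tsum_add (summable_w.mul_right R) (hDs k), tsum_mul_right, tsum_w, one_mul] at h1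
    have h0 : 0 ≤ |∑' i, -(w i * (θ i * E i k))| := abs_nonneg _
    nlinarith
  -- the error of the expansions
  have herr : Tendsto (fun k => ∑ l, c l *
      ((S ρ (y l k) (V ρ (y l k)) C s - S ρ (z l k) (V ρ (z l k)) C s) / h l k
        - Lin ρ f s x0 (g l k) (y l k) (z l k) (h l k))) F (𝓝 0) := by
    have h1 : Tendsto (fun k => ∑ l, c l *
      ((S ρ (y l k) (V ρ (y l k)) C s - S ρ (z l k) (V ρ (z l k)) C s) / h l k
        - Lin ρ f s x0 (g l k) (y l k) (z l k) (h l k))) F (𝓝 (∑ l, c l * 0)) := by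
      refine tendsto_finset_sum _ (fun l _ => ?_)
      exact (exp_S (hP l) hB hρ hf hC hpos hs (by linarith) hx0).const_mul (c l)
    simpa using h1
  have h1 := (Metric.tendsto_nhds.1 herr) (η / 2) (by linarith)
  have h2 := (Metric.tendsto_nhds.1 hDlim) η hη
  filter_upwards [h1, h2] with k hk1 hk2
  rw [Real.dist_eq, sub_zero] at hk1 hk2
  have h3 := hlinb k
  have h4 : ∑ l, c l * ((S ρ (y l k) (V ρ (y l k)) C s - S ρ (z l k) (V ρ (z l k)) C s) / h l k) =
      ∑ l, c l * ((S ρ (y l k) (V ρ (y l k)) C s - S ρ (z l k) (V ρ (z l k)) C s) / h l k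
        - Lin ρ f s x0 (g l k) (y l k) (z l k) (h l k)) +
      ∑ l, c l * Lin ρ f s x0 (g l k) (y l k) (z l k) (h l k) := by
    rw [← Finset.sum_add_distrib]
    refine Finset.sum_congr rfl (fun l _ => ?_)
    ring
  rw [h4]
  refine (abs_add_le _ _).trans ?_
  have h5 := le_abs_self (∑' i, D k i)
  linarith

end Pool.Agent.H66B
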