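import Pool.Agent.H66B.KeyA
import Pool.Agent.H66B.AeUniq

/-!
# H66B/KeyB: the defect halves (imports KeyA, AeUniq)

* `EE_le`: `|EE ρ c y z h m C k| ≤ ∑ l, |c l| * (2 * B)` (`V_quot_le`).
* `bd_step`: let `C` be good, `m` given.
  Case 1: `∃ u ∈ C, 0 < ph (f u)`.  By `V_fix` and linearity of the integral
  `EE m C k = ∫ t in 0..1, G k t`, `G k t = ∑ l, c l * ((S ρ (y l k) (V ..) C (w m * t) -`
  `S ρ (z l k) (V ..) C (w m * t)) / h l k)` (the functions are continuous in `t`,
  `continuous_S`).  `|G k t| ≤ M := ∑ l, |c l| * (4 B)` for `t ∈ [0,1]` (`S_diff` with `C0 = univ`,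
  `δ = |h| B`, `d = 2 |h| B`, `s ≤ 1`).  Hence
  `|EE m C k| ≤ ∫ t in 0..1, |G k t| ≤ R/2 + ∫ t in 0..1, max (|G k t| - R/2) 0`.
  For almost every `t ∈ (0,1]` there is a unique maximizer (`ae_uniq`), so by `key_fixed`
  (`s = w m * t ∈ (0, 1/2]`) `max (|G k t| - R/2) 0 → 0` along `F`; dominated convergence
  (`intervalIntegral.tendsto_integral_filter_of_dominated_convergence`, bound `M`, `F` countably
  generated) gives that the last integral tends to `0`.
  Case 2: `ph (f u) = 0`, so `f u = 0` (`ph_eq_zero`, `ph_nonneg`), for all `u ∈ C`.  For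
  `x ∈ C`: `|ph (y x) - ph (z x)| ≤ |y x - z x| (|y x| + |z x|) ≤ |h| B * 2 δ` (`ph_lip_loc`), so by
  `V_lip_on` (`C0 = C`) `|(V (y) m C - V (z) m C)/h| ≤ 4 B δ → 0`, so `EE m C k → 0` and
  eventually `|EE m C k| ≤ η ≤ R/2 + η`.
-/

set_option autoImplicit false

namespace Pool.Agent.H66B

open Set Filter Topology

variable {K : Type} [TopologicalSpace K] {ρ : ℕ → K → Ordinal.{0}}
  {f : K → ℝ} {ι : Type} {F : Filter ι} {L : Type} [Fintype L] {c : L → ℝ}
  {y z g : L → ι → K → ℝ} {h δ : L → ι → ℝ} {B : ℝ}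

theorem EE_le (hP : ∀ l, Pert ρ f F (y l) (z l) (g l) (h l) (δ l) B) (hB : 0 ≤ B) (m : ℕ)
    (C : Set K) (k : ι) : |EE ρ c y z h m C k| ≤ ∑ l, |c l| * (2 * B) := by
  unfold EE
  refine (Finset.abs_sum_le_sum_abs _ _).trans (Finset.sum_le_sum fun l _ => ?_)
  rw [abs_mul]
  exact mul_le_mul_of_nonneg_left (V_quot_le (hP l) hB m C k) (abs_nonneg _)

/-- the integrand of the defect -/
noncomputable def GG (ρ : ℕ → K → Ordinal.{0}) (c : L → ℝ) (y z : L → ι → K → ℝ)
    (h : L → ι → ℝ) (m : ℕ) (C : Set K) (k : ι) (t : ℝ) : ℝ :=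
  ∑ l, c l * ((S ρ (y l k) (V ρ (y l k)) C (w m * t) - S ρ (z l k) (V ρ (z l k)) C (w m * t))
      / h l k)

omit [TopologicalSpace K] in
theorem continuous_GG (m : ℕ) (C : Set K) (k : ι) : Continuous (GG ρ c y z h m C k) := by
  unfold GG
  refine continuous_finset_sum _ fun l _ => ?_
  have h1 : Continuous fun t : ℝ => w m * t := by fun_prop
  have h2 := (continuous_S ρ (y l k) (V ρ (y l k)) C).comp h1
  have h3 := (continuous_S ρ (z l k) (V ρ (z l k)) C).comp h1
  simp only [Function.comp_def] at h2 h3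
  exact continuous_const.mul ((h2.sub h3).div_const _)

omit [TopologicalSpace K] in
theorem EE_eq_integral (m : ℕ) (C : Set K) (k : ι) :
    EE ρ c y z h m C k = ∫ t in (0 : ℝ)..1, GG ρ c y z h m C k t := by
  unfold EE GG
  have h1 : Continuous fun t : ℝ => w m * t := by fun_prop
  have hS : ∀ f : K → ℝ, IntervalIntegrable (fun t => S ρ f (V ρ f) C (w m * t))
      MeasureTheory.volume 0 1 := by
    intro f
    have h2 := (continuous_S ρ f (V ρ f) C).comp h1
    simp only [Function.comp_def] at h2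
    exact h2.intervalIntegrable _ _
  rw [intervalIntegral.integral_finset_sum]
  · refine Finset.sum_congr rfl fun l _ => ?_
    rw [intervalIntegral.integral_const_mul, intervalIntegral.integral_div,
      intervalIntegral.integral_sub (hS _) (hS _)]
    congr 3
    · rw [V_fix]; rfl
    · rw [V_fix]; rfl
  · intro l _
    exact (((hS _).sub (hS _)).div_const _).const_mul _

theorem GG_le (hP : ∀ l, Pert ρ f F (y l) (z l) (g l) (h l) (δ l) B) (hB : 0 ≤ B) (m : ℕ)
    (C : Set K) (k : ι) {t : ℝ} (ht0 : 0 ≤ t) (ht1 : t ≤ 1) :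
    |GG ρ c y z h m C k t| ≤ ∑ l, |c l| * (4 * B) := by
  unfold GG
  refine (Finset.abs_sum_le_sum_abs _ _).trans (Finset.sum_le_sum fun l _ => ?_)
  rw [abs_mul]
  refine mul_le_mul_of_nonneg_left ?_ (abs_nonneg _)
  have hs0 : 0 ≤ w m * t := mul_nonneg (w_pos m).le ht0
  have hs1 : w m * t ≤ 1 := by
    have := w_le m
    nlinarith [w_pos m]
  have he : 0 ≤ |h l k| * B := mul_nonneg (abs_nonneg _) hB
  have hyz : ∀ x, |y l k x - z l k x| ≤ |h l k| * B := by
    intro x
    rw [(hP l).sub k x, abs_mul]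
    exact mul_le_mul_of_nonneg_left ((hP l).gB k x) (abs_nonneg _)
  have h1 := S_diff ρ (y l k) (z l k) (V ρ (y l k)) (V ρ (z l k)) (C0 := Set.univ)
    (δ := |h l k| * B) (d := 2 * (|h l k| * B)) he (by positivity) (fun _ _ _ => Set.subset_univ _)
    (fun x _ => (ph_lip _ _).trans (hyz x))
    (fun i C _ => V_lip ρ (y l k) (z l k) he hyz i C) (Set.subset_univ C) hs0
  rw [abs_div, div_le_iff₀ (abs_pos.2 ((hP l).hne k))]
  refine h1.trans ?_
  nlinarith

theorem bd_step [CompactSpace K] [F.IsCountablyGenerated]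
    (hP : ∀ l, Pert ρ f F (y l) (z l) (g l) (h l) (δ l) B)
    (hB : 0 ≤ B) (hsum : ∀ k x, ∑ l, c l * g l k x = 0) (hρ : Lev ρ) (hsep : Sep ρ)
    (hf : Continuous f) {R : ℝ} (hR0 : 0 ≤ R) (hR : Bd ρ F c y z h R) :
    Bd ρ F c y z h (R / 2) := by
  intro m C hC η hη
  by_cases hpos : ∃ u ∈ C, 0 < ph (f u)
  · have hlim : Tendsto (fun k => ∫ t in (0 : ℝ)..1, max (|GG ρ c y z h m C k t| - R / 2) 0) F
        (𝓝 (∫ _ in (0 : ℝ)..1, (0 : ℝ))) := by
      refine intervalIntegral.tendsto_integral_filter_of_dominated_convergence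
        (fun _ => ∑ l, |c l| * (4 * B)) ?_ ?_ ?_ ?_
      · refine Filter.Eventually.of_forall fun k => ?_
        exact (((continuous_GG m C k).abs.sub continuous_const).max
          continuous_const).aestronglyMeasurable
      · refine Filter.Eventually.of_forall fun k => Filter.Eventually.of_forall fun t ht => ?_
        rw [Set.uIoc_of_le zero_le_one] at ht
        have h1 := GG_le (c := c) hP hB m C k ht.1.le ht.2
        rw [Real.norm_eq_abs, abs_of_nonneg (le_max_right _ _)]
        refine max_le ?_ ((abs_nonneg _).trans h1)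
        linarith
      · exact intervalIntegrable_const
      · filter_upwards [ae_uniq hρ hsep hf hC hpos m] with t ht hmem
        rw [Set.uIoc_of_le zero_le_one] at hmem
        obtain ⟨x0, hx0⟩ := ht hmem
        have hs0 : 0 < w m * t := mul_pos (w_pos m) hmem.1
        have hs1 : w m * t ≤ 1 / 2 := by
          have := w_le m
          nlinarith [w_pos m, hmem.1, hmem.2]
        rw [Metric.tendsto_nhds]
        intro ε hε
        filter_upwards [key_fixed hP hB hsum hρ hf hC hpos hs0 hs1 hx0 hR0 hR (half_pos hε)]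
          with k hk
        have hk' : |GG ρ c y z h m C k t| ≤ R / 2 + ε / 2 := hk
        rw [Real.dist_eq, sub_zero, abs_of_nonneg (le_max_right _ _)]
        refine max_lt ?_ hε
        linarith
    rw [intervalIntegral.integral_zero] at hlim
    filter_upwards [(Metric.tendsto_nhds.1 hlim) η hη] with k hk
    rw [Real.dist_eq, sub_zero] at hk
    rw [EE_eq_integral]
    have hc := continuous_GG (ρ := ρ) (c := c) (y := y) (z := z) (h := h) m C k
    have hi1 : IntervalIntegrable (fun t => |GG ρ c y z h m C k t|) MeasureTheory.volume 0 1 :=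
      hc.abs.intervalIntegrable _ _
    have hi2 : IntervalIntegrable (fun t => max (|GG ρ c y z h m C k t| - R / 2) 0)
        MeasureTheory.volume 0 1 :=
      ((hc.abs.sub continuous_const).max continuous_const).intervalIntegrable _ _
    have h1 : |∫ t in (0 : ℝ)..1, GG ρ c y z h m C k t|
        ≤ ∫ t in (0 : ℝ)..1, |GG ρ c y z h m C k t| :=
      intervalIntegral.abs_integral_le_integral_abs zero_le_one
    have h2 : ∫ t in (0 : ℝ)..1, |GG ρ c y z h m C k t|
        ≤ ∫ t in (0 : ℝ)..1, (R / 2 + max (|GG ρ c y z h m C k t| - R / 2) 0) := by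
      refine intervalIntegral.integral_mono_on zero_le_one hi1
        (intervalIntegrable_const.add hi2) fun t _ => ?_
      have := le_max_left (|GG ρ c y z h m C k t| - R / 2) 0
      linarith
    have h3 : ∫ t in (0 : ℝ)..1, (R / 2 + max (|GG ρ c y z h m C k t| - R / 2) 0)
        = R / 2 + ∫ t in (0 : ℝ)..1, max (|GG ρ c y z h m C k t| - R / 2) 0 := by
      rw [intervalIntegral.integral_add intervalIntegrable_const hi2]
      simp
    have h4 := (abs_lt.1 hk).2
    linarith
  · push_neg at hpos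
    have hf0 : ∀ u ∈ C, f u = 0 := fun u hu =>
      ph_eq_zero.1 (le_antisymm (hpos u hu) (ph_nonneg _))
    have hlim : Tendsto (fun k => ∑ l, |c l| * (4 * B * δ l k)) F (𝓝 0) := by
      have : Tendsto (fun k => ∑ l, |c l| * (4 * B * δ l k)) F
          (𝓝 (∑ l : L, |c l| * (4 * B * 0))) :=
        tendsto_finset_sum _ fun l _ => ((hP l).d0.const_mul _).const_mul _
      simpa using this
    filter_upwards [(Metric.tendsto_nhds.1 hlim) η hη] with k hk
    rw [Real.dist_eq, sub_zero] at hk
    have h1 : |EE ρ c y z h m C k| ≤ ∑ l, |c l| * (4 * B * δ l k) := by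
      unfold EE
      refine (Finset.abs_sum_le_sum_abs _ _).trans (Finset.sum_le_sum fun l _ => ?_)
      rw [abs_mul]
      refine mul_le_mul_of_nonneg_left ?_ (abs_nonneg _)
      have he : 0 ≤ |h l k| * B * (2 * δ l k) :=
        mul_nonneg (mul_nonneg (abs_nonneg _) hB) (by have := (hP l).dpos k; linarith)
      have h2 := V_lip_on ρ (y l k) (z l k) hC.2 he (fun x hx => by
        have hyz : |y l k x - z l k x| ≤ |h l k| * B := by
          rw [(hP l).sub k x, abs_mul]
          exact mul_le_mul_of_nonneg_left ((hP l).gB k x) (abs_nonneg _)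
        have hy : |y l k x| ≤ δ l k := by
          have := (hP l).dy k x
          rwa [hf0 x hx, sub_zero] at this
        have hz : |z l k x| ≤ δ l k := by
          have := (hP l).dz k x
          rwa [hf0 x hx, sub_zero] at this
        refine (ph_lip_loc _ _).trans ?_
        refine mul_le_mul hyz (by linarith) (by positivity)
          (mul_nonneg (abs_nonneg _) hB)) m (Set.Subset.refl C)
      rw [abs_div, div_le_iff₀ (abs_pos.2 ((hP l).hne k))]
      refine h2.trans (le_of_eq ?_)
      ring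
    have h2 := (abs_lt.1 hk).2
    linarith

end Pool.Agent.H66B
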