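import Pool.Agent.H66B.KeyB

/-!
# H66B/KeyC: the defect tends to zero (imports KeyB)

`Bd ρ F c y z h M` holds for `M = ∑ l, |c l| * (2 * B)` by `EE_le`.  By induction
`Bd .. (M / 2 ^ n)` for all `n` (`bd_step`).  Given `ε > 0` choose `n` with `M / 2 ^ n < ε/2` and
`η = ε/2`... so eventually `|EE m C k| < ε` (`Metric.tendsto_nhds` / `squeeze`).
-/

set_option autoImplicit false

namespace Pool.Agent.H66B

open Set Filter Topology

theorem key {K : Type} [TopologicalSpace K] [CompactSpace K] {ρ : ℕ → K → Ordinal.{0}}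
    {f : K → ℝ} {ι : Type} {F : Filter ι} [F.IsCountablyGenerated] {L : Type} [Fintype L]
    {c : L → ℝ} {y z g : L → ι → K → ℝ} {h δ : L → ι → ℝ} {B : ℝ}
    (hP : ∀ l, Pert ρ f F (y l) (z l) (g l) (h l) (δ l) B)
    (hB : 0 ≤ B) (hsum : ∀ k x, ∑ l, c l * g l k x = 0) (hρ : Lev ρ) (hsep : Sep ρ)
    (hf : Continuous f) (m : ℕ) {C : Set K} (hC : Good ρ C) :
    Tendsto (fun k => EE ρ c y z h m C k) F (𝓝 0) := by
  set M : ℝ := ∑ l, |c l| * (2 * B) with hM
  have hM0 : 0 ≤ M := Finset.sum_nonneg fun l _ => mul_nonneg (abs_nonneg _) (by linarith)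
  have hall : ∀ n : ℕ, Bd ρ F c y z h (M / 2 ^ n) := by
    intro n
    induction n with
    | zero =>
      intro m C hC η hη
      refine Filter.Eventually.of_forall fun k => ?_
      have := EE_le (c := c) hP hB m C k
      rw [pow_zero, div_one]
      linarith
    | succ n ih =>
      have h1 := bd_step hP hB hsum hρ hsep hf (by positivity : (0 : ℝ) ≤ M / 2 ^ n) ih
      have h2 : M / 2 ^ (n + 1) = M / 2 ^ n / 2 := by
        rw [pow_succ, div_div]
      rw [h2]
      exact h1
  rw [Metric.tendsto_nhds]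
  intro ε hε
  have hlim : Tendsto (fun n : ℕ => M / 2 ^ n) atTop (𝓝 0) := by
    have h1 := (tendsto_pow_atTop_nhds_zero_of_lt_one (r := (1 / 2 : ℝ)) (by norm_num)
      (by norm_num)).const_mul M
    rw [mul_zero] at h1
    refine h1.congr fun n => ?_
    rw [one_div, inv_pow, div_eq_mul_inv]
  obtain ⟨n, hn⟩ := ((Metric.tendsto_nhds.1 hlim) (ε / 2) (half_pos hε)).exists
  rw [Real.dist_eq, sub_zero, abs_of_nonneg (by positivity)] at hn
  filter_upwards [hall n m C hC (ε / 2) (half_pos hε)] with k hk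
  rw [Real.dist_eq, sub_zero]
  linarith

end Pool.Agent.H66B
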