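import Pool.Agent.H66B.Defs

/-!
# H66B/Lex: combinatorics of the lexicographic comparison `lt` (Defs only)

Everything is elementary; `lt ρ n x y` means: there is `k < n` with `ρ i x = ρ i y` for `i < k` and
`ρ k x < ρ k y`.

* `pt_lt`: take the least `j` with `ρ j x ≠ ρ j y` (it exists and is `≤ k`, `Nat.find`);
  then `ρ j x < ρ j y` because `ρ j x ≤ ρ j y`.
* `lt_trans'` (the second index is arbitrary!): `k` a witness of `lt n x y`, `j` a witness of
  `lt m y z`.  If `j ≤ k` then `j < n` and `j` is a witness of `lt n x z`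
  (`ρ j x ≤ ρ j y < ρ j z`); if `k < j` then `k` is a witness (`ρ k x < ρ k y = ρ k z`).
* `lt_cases` (negative transitivity): `k` a witness of `lt n x z`, `y` arbitrary.  Let `j` be the
  least index `≤ k` with `ρ j y ≠ ρ j x`, if there is one.  If there is none then `k` is a witness
  of `lt n y z`.  If `ρ j x < ρ j y` then `lt n x y`.  If `ρ j y < ρ j x` then `lt n y z`
  (`ρ j x ≤ ρ j z` since `j ≤ k`).
* `mem_T_cases`: `j` a witness of `lt n x z`; if `j < k` then `z ∈ T k x`; if `k ≤ j` the first `k`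
  coordinates of `x` and `z` agree and `T k z = T k x` by `T_congr`.
-/

set_option autoImplicit false

namespace Pool.Agent.H66B

open Set Filter Topology

variable {K : Type} {ρ : ℕ → K → Ordinal.{0}}

theorem lt_mono {n m : ℕ} (h : n ≤ m) {x y : K} (hxy : lt ρ n x y) : lt ρ m x y := by
  obtain ⟨k, hk, h1, h2⟩ := hxy
  exact ⟨k, hk.trans_le h, h1, h2⟩

theorem T_mono {n m : ℕ} (h : n ≤ m) (x : K) : T ρ n x ⊆ T ρ m x := fun _ hy => lt_mono h hy

theorem lt_irrefl (n : ℕ) (x : K) : ¬ lt ρ n x x := by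
  rintro ⟨k, -, -, h⟩
  exact absurd h (_root_.lt_irrefl _)

theorem T_zero (x : K) : T ρ 0 x = ∅ := by
  ext y
  simp [T, lt]

theorem pt_lt {n k : ℕ} (hk : k < n) {x y : K} (h : ∀ i ≤ k, ρ i x ≤ ρ i y)
    (h' : ρ k x < ρ k y) : lt ρ n x y := by
  classical
  have hex : ∃ j, ρ j x ≠ ρ j y := ⟨k, h'.ne⟩
  have hle : Nat.find hex ≤ k := Nat.find_min' hex h'.ne
  refine ⟨Nat.find hex, hle.trans_lt hk, fun i hi => ?_, ?_⟩
  · by_contra hne
    exact Nat.find_min hex hi hne
  · exact lt_of_le_of_ne (h _ hle) (Nat.find_spec hex)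

theorem lt_trans' {n m : ℕ} {x y z : K} (hxy : lt ρ n x y) (hyz : lt ρ m y z) : lt ρ n x z := by
  obtain ⟨k, hk, h1, h2⟩ := hxy
  obtain ⟨j, hj, h3, h4⟩ := hyz
  rcases le_or_gt j k with hjk | hkj
  · refine ⟨j, hjk.trans_lt hk, fun i hi => (h1 i (hi.trans_le hjk)).trans (h3 i hi), ?_⟩
    rcases hjk.lt_or_eq with h5 | h5
    · rw [h1 j h5]; exact h4
    · subst h5; exact h2.trans h4
  · refine ⟨k, hk, fun i hi => (h1 i hi).trans (h3 i (hi.trans hkj)), ?_⟩
    rw [← h3 k hkj]; exact h2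

theorem lt_cases {n : ℕ} {x z : K} (hxz : lt ρ n x z) (y : K) : lt ρ n x y ∨ lt ρ n y z := by
  classical
  obtain ⟨k, hk, h1, h2⟩ := hxz
  by_cases hex : ∃ j, ρ j y ≠ ρ j x ∧ j ≤ k
  · have hs := Nat.find_spec hex
    have hm : ∀ i < Nat.find hex, ρ i y = ρ i x := by
      intro i hi
      by_contra hne
      exact Nat.find_min hex hi ⟨hne, (hi.le).trans hs.2⟩
    set j := Nat.find hex with hj
    have hjz : ρ j x ≤ ρ j z := by
      rcases hs.2.lt_or_eq with h5 | h5
      · exact (h1 j h5).le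
      · rw [h5]; exact h2.le
    rcases lt_or_gt_of_ne hs.1 with h6 | h6
    · right
      exact ⟨j, hs.2.trans_lt hk, fun i hi => (hm i hi).trans (h1 i (hi.trans_le hs.2)),
        h6.trans_le hjz⟩
    · left
      exact ⟨j, hs.2.trans_lt hk, fun i hi => (hm i hi).symm, h6⟩
  · push Not at hex
    right
    have he : ∀ j ≤ k, ρ j y = ρ j x := by
      intro j hj
      by_contra hne
      exact absurd hj (not_le.2 (hex j hne))
    exact ⟨k, hk, fun i hi => (he i hi.le).trans (h1 i hi), by rw [he k le_rfl]; exact h2⟩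

theorem T_congr {k : ℕ} {x z : K} (h : ∀ i < k, ρ i z = ρ i x) : T ρ k z = T ρ k x := by
  ext y
  constructor
  · rintro ⟨j, hj, h1, h2⟩
    exact ⟨j, hj, fun i hi => by rw [← h i (hi.trans hj)]; exact h1 i hi,
      by rw [← h j hj]; exact h2⟩
  · rintro ⟨j, hj, h1, h2⟩
    exact ⟨j, hj, fun i hi => by rw [h i (hi.trans hj)]; exact h1 i hi,
      by rw [h j hj]; exact h2⟩

theorem mem_T_cases {n : ℕ} {x z : K} (h : z ∈ T ρ n x) (k : ℕ) :
    z ∈ T ρ k x ∨ T ρ k z = T ρ k x := by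
  obtain ⟨j, hj, h1, h2⟩ := h
  rcases lt_or_ge j k with hjk | hkj
  · exact Or.inl ⟨j, hjk, h1, h2⟩
  · exact Or.inr (T_congr fun i hi => (h1 i (hi.trans_le hkj)).symm)

theorem ne_cases (hsep : Sep ρ) {x y : K} (h : x ≠ y) : ∃ n, lt ρ n x y ∨ lt ρ n y x := by
  classical
  have hex : ∃ j, ρ j x ≠ ρ j y := by
    by_contra hne
    push Not at hne
    exact h (hsep x y hne)
  have hm : ∀ i < Nat.find hex, ρ i x = ρ i y := by
    intro i hi
    by_contra hne
    exact Nat.find_min hex hi hne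
  refine ⟨Nat.find hex + 1, ?_⟩
  rcases lt_or_gt_of_ne (Nat.find_spec hex) with h6 | h6
  · exact Or.inl ⟨_, Nat.lt_succ_self _, hm, h6⟩
  · exact Or.inr ⟨_, Nat.lt_succ_self _, fun i hi => (hm i hi).symm, h6⟩

end Pool.Agent.H66B
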