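import Pool.Agent.H66B.TermP

/-!
# H66B/SPhi: the supremum `S` and the operator `Phi` (imports TermP)

`S ρ f v C s = ⨆ x : C, val ρ f v s x` (real supremum over the subtype; it is `0` for `C = ∅`,
`Real.iSup_of_isEmpty`), `Phi ρ f v m C = ∫ t in 0..1, S ρ f v C (w m * t)`.

* `bddAbove_val`: `abs_val_le`.
* `S_lip`: for nonempty `C`, `val s x ≤ val s' x + |s - s'| ≤ S s' + |s-s'|` for `x ∈ C`; take the
  supremum (`ciSup_le`), and exchange the roles.
* `S_diff`: the same argument with `val_diff`.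
* `Phi_diff`: `∫ t in 0..1, (δ + w m * t * (δ + d)) = δ + w m * (δ + d) / 2 ≤ δ + (δ + d) / 4`
  since `w m ≤ 1/2`; use `intervalIntegral.integral_sub`, `intervalIntegral.norm_integral_le_...` or
  `intervalIntegral.integral_mono_on` for the upper bound of the absolute value
  (`intervalIntegral.abs_integral_le_integral_abs`).
-/

set_option autoImplicit false

namespace Pool.Agent.H66B

open Set Filter Topology

variable {K : Type} (ρ : ℕ → K → Ordinal.{0}) (f g : K → ℝ) (v u : ℕ → Set K → ℝ)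

theorem bddAbove_val (C : Set K) (s : ℝ) :
    BddAbove (Set.range (fun x : C => val ρ f v s x)) := by
  refine ⟨1 + |s|, ?_⟩
  rintro _ ⟨x, rfl⟩
  exact (le_abs_self _).trans (abs_val_le ρ f v s x)

theorem val_le_S {C : Set K} {x : K} (hx : x ∈ C) (s : ℝ) : val ρ f v s x ≤ S ρ f v C s := by
  unfold S
  exact le_ciSup (bddAbove_val ρ f v C s) (⟨x, hx⟩ : C)

theorem S_le {C : Set K} {s c : ℝ} (hc : 0 ≤ c) (h : ∀ x ∈ C, val ρ f v s x ≤ c) :
    S ρ f v C s ≤ c := by
  unfold S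
  exact Real.iSup_le (fun x => h x x.2) hc

theorem S_empty (s : ℝ) : S ρ f v ∅ s = 0 := by
  unfold S
  exact Real.iSup_of_isEmpty _

theorem S_nonneg {s : ℝ} (hs : 0 ≤ s) (C : Set K) : 0 ≤ S ρ f v C s := by
  unfold S
  exact Real.iSup_nonneg (fun x => val_nonneg ρ f v hs x)

theorem S_le_two {s : ℝ} (hs1 : s ≤ 1) (C : Set K) : S ρ f v C s ≤ 2 :=
  S_le ρ f v (by norm_num) (fun x _ => val_le_two ρ f v hs1 x)

theorem S_mono {C D : Set K} (h : C ⊆ D) {s : ℝ} (hs : 0 ≤ s) :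
    S ρ f v C s ≤ S ρ f v D s :=
  S_le ρ f v (S_nonneg ρ f v hs D) (fun _ hx => val_le_S ρ f v (h hx) s)

theorem S_eq_of_max {C : Set K} {x : K} {s : ℝ} (hx : x ∈ C)
    (h : ∀ y ∈ C, val ρ f v s y ≤ val ρ f v s x) : S ρ f v C s = val ρ f v s x := by
  refine le_antisymm ?_ (val_le_S ρ f v hx s)
  have : Nonempty C := ⟨⟨x, hx⟩⟩
  unfold S
  exact ciSup_le (fun y => h y y.2)

theorem S_lip (C : Set K) : LipschitzWith 1 (S ρ f v C) := by
  refine LipschitzWith.of_le_add ?_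
  intro s s'
  rcases C.eq_empty_or_nonempty with h | ⟨x0, hx0⟩
  · subst h
    rw [S_empty, S_empty, zero_add]
    exact dist_nonneg
  · have : Nonempty C := ⟨⟨x0, hx0⟩⟩
    have hle : ∀ x : C, val ρ f v s x ≤ S ρ f v C s' + dist s s' := by
      intro x
      have h1 := val_diff_s ρ f v s s' x
      have h2 := val_le_S ρ f v x.2 s'
      have h3 := (abs_le.1 h1).2
      rw [Real.dist_eq]
      linarith
    exact ciSup_le hle

theorem continuous_S (C : Set K) : Continuous (S ρ f v C) := (S_lip ρ f v C).continuous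

theorem S_diff {C0 : Set K} {δ d : ℝ} (hδ : 0 ≤ δ) (hd : 0 ≤ d)
    (hup : ∀ x ∈ C0, ∀ n, T ρ n x ⊆ C0)
    (hf : ∀ x ∈ C0, |ph (f x) - ph (g x)| ≤ δ) (hv : ∀ i, ∀ C ⊆ C0, |v i C - u i C| ≤ d)
    {C : Set K} (hC : C ⊆ C0) {s : ℝ} (hs : 0 ≤ s) :
    |S ρ f v C s - S ρ g u C s| ≤ δ + s * (δ + d) := by
  have hB : 0 ≤ δ + s * (δ + d) := by positivity
  rcases C.eq_empty_or_nonempty with h | ⟨x0, hx0⟩
  · subst h
    rw [S_empty, S_empty, sub_zero, abs_zero]
    exact hB
  · have : Nonempty C := ⟨⟨x0, hx0⟩⟩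
    have hle1 : ∀ x : C, val ρ f v s x ≤ S ρ g u C s + (δ + s * (δ + d)) := by
      intro x
      have h1 := (abs_le.1 (val_diff ρ f g v u hup hf hv hs (hC x.2))).2
      have h2 := val_le_S ρ g u x.2 s
      linarith
    have hle2 : ∀ x : C, val ρ g u s x ≤ S ρ f v C s + (δ + s * (δ + d)) := by
      intro x
      have h1 := (abs_le.1 (val_diff ρ f g v u hup hf hv hs (hC x.2))).1
      have h2 := val_le_S ρ f v x.2 s
      linarith
    have h1 : S ρ f v C s ≤ S ρ g u C s + (δ + s * (δ + d)) := ciSup_le hle1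
    have h2 : S ρ g u C s ≤ S ρ f v C s + (δ + s * (δ + d)) := ciSup_le hle2
    rw [abs_le]
    constructor <;> linarith

theorem continuous_S_mul (m : ℕ) (C : Set K) : Continuous (fun t : ℝ => S ρ f v C (w m * t)) :=
  (continuous_S ρ f v C).comp (continuous_const.mul continuous_id)

theorem Phi_nonneg (m : ℕ) (C : Set K) : 0 ≤ Phi ρ f v m C := by
  unfold Phi
  exact intervalIntegral.integral_nonneg zero_le_one
    (fun t ht => S_nonneg ρ f v (mul_nonneg (w_pos m).le ht.1) C)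

theorem Phi_le_two (m : ℕ) (C : Set K) : Phi ρ f v m C ≤ 2 := by
  unfold Phi
  have h : ∫ t in (0 : ℝ)..1, S ρ f v C (w m * t) ≤ ∫ _t in (0 : ℝ)..1, (2 : ℝ) := by
    refine intervalIntegral.integral_mono_on zero_le_one
      ((continuous_S_mul ρ f v m C).intervalIntegrable _ _) (by simp) ?_
    intro t ht
    refine S_le_two ρ f v ?_ C
    calc w m * t ≤ 1 / 2 * 1 := mul_le_mul (w_le m) ht.2 ht.1 (by norm_num)
      _ ≤ 1 := by norm_num
  simpa using h

theorem Phi_diff {C0 : Set K} {δ d : ℝ} (hδ : 0 ≤ δ) (hd : 0 ≤ d)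
    (hup : ∀ x ∈ C0, ∀ n, T ρ n x ⊆ C0)
    (hf : ∀ x ∈ C0, |ph (f x) - ph (g x)| ≤ δ) (hv : ∀ i, ∀ C ⊆ C0, |v i C - u i C| ≤ d)
    {C : Set K} (hC : C ⊆ C0) (m : ℕ) :
    |Phi ρ f v m C - Phi ρ g u m C| ≤ δ + (δ + d) / 4 := by
  unfold Phi
  have c1 := continuous_S_mul ρ f v m C
  have c2 := continuous_S_mul ρ g u m C
  rw [← intervalIntegral.integral_sub (c1.intervalIntegrable _ _) (c2.intervalIntegrable _ _)]
  have c3 : Continuous (fun t : ℝ => δ + (w m * (δ + d)) * t) := by fun_prop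
  have h1 : |∫ t in (0 : ℝ)..1, (S ρ f v C (w m * t) - S ρ g u C (w m * t))|
      ≤ ∫ t in (0 : ℝ)..1, |S ρ f v C (w m * t) - S ρ g u C (w m * t)| :=
    intervalIntegral.abs_integral_le_integral_abs zero_le_one
  have h2 : ∫ t in (0 : ℝ)..1, |S ρ f v C (w m * t) - S ρ g u C (w m * t)|
      ≤ ∫ t in (0 : ℝ)..1, (δ + (w m * (δ + d)) * t) := by
    refine intervalIntegral.integral_mono_on zero_le_one
      ((c1.sub c2).abs.intervalIntegrable _ _) (c3.intervalIntegrable _ _) ?_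
    intro t ht
    refine (S_diff ρ f g v u hδ hd hup hf hv hC (mul_nonneg (w_pos m).le ht.1)).trans (le_of_eq ?_)
    ring
  have h3 : ∫ t in (0 : ℝ)..1, (δ + (w m * (δ + d)) * t) = δ + (w m * (δ + d)) / 2 := by
    have i1 : IntervalIntegrable (fun _ : ℝ => δ) MeasureTheory.volume 0 1 :=
      continuous_const.intervalIntegrable _ _
    have i2 : IntervalIntegrable (fun t : ℝ => (w m * (δ + d)) * t) MeasureTheory.volume 0 1 := by
      have : Continuous (fun t : ℝ => (w m * (δ + d)) * t) := by fun_prop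
      exact this.intervalIntegrable _ _
    rw [intervalIntegral.integral_add i1 i2, intervalIntegral.integral_const_mul, integral_id,
      intervalIntegral.integral_const]
    simp only [sub_zero, one_smul]
    ring
  have h4 : w m * (δ + d) ≤ 1 / 2 * (δ + d) := mul_le_mul_of_nonneg_right (w_le m) (by positivity)
  linarith

end Pool.Agent.H66B
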