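import Pool.Agent.H66B.Usc

/-!
# H66B/Stab1: maximizing sequences converge (imports Usc)

* `tendsto_of_uniq`: let `U` be an open neighbourhood of `x0`.  `C \ U` is closed.  If it is empty,
  `xs k ∈ U` for all `k`.  Otherwise `val s` has a maximizer `y` on `C \ U` (`exists_max`), and
  `val s y < val s x0` since `y ∈ C`, `y ≠ x0`.  Eventually `val s (xs k) > val s y`, so
  `xs k ∉ C \ U`, so `xs k ∈ U`.
* `tendsto_term`: `ph (f (xs k)) → ph (f x0)`, so `s P (xs k) → s P x0` and `P (xs k) → P x0`.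
  With `u i k = term i (xs k) - term i x0` we have `∑' w i u i k → 0` and
  `∑' w i max (u i k) 0 → 0` (`tendsto_sum_excess`), so `∑' w i |u i k| → 0` as
  `|u| = 2 max u 0 - u`; and `w i |u i k| ≤ ∑' w j |u j k|` (`le_tsum`/`Summable.le_tsum`), so
  `u i k → 0` for each `i`.
-/

set_option autoImplicit false

namespace Pool.Agent.H66B

open Set Filter Topology

variable {K : Type} [TopologicalSpace K] {ρ : ℕ → K → Ordinal.{0}} {f : K → ℝ}

theorem tendsto_of_uniq [CompactSpace K] (hρ : Lev ρ) (hf : Continuous f) {C : Set K}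
    (hC : IsClosed C) {s : ℝ} (hs : 0 ≤ s) {x0 : K} (hx0 : UniqMax ρ f C s x0) {ι : Type}
    {F : Filter ι} {xs : ι → K} (hxs : ∀ k, xs k ∈ C)
    (hv : Tendsto (fun k => val ρ f (V ρ f) s (xs k)) F (𝓝 (val ρ f (V ρ f) s x0))) :
    Tendsto xs F (𝓝 x0) := by
  rw [tendsto_nhds]
  intro U hU hxU
  by_cases hne : (C \ U).Nonempty
  · obtain ⟨y, hy, hmax⟩ := exists_max hρ hf (hC.sdiff hU) hne hs
    have hlt : val ρ f (V ρ f) s y < val ρ f (V ρ f) s x0 := by
      refine lt_of_le_of_ne (hx0.2.1 y hy.1) ?_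
      intro heq
      have : y = x0 := hx0.2.2 y hy.1 heq
      exact hy.2 (this ▸ hxU)
    have hev := hv.eventually (lt_mem_nhds hlt)
    filter_upwards [hev] with k hk
    by_contra hnot
    exact absurd (hmax (xs k) ⟨hxs k, hnot⟩) (not_le.2 hk)
  · rw [Set.not_nonempty_iff_eq_empty, Set.diff_eq_empty] at hne
    exact Filter.univ_mem' fun k => hne (hxs k)

theorem tendsto_term (hρ : Lev ρ) (hf : Continuous f) {s : ℝ} (hs : 0 < s) {x0 : K}
    {ι : Type} {F : Filter ι} {xs : ι → K} (hx : Tendsto xs F (𝓝 x0))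
    (hv : Tendsto (fun k => val ρ f (V ρ f) s (xs k)) F (𝓝 (val ρ f (V ρ f) s x0))) (i : ℕ) :
    Tendsto (fun k => term ρ f (V ρ f) i (xs k)) F (𝓝 (term ρ f (V ρ f) i x0)) := by
  have h1 : Tendsto (fun k => ph (f (xs k))) F (𝓝 (ph (f x0))) :=
    ((continuous_ph.comp hf).tendsto x0).comp hx
  have h2 : Tendsto (fun k => P ρ f (V ρ f) (xs k)) F (𝓝 (P ρ f (V ρ f) x0)) := by
    have h3 := (hv.sub h1).div_const s
    have h4 : ∀ x : K, (val ρ f (V ρ f) s x - ph (f x)) / s = P ρ f (V ρ f) x := by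
      intro x
      rw [val, add_sub_cancel_left, mul_div_cancel_left₀ _ hs.ne']
    simpa only [h4] using h3
  have hB := tendsto_sum_excess hρ hf hx
  -- summability
  have hsu : ∀ k, Summable (fun j => w j * (term ρ f (V ρ f) j (xs k) - term ρ f (V ρ f) j x0)) := by
    intro k
    have := (summable_term ρ f (V ρ f) (xs k)).sub (summable_term ρ f (V ρ f) x0)
    refine this.congr fun j => ?_
    ring
  have hsm : ∀ k, Summable (fun j => w j *
      max (term ρ f (V ρ f) j (xs k) - term ρ f (V ρ f) j x0) 0) := by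
    intro k
    refine Summable.of_nonneg_of_le (fun j => mul_nonneg (w_pos j).le (le_max_right _ _))
      (fun j => ?_) summable_w
    have h5 := term_le_one ρ f (V ρ f) j (xs k)
    have h6 := term_nonneg ρ f (V ρ f) j x0
    have h7 : max (term ρ f (V ρ f) j (xs k) - term ρ f (V ρ f) j x0) 0 ≤ 1 :=
      max_le (by linarith) zero_le_one
    calc w j * max (term ρ f (V ρ f) j (xs k) - term ρ f (V ρ f) j x0) 0 ≤ w j * 1 :=
          mul_le_mul_of_nonneg_left h7 (w_pos j).le
      _ = w j := mul_one _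
  have hA : ∀ k, ∑' j, w j * (term ρ f (V ρ f) j (xs k) - term ρ f (V ρ f) j x0) =
      P ρ f (V ρ f) (xs k) - P ρ f (V ρ f) x0 := by
    intro k
    unfold P
    rw [← (summable_term ρ f (V ρ f) (xs k)).tsum_sub (summable_term ρ f (V ρ f) x0)]
    congr 1
    funext j
    ring
  have habs : ∀ u : ℝ, |u| = 2 * max u 0 - u := by
    intro u
    rcases le_total 0 u with h | h
    · rw [abs_of_nonneg h, max_eq_left h]; ring
    · rw [abs_of_nonpos h, max_eq_right h]; ring
  have hbound : ∀ k, |term ρ f (V ρ f) i (xs k) - term ρ f (V ρ f) i x0| ≤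
      (2 * ∑' j, w j * max (term ρ f (V ρ f) j (xs k) - term ρ f (V ρ f) j x0) 0 -
        (P ρ f (V ρ f) (xs k) - P ρ f (V ρ f) x0)) / w i := by
    intro k
    rw [le_div_iff₀ (w_pos i)]
    have e1 : ∀ j, w j * |term ρ f (V ρ f) j (xs k) - term ρ f (V ρ f) j x0| =
        2 * (w j * max (term ρ f (V ρ f) j (xs k) - term ρ f (V ρ f) j x0) 0) -
          w j * (term ρ f (V ρ f) j (xs k) - term ρ f (V ρ f) j x0) := by
      intro j
      rw [habs]
      ring
    have e2 : Summable (fun j => w j * |term ρ f (V ρ f) j (xs k) - term ρ f (V ρ f) j x0|) := by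
      simp only [e1]
      exact ((hsm k).mul_left 2).sub (hsu k)
    have e3 : ∑' j, w j * |term ρ f (V ρ f) j (xs k) - term ρ f (V ρ f) j x0| =
        2 * ∑' j, w j * max (term ρ f (V ρ f) j (xs k) - term ρ f (V ρ f) j x0) 0 -
        (P ρ f (V ρ f) (xs k) - P ρ f (V ρ f) x0) := by
      simp only [e1]
      rw [((hsm k).mul_left 2).tsum_sub (hsu k), tsum_mul_left, hA]
    rw [← e3, mul_comm]
    exact e2.le_tsum i fun j _ => mul_nonneg (w_pos j).le (abs_nonneg _)
  have hlim : Tendsto (fun k => (2 * ∑' j, w j *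
      max (term ρ f (V ρ f) j (xs k) - term ρ f (V ρ f) j x0) 0 -
        (P ρ f (V ρ f) (xs k) - P ρ f (V ρ f) x0)) / w i) F (𝓝 0) := by
    have := ((hB.const_mul 2).sub (h2.sub_const (P ρ f (V ρ f) x0))).div_const (w i)
    simpa using this
  have h8 : Tendsto (fun k => term ρ f (V ρ f) i (xs k) - term ρ f (V ρ f) i x0) F (𝓝 0) :=
    squeeze_zero_norm (fun k => by rw [Real.norm_eq_abs]; exact hbound k) hlim
  have h9 := h8.add_const (term ρ f (V ρ f) i x0)
  simpa using h9

end Pool.Agent.H66B
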