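import Pool.Agent.H66B.Fun

/-!
# H66B/TermP: bounds and Lipschitz estimates for `term`, `P`, `val` (imports Fun)

`term ρ f v i x = th (ph (f x) - v i (T ρ (nu i) x))`, `P = ∑' w i * term`, `∑' w i = 1`,
`val = ph (f x) + s * P`.
-/

set_option autoImplicit false

namespace Pool.Agent.H66B

open Set Filter Topology

variable {K : Type} (ρ : ℕ → K → Ordinal.{0}) (f g : K → ℝ) (v u : ℕ → Set K → ℝ)

theorem term_nonneg (i : ℕ) (x : K) : 0 ≤ term ρ f v i x := th_nonneg _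

theorem term_le_one (i : ℕ) (x : K) : term ρ f v i x ≤ 1 := th_le_one _

theorem summable_term (x : K) : Summable (fun i => w i * term ρ f v i x) := by
  refine Summable.of_nonneg_of_le (fun i => mul_nonneg (w_pos i).le (term_nonneg ρ f v i x))
    (fun i => ?_) summable_w
  calc w i * term ρ f v i x ≤ w i * 1 :=
        mul_le_mul_of_nonneg_left (term_le_one ρ f v i x) (w_pos i).le
    _ = w i := mul_one _

theorem P_nonneg (x : K) : 0 ≤ P ρ f v x :=
  tsum_nonneg (fun i => mul_nonneg (w_pos i).le (term_nonneg ρ f v i x))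

theorem P_le_one (x : K) : P ρ f v x ≤ 1 := by
  rw [← tsum_w]
  refine Summable.tsum_le_tsum (fun i => ?_) (summable_term ρ f v x) summable_w
  calc w i * term ρ f v i x ≤ w i * 1 :=
        mul_le_mul_of_nonneg_left (term_le_one ρ f v i x) (w_pos i).le
    _ = w i := mul_one _

theorem term_diff {C0 : Set K} {δ d : ℝ} (hup : ∀ x ∈ C0, ∀ n, T ρ n x ⊆ C0)
    (hf : ∀ x ∈ C0, |ph (f x) - ph (g x)| ≤ δ) (hv : ∀ i, ∀ C ⊆ C0, |v i C - u i C| ≤ d)
    {x : K} (hx : x ∈ C0) (i : ℕ) : |term ρ f v i x - term ρ g u i x| ≤ δ + d := by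
  unfold term
  refine (th_lip _ _).trans ?_
  have h1 := hf x hx
  have h2 := hv i _ (hup x hx (nu i))
  have e : ph (f x) - v i (T ρ (nu i) x) - (ph (g x) - u i (T ρ (nu i) x))
      = (ph (f x) - ph (g x)) - (v i (T ρ (nu i) x) - u i (T ρ (nu i) x)) := by ring
  rw [e]
  exact (abs_sub _ _).trans (add_le_add h1 h2)

theorem P_diff {C0 : Set K} {δ d : ℝ} (hup : ∀ x ∈ C0, ∀ n, T ρ n x ⊆ C0)
    (hf : ∀ x ∈ C0, |ph (f x) - ph (g x)| ≤ δ) (hv : ∀ i, ∀ C ⊆ C0, |v i C - u i C| ≤ d)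
    {x : K} (hx : x ∈ C0) : |P ρ f v x - P ρ g u x| ≤ δ + d := by
  have hs1 := summable_term ρ f v x
  have hs2 := summable_term ρ g u x
  have hsw : Summable (fun i => w i * (δ + d)) := summable_w.mul_right _
  have key : ∀ i, |w i * term ρ f v i x - w i * term ρ g u i x| ≤ w i * (δ + d) := by
    intro i
    rw [← mul_sub, abs_mul, abs_of_pos (w_pos i)]
    exact mul_le_mul_of_nonneg_left (term_diff ρ f g v u hup hf hv hx i) (w_pos i).le
  have e : P ρ f v x - P ρ g u x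
      = ∑' i, (w i * term ρ f v i x - w i * term ρ g u i x) := by
    unfold P
    rw [hs1.tsum_sub hs2]
  rw [e]
  have hsum : Summable (fun i => w i * term ρ f v i x - w i * term ρ g u i x) := hs1.sub hs2
  have hval : ∑' i, w i * (δ + d) = δ + d := by
    rw [tsum_mul_right, tsum_w, one_mul]
  rw [abs_le]
  constructor
  · rw [← hval, ← tsum_neg]
    exact Summable.tsum_le_tsum (fun i => (abs_le.1 (key i)).1) hsw.neg hsum
  · rw [← hval]
    exact Summable.tsum_le_tsum (fun i => (abs_le.1 (key i)).2) hsum hsw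

theorem val_nonneg {s : ℝ} (hs : 0 ≤ s) (x : K) : 0 ≤ val ρ f v s x :=
  add_nonneg (ph_nonneg _) (mul_nonneg hs (P_nonneg ρ f v x))

theorem val_le_two {s : ℝ} (hs1 : s ≤ 1) (x : K) : val ρ f v s x ≤ 2 := by
  unfold val
  have h1 := ph_le_one (f x)
  have h2 := P_le_one ρ f v x
  have h3 := P_nonneg ρ f v x
  nlinarith

theorem abs_val_le (s : ℝ) (x : K) : |val ρ f v s x| ≤ 1 + |s| := by
  unfold val
  refine (abs_add_le _ _).trans (add_le_add ?_ ?_)
  · rw [abs_of_nonneg (ph_nonneg _)]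
    exact ph_le_one _
  · rw [abs_mul, abs_of_nonneg (P_nonneg ρ f v x)]
    calc |s| * P ρ f v x ≤ |s| * 1 := mul_le_mul_of_nonneg_left (P_le_one ρ f v x) (abs_nonneg _)
      _ = |s| := mul_one _

theorem val_diff {C0 : Set K} {δ d : ℝ} (hup : ∀ x ∈ C0, ∀ n, T ρ n x ⊆ C0)
    (hf : ∀ x ∈ C0, |ph (f x) - ph (g x)| ≤ δ) (hv : ∀ i, ∀ C ⊆ C0, |v i C - u i C| ≤ d)
    {s : ℝ} (hs : 0 ≤ s) {x : K} (hx : x ∈ C0) :
    |val ρ f v s x - val ρ g u s x| ≤ δ + s * (δ + d) := by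
  unfold val
  have e : ph (f x) + s * P ρ f v x - (ph (g x) + s * P ρ g u x)
      = (ph (f x) - ph (g x)) + s * (P ρ f v x - P ρ g u x) := by ring
  rw [e]
  refine (abs_add_le _ _).trans (add_le_add (hf x hx) ?_)
  rw [abs_mul, abs_of_nonneg hs]
  exact mul_le_mul_of_nonneg_left (P_diff ρ f g v u hup hf hv hx) hs

theorem val_diff_s (s s' : ℝ) (x : K) : |val ρ f v s x - val ρ f v s' x| ≤ |s - s'| := by
  unfold val
  have e : ph (f x) + s * P ρ f v x - (ph (f x) + s' * P ρ f v x) = (s - s') * P ρ f v x := by ring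
  rw [e, abs_mul, abs_of_nonneg (P_nonneg ρ f v x)]
  calc |s - s'| * P ρ f v x ≤ |s - s'| * 1 :=
        mul_le_mul_of_nonneg_left (P_le_one ρ f v x) (abs_nonneg _)
    _ = |s - s'| := mul_one _

end Pool.Agent.H66B
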