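import Pool.Agent.H66B.ClaimA

/-!
# H66B/Uniq: uniqueness of the maximizer at points of differentiability (imports ClaimA)

Let `S = S ρ f (V ρ f) C` be differentiable at `s > 0`, and let `x`, `y` be maximizers of
`val s` over `C`.  For all `s'`: `S s' ≥ val s' x = ph (f x) + s' * P x` (`val_le_S`) with
equality at `s' = s` (`S_eq_of_max`).  So `s' ↦ S s' - (ph (f x) + s' P x)` has a minimum at `s`
and its derivative `S'(s) - P x` vanishes (`IsLocalMin.hasDerivAt_eq_zero`).  The same for `y`: so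
`P x = P y`, and `val s x = val s y` gives `ph (f x) = ph (f y)`.  If `x ≠ y` then `lt n x y` or
`lt n y x` for some `n` (`ne_cases`), and `claimA` for `x` (or `y`) gives `ph (f y) < ph (f x)` (or
the reverse), a contradiction.
-/

set_option autoImplicit false

namespace Pool.Agent.H66B

open Set Filter Topology

theorem uniq_of_diff {K : Type} [TopologicalSpace K] [CompactSpace K]
    {ρ : ℕ → K → Ordinal.{0}} {f : K → ℝ} (hρ : Lev ρ) (hsep : Sep ρ) (hf : Continuous f)
    {C : Set K} (hC : Good ρ C) (hpos : ∃ y ∈ C, 0 < ph (f y)) {s : ℝ} (hs : 0 < s)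
    (hd : DifferentiableAt ℝ (S ρ f (V ρ f) C) s) {x y : K} (hx : x ∈ C) (hy : y ∈ C)
    (hxm : ∀ u ∈ C, val ρ f (V ρ f) s u ≤ val ρ f (V ρ f) s x)
    (hym : ∀ u ∈ C, val ρ f (V ρ f) s u ≤ val ρ f (V ρ f) s y) : x = y := by
  have key : ∀ z ∈ C, (∀ u ∈ C, val ρ f (V ρ f) s u ≤ val ρ f (V ρ f) s z) →
      deriv (S ρ f (V ρ f) C) s = P ρ f (V ρ f) z := by
    intro z hz hzm
    have hder : HasDerivAt (fun s' => S ρ f (V ρ f) C s' - (ph (f z) + s' * P ρ f (V ρ f) z))
        (deriv (S ρ f (V ρ f) C) s - P ρ f (V ρ f) z) s := by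
      have h1 : HasDerivAt (fun s' : ℝ => ph (f z) + s' * P ρ f (V ρ f) z)
          (P ρ f (V ρ f) z) s := by
        have h2 := ((hasDerivAt_id s).mul_const (P ρ f (V ρ f) z)).const_add (ph (f z))
        simpa using h2
      exact hd.hasDerivAt.sub h1
    have hmin : IsLocalMin
        (fun s' => S ρ f (V ρ f) C s' - (ph (f z) + s' * P ρ f (V ρ f) z)) s := by
      refine Filter.Eventually.of_forall fun s' => ?_
      have h1 : S ρ f (V ρ f) C s = ph (f z) + s * P ρ f (V ρ f) z :=
        S_eq_of_max ρ f (V ρ f) hz hzm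
      have h2 : ph (f z) + s' * P ρ f (V ρ f) z ≤ S ρ f (V ρ f) C s' :=
        val_le_S ρ f (V ρ f) hz s'
      show S ρ f (V ρ f) C s - (ph (f z) + s * P ρ f (V ρ f) z) ≤
        S ρ f (V ρ f) C s' - (ph (f z) + s' * P ρ f (V ρ f) z)
      linarith
    have h0 := hmin.hasDerivAt_eq_zero hder
    linarith
  have hP : P ρ f (V ρ f) x = P ρ f (V ρ f) y := (key x hx hxm).symm.trans (key y hy hym)
  have hv : val ρ f (V ρ f) s x = val ρ f (V ρ f) s y := le_antisymm (hym x hx) (hxm y hy)
  have hph : ph (f x) = ph (f y) := by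
    unfold val at hv
    rw [hP] at hv
    linarith
  by_contra hne
  obtain ⟨n, h | h⟩ := ne_cases hsep hne
  · have := (claimA hρ hf hC hs hx hxm hpos).2 n y h
    linarith
  · have := (claimA hρ hf hC hs hy hym hpos).2 n x h
    linarith

end Pool.Agent.H66B
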