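import Pool.Agent.H66B.Fix

/-!
# H66B/VProp: basic properties of the fixed point `V ρ f` (imports Fix)

Everything follows from `V ρ f m C = ∫ t in 0..1, S ρ f (V ρ f) C (w m * t)` (`V_fix`).

* `V_nonneg`, `V_le_two`: `Phi_nonneg`, `Phi_le_two`.
* `le_V`: for `x ∈ C`, `S C s ≥ val s x ≥ ph (f x)` for all `s ≥ 0` (`val_le_S`, `P_nonneg`);
  integrate over `[0,1]`.
* `V_empty`: `S_empty`.
* `V_le`: `val s x ≤ c + s ≤ c + w m` for `x ∈ C`, `s = w m * t ≤ w m`; `S_le`; integrate.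
* `V_mono`: `S_mono`; integrate (`intervalIntegral.integral_mono_on`).
* `PV_le`: every term is `th (ph (f x) - V ..) ≤ max (ph (f x) - V ..) 0 ≤ ph (f x)`
  (`th_le`, `V_nonneg`, `ph_nonneg`), and `∑' w i = 1`.
* `V_lip_on`: show by induction on `n` that `|V ρ f m C - V ρ g m C| ≤ 2 * e + 2 / 4 ^ n` for all
  `m` and all `C ⊆ C0`: `n = 0`: both values are in `[0,2]`.  Step: `Phi_diff` with `δ = e`,
  `d = 2 * e + 2/4^n`: `e + (e + 2 e + 2/4^n)/4 = 7/4 e + 2/4^(n+1)`.  Let `n → ∞`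
  (`le_of_forall_pos_le_add` and `tendsto_pow_atTop_nhds_zero_of_lt_one`, or
  `ge_of_tendsto`).
* `V_lip`: `C0 = univ` and `ph_lip`.
* `term_lip`, `val_lip`: `term_diff`, `val_diff` with `C0 = univ`, `δ = e`, `d = 2 e`.
-/

set_option autoImplicit false

namespace Pool.Agent.H66B

open Set Filter Topology

variable {K : Type} (ρ : ℕ → K → Ordinal.{0}) (f g : K → ℝ)

theorem intervalIntegrable_S (m : ℕ) (C : Set K) :
    IntervalIntegrable (fun t => S ρ f (V ρ f) C (w m * t)) MeasureTheory.volume 0 1 :=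
  ((continuous_S ρ f (V ρ f) C).comp (continuous_const.mul continuous_id)).intervalIntegrable 0 1

theorem V_nonneg (m : ℕ) (C : Set K) : 0 ≤ V ρ f m C := by
  rw [V_fix]
  exact Phi_nonneg ρ f _ m C

theorem V_le_two (m : ℕ) (C : Set K) : V ρ f m C ≤ 2 := by
  rw [V_fix]
  exact Phi_le_two ρ f _ m C

theorem le_V {C : Set K} {x : K} (hx : x ∈ C) (m : ℕ) : ph (f x) ≤ V ρ f m C := by
  rw [V_fix, Phi]
  have h : ∀ t ∈ Set.Icc (0 : ℝ) 1, ph (f x) ≤ S ρ f (V ρ f) C (w m * t) := by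
    intro t ht
    refine le_trans ?_ (val_le_S ρ f _ hx _)
    have : 0 ≤ (w m * t) * P ρ f (V ρ f) x :=
      mul_nonneg (mul_nonneg (w_pos m).le ht.1) (P_nonneg ρ f _ x)
    unfold val
    linarith
  have h2 := intervalIntegral.integral_mono_on (μ := MeasureTheory.volume) zero_le_one
    (intervalIntegrable_const (c := ph (f x))) (intervalIntegrable_S ρ f m C) h
  simpa using h2

theorem V_empty (m : ℕ) : V ρ f m ∅ = 0 := by
  rw [V_fix, Phi]
  simp [S_empty]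

theorem V_le {C : Set K} {c : ℝ} (hc : 0 ≤ c) (h : ∀ x ∈ C, ph (f x) ≤ c) (m : ℕ) :
    V ρ f m C ≤ c + w m := by
  rw [V_fix, Phi]
  have hw := (w_pos m).le
  have h1 : ∀ t ∈ Set.Icc (0 : ℝ) 1, S ρ f (V ρ f) C (w m * t) ≤ c + w m := by
    intro t ht
    refine S_le ρ f _ (by linarith) ?_
    intro x hx
    have h3 := P_le_one ρ f (V ρ f) x
    have h4 := P_nonneg ρ f (V ρ f) x
    have h5 : w m * t ≤ w m := by nlinarith [ht.2]
    have h6 : (w m * t) * P ρ f (V ρ f) x ≤ w m * 1 :=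
      mul_le_mul h5 h3 h4 hw
    unfold val
    linarith [h x hx]
  have h2 := intervalIntegral.integral_mono_on (μ := MeasureTheory.volume) zero_le_one
    (intervalIntegrable_S ρ f m C) (intervalIntegrable_const (c := c + w m)) h1
  simpa using h2

theorem V_mono {C D : Set K} (h : C ⊆ D) (m : ℕ) : V ρ f m C ≤ V ρ f m D := by
  rw [V_fix ρ f m C, V_fix ρ f m D, Phi, Phi]
  refine intervalIntegral.integral_mono_on (μ := MeasureTheory.volume) zero_le_one
    (intervalIntegrable_S ρ f m C) (intervalIntegrable_S ρ f m D) ?_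
  intro t ht
  exact S_mono ρ f _ h (mul_nonneg (w_pos m).le ht.1)

theorem PV_le (x : K) : P ρ f (V ρ f) x ≤ ph (f x) := by
  have h1 : ∀ i, w i * term ρ f (V ρ f) i x ≤ w i * ph (f x) := by
    intro i
    refine mul_le_mul_of_nonneg_left ?_ (w_pos i).le
    refine le_trans (th_le _) (max_le ?_ (ph_nonneg _))
    linarith [V_nonneg ρ f i (T ρ (nu i) x)]
  have h2 := (summable_term ρ f (V ρ f) x).tsum_le_tsum h1 (summable_w.mul_right (ph (f x)))
  rw [tsum_mul_right, tsum_w, one_mul] at h2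
  exact h2

theorem V_lip_on {C0 : Set K} (hup : ∀ x ∈ C0, ∀ n, T ρ n x ⊆ C0) {e : ℝ} (he : 0 ≤ e)
    (hf : ∀ x ∈ C0, |ph (f x) - ph (g x)| ≤ e) (m : ℕ) {C : Set K} (hC : C ⊆ C0) :
    |V ρ f m C - V ρ g m C| ≤ 2 * e := by
  have key : ∀ n : ℕ, ∀ m : ℕ, ∀ C ⊆ C0, |V ρ f m C - V ρ g m C| ≤ 2 * e + 2 * (1 / 4 : ℝ) ^ n := by
    intro n
    induction n with
    | zero =>
      intro m C _
      have h1 := V_nonneg ρ f m C
      have h2 := V_le_two ρ f m C
      have h3 := V_nonneg ρ g m C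
      have h4 := V_le_two ρ g m C
      rw [abs_le]
      constructor <;> simp only [pow_zero] <;> linarith
    | succ n ih =>
      intro m C hC
      have hd : (0 : ℝ) ≤ 2 * e + 2 * (1 / 4 : ℝ) ^ n := by positivity
      have h1 := Phi_diff ρ f g (V ρ f) (V ρ g) he hd hup hf ih hC m
      rw [← V_fix, ← V_fix] at h1
      refine h1.trans ?_
      rw [pow_succ]
      linarith
  have hlim : Filter.Tendsto (fun n : ℕ => 2 * e + 2 * (1 / 4 : ℝ) ^ n) Filter.atTop
      (𝓝 (2 * e + 2 * 0)) :=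
    tendsto_const_nhds.add (tendsto_const_nhds.mul
      (tendsto_pow_atTop_nhds_zero_of_lt_one (by norm_num) (by norm_num)))
  rw [mul_zero, add_zero] at hlim
  exact ge_of_tendsto' hlim (fun n => key n m C hC)

theorem V_lip {e : ℝ} (he : 0 ≤ e) (hf : ∀ x, |f x - g x| ≤ e) (m : ℕ) (C : Set K) :
    |V ρ f m C - V ρ g m C| ≤ 2 * e :=
  V_lip_on ρ f g (C0 := Set.univ) (fun _ _ _ => Set.subset_univ _) he
    (fun x _ => (ph_lip _ _).trans (hf x)) m (Set.subset_univ _)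

theorem term_lip {e : ℝ} (he : 0 ≤ e) (hf : ∀ x, |f x - g x| ≤ e) (i : ℕ) (x : K) :
    |term ρ f (V ρ f) i x - term ρ g (V ρ g) i x| ≤ 3 * e := by
  have h := term_diff ρ f g (V ρ f) (V ρ g) (C0 := Set.univ) (δ := e) (d := 2 * e)
    (fun _ _ _ => Set.subset_univ _) (fun x _ => (ph_lip _ _).trans (hf x))
    (fun i C _ => V_lip ρ f g he hf i C) (Set.mem_univ x) i
  linarith

theorem val_lip {e : ℝ} (he : 0 ≤ e) (hf : ∀ x, |f x - g x| ≤ e) {s : ℝ} (hs : 0 ≤ s)
    (hs1 : s ≤ 1) (x : K) :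
    |val ρ f (V ρ f) s x - val ρ g (V ρ g) s x| ≤ 4 * e := by
  have h := val_diff ρ f g (V ρ f) (V ρ g) (C0 := Set.univ) (δ := e) (d := 2 * e)
    (fun _ _ _ => Set.subset_univ _) (fun x _ => (ph_lip _ _).trans (hf x))
    (fun i C _ => V_lip ρ f g he hf i C) hs (Set.mem_univ x)
  have h2 : s * (e + 2 * e) ≤ 1 * (e + 2 * e) := mul_le_mul_of_nonneg_right hs1 (by linarith)
  linarith

end Pool.Agent.H66B
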